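import Pool.Agent.H27.Orl.KTri

/-!
# The category `KK hf` of graded matrix factorizations, and the dictionary

`KK hf` is the full subcategory of the homotopy category of graded modules on the complexes `P_E`.
With `[Fact (f ≠ 0)]` it is triangulated.

* `kObj hf E`; `exists_kObj_iso`;
* `k0 : MF.Z E F 0 →ₗ[ℂ] (kObj E ⟶ kObj F)`, surjective with kernel `MF.B E F 0`; composition is the
  product of matrices;
* `kN n : MF.Z E F (3 n) →ₗ[ℂ] (kObj E ⟶ (kObj F)⟦n⟧)`, surjective with kernel `MF.B E F (3 n)`;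
* `exists_cone_triangle`.
-/

open CategoryTheory CategoryTheory.Limits MvPolynomial KuMF Pretriangulated

set_option backward.isDefEq.respectTransparency false
set_option linter.unusedSectionVars false

noncomputable section

namespace H24.Ku

variable {f : Pol 5}

/-- The category of graded matrix factorizations (as a full subcategory of the homotopy category
of graded modules). -/
abbrev KK (hf : f.IsHomogeneous 3) : Type 1 := (kProp hf).FullSubcategory

instance {hf : f.IsHomogeneous 3} [h0 : Fact (f ≠ 0)] : (kProp hf).IsTriangulated :=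
  kProp_isTriangulated h0.out

/-- The quotient functor to the homotopy category. -/
abbrev kq (hf : f.IsHomogeneous 3) : CochainComplex (Gr (cubic f hf)) ℤ ⥤
    HomotopyCategory (Gr (cubic f hf)) (ComplexShape.up ℤ) := HomotopyCategory.quotient _ _

variable (hf : f.IsHomogeneous 3)

/-- The object of `KK hf` given by a matrix factorization. -/
def kObj (E : MF f) : KK hf := ⟨(kq hf).obj (PE hf E), ⟨E, ⟨Iso.refl _⟩⟩⟩

variable {hf}

lemma exists_kObj_iso (L : KK hf) : ∃ E : MF f, Nonempty (L ≅ kObj hf E) := by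
  obtain ⟨E, ⟨e⟩⟩ := L.property
  exact ⟨E, ⟨(kProp hf).isoMk e⟩⟩

variable (hf)

/-- A cocycle of weight `0` as a morphism. -/
def k0m {E F : MF f} (α : Matrix F.ι E.ι (Pol 5)) (hα : α ∈ MF.Z E F 0) :
    kObj hf E ⟶ kObj hf F :=
  ObjectProperty.homMk ((kq hf).map (phi0 hf α hα))

variable {hf}

lemma k0m_hom {E F : MF f} (α : Matrix F.ι E.ι (Pol 5)) (hα : α ∈ MF.Z E F 0) :
    (k0m hf α hα).hom = (kq hf).map (phi0 hf α hα) := rfl

lemma k0m_add {E F : MF f} (α β : Matrix F.ι E.ι (Pol 5)) (hα : α ∈ MF.Z E F 0)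
    (hβ : β ∈ MF.Z E F 0) :
    k0m hf (α + β) (Submodule.add_mem _ hα hβ) = k0m hf α hα + k0m hf β hβ := by
  apply ObjectProperty.hom_ext
  change (kq hf).map _ = (kq hf).map _ + (kq hf).map _
  rw [← Functor.map_add, ← phi0_add]

lemma k0m_smul {E F : MF f} (c : ℂ) (α : Matrix F.ι E.ι (Pol 5)) (hα : α ∈ MF.Z E F 0) :
    k0m hf (c • α) (Submodule.smul_mem _ c hα) = c • k0m hf α hα := by
  apply ObjectProperty.hom_ext
  change (kq hf).map _ = c • (kq hf).map _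
  rw [← Functor.map_smul, ← phi0_smul]

lemma exists_k0m (hf0 : f ≠ 0) {E F : MF f} (φ : kObj hf E ⟶ kObj hf F) :
    ∃ (α : Matrix F.ι E.ι (Pol 5)) (hα : α ∈ MF.Z E F 0), φ = k0m hf α hα := by
  obtain ⟨ψ, hψ⟩ := (kq hf).map_surjective φ.hom
  obtain ⟨α, hα, ⟨h⟩⟩ := exists_phi0 hf0 ψ
  refine ⟨α, hα, ObjectProperty.hom_ext _ ?_⟩
  rw [← hψ]
  exact HomotopyCategory.eq_of_homotopy _ _ h

lemma k0m_eq_zero_iff (hf0 : f ≠ 0) {E F : MF f} (α : Matrix F.ι E.ι (Pol 5))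
    (hα : α ∈ MF.Z E F 0) : k0m hf α hα = 0 ↔ α ∈ MF.B E F 0 := by
  constructor
  · intro h
    have h0 : (kq hf).map (phi0 hf α hα) = 0 := congrArg (fun φ => φ.hom) h
    have h1 : (kq hf).map (phi0 hf α hα) = (kq hf).map 0 := by
      rw [h0, Functor.map_zero]
    exact mem_B_of_phi0_homotopy hf0 α hα ⟨HomotopyCategory.homotopyOfEq _ _ h1⟩
  · intro h
    obtain ⟨h1⟩ := phi0_homotopy_of_mem_B (hf := hf) α hα h
    apply ObjectProperty.hom_ext
    exact (HomotopyCategory.eq_of_homotopy _ _ h1).trans (Functor.map_zero _ _ _)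

lemma k0m_comp {E F G : MF f} (α : Matrix F.ι E.ι (Pol 5)) (hα : α ∈ MF.Z E F 0)
    (β : Matrix G.ι F.ι (Pol 5)) (hβ : β ∈ MF.Z F G 0) :
    k0m hf α hα ≫ k0m hf β hβ = k0m hf (β * α) (by simpa using MF.mul_mem_Z hβ hα) := by
  apply ObjectProperty.hom_ext
  change (kq hf).map _ ≫ (kq hf).map _ = (kq hf).map _
  rw [← Functor.map_comp, phi0_comp]

lemma k0m_one (E : MF f) : k0m hf 1 (MF.one_mem_Z E) = 𝟙 (kObj hf E) := by
  apply ObjectProperty.hom_ext
  change (kq hf).map _ = 𝟙 _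
  rw [phi0_one]
  exact (kq hf).map_id _

/-- Two cocycles define the same morphism iff they differ by a coboundary. -/
lemma k0m_eq_iff (hf0 : f ≠ 0) {E F : MF f} (α β : Matrix F.ι E.ι (Pol 5))
    (hα : α ∈ MF.Z E F 0) (hβ : β ∈ MF.Z E F 0) :
    k0m hf α hα = k0m hf β hβ ↔ α - β ∈ MF.B E F 0 := by
  have h : k0m hf (α - β) (Submodule.sub_mem _ hα hβ) = k0m hf α hα - k0m hf β hβ := by
    rw [eq_sub_iff_add_eq, ← k0m_add]
    congr 1
    abel
  rw [← k0m_eq_zero_iff hf0 (α - β) (Submodule.sub_mem _ hα hβ), h, sub_eq_zero]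

variable [h0 : Fact (f ≠ 0)]

variable (hf) in
/-- The identification of `(kObj F)⟦n⟧` with the class of `(PE F)⟦n⟧`. -/
def kshIso (n : ℤ) (F : MF f) : (kq hf).obj ((PE hf F)⟦n⟧) ≅ ((kObj hf F)⟦n⟧).obj :=
  ((kq hf).commShiftIso n).app (PE hf F) ≪≫ ((kProp hf).ι.commShiftIso n).symm.app (kObj hf F)

variable (hf) in
/-- A cocycle of weight `3 n` as a morphism `kObj E ⟶ (kObj F)⟦n⟧`. -/
def kNm {E F : MF f} (n : ℤ) (α : Matrix F.ι E.ι (Pol 5)) (hα : α ∈ MF.Z E F (3 * n)) :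
    kObj hf E ⟶ (kObj hf F)⟦n⟧ :=
  ObjectProperty.homMk ((kq hf).map (phiN hf n α hα) ≫ (kshIso hf n F).hom)

lemma kNm_hom {E F : MF f} (n : ℤ) (α : Matrix F.ι E.ι (Pol 5)) (hα : α ∈ MF.Z E F (3 * n)) :
    (kNm hf n α hα).hom = (kq hf).map (phiN hf n α hα) ≫ (kshIso hf n F).hom := rfl

lemma phiN_add {E F : MF f} (n : ℤ) (α β : Matrix F.ι E.ι (Pol 5)) (hα : α ∈ MF.Z E F (3 * n))
    (hβ : β ∈ MF.Z E F (3 * n)) :
    phiN hf n (α + β) (Submodule.add_mem _ hα hβ) = phiN hf n α hα + phiN hf n β hβ := by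
  ext k : 1
  rw [HomologicalComplex.add_f_apply, phiN_f, phiN_f, phiN_f]
  refine Eq.trans ?_ (matG_add _ _ _ _)
  exact matG_congr (fun k i _ => congrFun (congrFun (red_add α β) k) i)

lemma phiN_smul {E F : MF f} (n : ℤ) (c : ℂ) (α : Matrix F.ι E.ι (Pol 5))
    (hα : α ∈ MF.Z E F (3 * n)) :
    phiN hf n (c • α) (Submodule.smul_mem _ c hα) = c • phiN hf n α hα := by
  ext k : 1
  change _ = c • (phiN hf n α hα).f k
  rw [phiN_f, phiN_f]
  refine Eq.trans ?_ (matG_smul _ _ _)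
  exact matG_congr (fun k i _ => congrFun (congrFun (red_smul c α) k) i)

lemma kNm_add {E F : MF f} (n : ℤ) (α β : Matrix F.ι E.ι (Pol 5)) (hα : α ∈ MF.Z E F (3 * n))
    (hβ : β ∈ MF.Z E F (3 * n)) :
    kNm hf n (α + β) (Submodule.add_mem _ hα hβ) = kNm hf n α hα + kNm hf n β hβ := by
  apply ObjectProperty.hom_ext
  change (kNm hf n (α + β) _).hom = (kNm hf n α hα).hom + (kNm hf n β hβ).hom
  rw [kNm_hom, kNm_hom, kNm_hom, ← Preadditive.add_comp, ← Functor.map_add, ← phiN_add]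

lemma kNm_smul {E F : MF f} (n : ℤ) (c : ℂ) (α : Matrix F.ι E.ι (Pol 5))
    (hα : α ∈ MF.Z E F (3 * n)) :
    kNm hf n (c • α) (Submodule.smul_mem _ c hα) = c • kNm hf n α hα := by
  apply ObjectProperty.hom_ext
  change (kNm hf n (c • α) _).hom = c • (kNm hf n α hα).hom
  rw [kNm_hom, kNm_hom, ← Linear.smul_comp, ← Functor.map_smul, ← phiN_smul]

lemma exists_kNm {E F : MF f} (n : ℤ) (φ : kObj hf E ⟶ (kObj hf F)⟦n⟧) :
    ∃ (α : Matrix F.ι E.ι (Pol 5)) (hα : α ∈ MF.Z E F (3 * n)), φ = kNm hf n α hα := by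
  obtain ⟨ψ, hψ⟩ := (kq hf).map_surjective (φ.hom ≫ (kshIso hf n F).inv)
  obtain ⟨α, hα, ⟨h⟩⟩ := exists_phi0 h0.out (ψ ≫ (epsn hf n F).inv)
  have hα' : α ∈ MF.Z E F (3 * n) := by rw [← Z_snMF]; exact hα
  refine ⟨α, hα', ObjectProperty.hom_ext _ ?_⟩
  have h1 : Homotopy ψ (phiN hf n α hα') :=
    (Homotopy.ofEq (by simp)).trans (h.compRight (epsn hf n F).hom)
  rw [kNm_hom, ← HomotopyCategory.eq_of_homotopy _ _ h1]
  change _ = (kq hf).map ψ ≫ _
  rw [hψ]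
  simp

lemma kNm_eq_zero_iff {E F : MF f} (n : ℤ) (α : Matrix F.ι E.ι (Pol 5))
    (hα : α ∈ MF.Z E F (3 * n)) : kNm hf n α hα = 0 ↔ α ∈ MF.B E F (3 * n) := by
  have hα' : α ∈ MF.Z E (snMF n F) 0 := by rw [Z_snMF]; exact hα
  have h1 : kNm hf n α hα = 0 ↔ (kq hf).map (phi0 hf (F := snMF n F) α hα') = 0 := by
    constructor
    · intro h
      have h2 : (kq hf).map (phiN hf n α hα) ≫ (kshIso hf n F).hom = 0 :=
        congrArg (fun φ => φ.hom) h
      have h3 : (kq hf).map (phiN hf n α hα) = 0 := by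
        rw [← cancel_mono (kshIso hf n F).hom, h2, zero_comp]
      have h4 : (kq hf).map (phi0 hf (F := snMF n F) α hα') ≫ (kq hf).map (epsn hf n F).hom = 0 := by
        rw [← Functor.map_comp]; exact h3
      rw [← cancel_mono ((kq hf).map (epsn hf n F).hom), h4, zero_comp]
    · intro h
      apply ObjectProperty.hom_ext
      change (kq hf).map (phi0 hf (F := snMF n F) α hα' ≫ (epsn hf n F).hom) ≫
        (kshIso hf n F).hom = 0
      rw [Functor.map_comp, h, zero_comp, zero_comp]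
  have h2 : (kq hf).map (phi0 hf (F := snMF n F) α hα') = 0 ↔ k0m hf (F := snMF n F) α hα' = 0 :=
    ⟨fun h => ObjectProperty.hom_ext _ h, fun h => congrArg (fun φ => φ.hom) h⟩
  rw [h1, h2, k0m_eq_zero_iff h0.out, B_snMF]

lemma k0m_comp_kNm {E F G : MF f} (n : ℤ) (α : Matrix F.ι E.ι (Pol 5)) (hα : α ∈ MF.Z E F 0)
    (β : Matrix G.ι F.ι (Pol 5)) (hβ : β ∈ MF.Z F G (3 * n)) :
    k0m hf α hα ≫ kNm hf n β hβ = kNm hf n (β * α) (by simpa using MF.mul_mem_Z hβ hα) := by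
  apply ObjectProperty.hom_ext
  change (kq hf).map _ ≫ (kq hf).map _ ≫ _ = (kq hf).map _ ≫ _
  rw [← Category.assoc, ← Functor.map_comp, phi0_comp_phiN]

lemma kshIso_naturality {F G : MF f} (n : ℤ) (β : Matrix G.ι F.ι (Pol 5))
    (hβ : β ∈ MF.Z F G 0) : (kshIso hf n F).hom ≫ ((k0m hf β hβ)⟦n⟧').hom =
      (kq hf).map ((phi0 hf β hβ)⟦n⟧') ≫ (kshIso hf n G).hom := by
  have h1 := (kq hf).commShiftIso_hom_naturality (phi0 hf β hβ) n
  have h2 := (kProp hf).ι.commShiftIso_inv_naturality (k0m hf β hβ) n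
  change (((kq hf).commShiftIso n).hom.app (PE hf F) ≫
    ((kProp hf).ι.commShiftIso n).inv.app (kObj hf F)) ≫ (kProp hf).ι.map ((k0m hf β hβ)⟦n⟧') =
    (kq hf).map ((phi0 hf β hβ)⟦n⟧') ≫ ((kq hf).commShiftIso n).hom.app (PE hf G) ≫
      ((kProp hf).ι.commShiftIso n).inv.app (kObj hf G)
  rw [Category.assoc, ← h2, reassoc_of% h1]
  rfl

lemma kNm_comp_shift {E F G : MF f} (n : ℤ) (α : Matrix F.ι E.ι (Pol 5))
    (hα : α ∈ MF.Z E F (3 * n)) (β : Matrix G.ι F.ι (Pol 5)) (hβ : β ∈ MF.Z F G 0) :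
    kNm hf n α hα ≫ (k0m hf β hβ)⟦n⟧' =
      kNm hf n (β * α) (by simpa using MF.mul_mem_Z hβ hα) := by
  apply ObjectProperty.hom_ext
  change ((kq hf).map (phiN hf n α hα) ≫ (kshIso hf n F).hom) ≫ ((k0m hf β hβ)⟦n⟧').hom =
    (kq hf).map _ ≫ (kshIso hf n G).hom
  rw [Category.assoc, kshIso_naturality, ← Category.assoc, ← Functor.map_comp, phiN_comp_shift]

/-- The cone triangle. -/
lemma exists_cone_triangle {E F : MF f} (α : Matrix F.ι E.ι (Pol 5)) (hα : α ∈ MF.Z E F 0) :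
    ∃ (g : kObj hf F ⟶ kObj hf (coneMF α hα))
      (h : kObj hf (coneMF α hα) ⟶ (kObj hf E)⟦(1 : ℤ)⟧),
      Triangle.mk (k0m hf α hα) g h ∈ distTriang (KK hf) := by
  obtain ⟨Z, g, h, hT⟩ := distinguished_cocone_triangle (k0m hf α hα)
  have hT' := (kProp hf).ι.map_distinguished _ hT
  let e := isoTriangleOfIso₁₂ _ (CochainComplex.mappingCone.triangleh (phi0 hf α hα)) hT'
    (HomotopyCategory.mappingCone_triangleh_distinguished _) (Iso.refl _) (Iso.refl _) (by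
      change (kq hf).map (phi0 hf α hα) ≫ 𝟙 _ = 𝟙 _ ≫ (kq hf).map (phi0 hf α hα)
      rw [Category.comp_id, Category.id_comp])
  obtain ⟨j⟩ := nonempty_cone_iso (hf := hf) α hα
  let e' : Z ≅ kObj hf (coneMF α hα) :=
    (kProp hf).isoMk (Triangle.π₃.mapIso e ≪≫ (kq hf).mapIso j)
  refine ⟨g ≫ e'.hom, e'.inv ≫ h, isomorphic_distinguished _ hT _ ?_⟩
  exact Triangle.isoMk _ _ (Iso.refl _) (Iso.refl _) e'.symm
    (by
      change k0m hf α hα ≫ 𝟙 _ = 𝟙 _ ≫ k0m hf α hα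
      rw [Category.comp_id, Category.id_comp])
    (by
      change (g ≫ e'.hom) ≫ e'.inv = 𝟙 _ ≫ g
      rw [Category.assoc, Iso.hom_inv_id, Category.comp_id, Category.id_comp])
    (by
      change (e'.inv ≫ h) ≫ (shiftFunctor _ _).map (𝟙 _) = e'.inv ≫ h
      rw [CategoryTheory.Functor.map_id, Category.comp_id])

end H24.Ku
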