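import Pool.Agent.H27.Orl.OrlD

/-!
# KUD-19 OrlE: `Hom(O(i), sheaf(N_F)⟦n⟧) = 0` for `i = 0, 1, 2`

`free_hom_zero`: `(CochainComplex.singleFunctor _ 0).obj (free _ i)` is K-projective
(`CochainComplex.isKProjective_of_projective` with `d = 0`; `free _ i` is projective), so a morphism
`(singleFunctor _ 0).obj (free _ i) ⟶ (Q.obj (NE hf F))⟦n⟧` in the derived category comes from a
morphism of complexes (`CochainComplex.IsKProjective.Qh_map_bijective`,
`singleFunctorIsoCompQ`, `Q.commShiftIso n`), whose component in degree `0` is a morphism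
`free _ i ⟶ (NE hf F).X n`, an element of degree `-i ≤ 0` of `(Q1 _).obj _` (`freeEquiv`), which is zero
(`Q1_subsingleton`); the other components are zero.

`O_hom_zero`: compose with the isomorphisms
`(sheaf _).mapDerivedCategorySingleFunctor 0` (`mapDerivedCategory.obj (single (free i)) ≅
single (O i)`) and `((sheaf _).mapDerivedCategory.commShiftIso n)`; use the surjectivity in
`sheaf_map_bijective_free` and `free_hom_zero`.
-/

open CategoryTheory CategoryTheory.Limits MvPolynomial KuMF DerivedCategory

set_option backward.isDefEq.respectTransparency false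

noncomputable section

namespace H24.Ku

section

universe w v u

variable {C : Type u} [Category.{v} C] [Abelian C]

lemma orlE_single_isKProjective (P : C) [Projective P] :
    ((CochainComplex.singleFunctor C 0).obj P).IsKProjective := by
  have : ∀ n : ℤ, Projective (((CochainComplex.singleFunctor C 0).obj P).X n) := by
    intro n
    by_cases hn : n = 0
    · subst hn
      exact Projective.of_iso (HomologicalComplex.singleObjXSelf (ComplexShape.up ℤ) 0 P).symm
        inferInstance
    · exact Projective.of_iso ((HomologicalComplex.isZero_single_obj_X (ComplexShape.up ℤ) 0 P n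
        hn).isoZero).symm inferInstance
  have : ((CochainComplex.singleFunctor C 0).obj P).IsStrictlyLE 0 := by
    rw [CochainComplex.isStrictlyLE_iff]
    intro n hn
    exact HomologicalComplex.isZero_single_obj_X (ComplexShape.up ℤ) 0 P n (by omega)
  exact CochainComplex.isKProjective_of_projective _ 0

lemma orlE_zero [HasDerivedCategory.{w} C] (K L : CochainComplex C ℤ) [K.IsKProjective]
    (h : ∀ g : K ⟶ L, g = 0) (φ : Q.obj K ⟶ Q.obj L) : φ = 0 := by
  obtain ⟨g, hg⟩ := (CochainComplex.IsKProjective.Qh_map_bijective K _).surjective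
    ((quotientCompQhIso C).hom.app K ≫ φ ≫ (quotientCompQhIso C).inv.app L)
  obtain ⟨g, rfl⟩ := (HomotopyCategory.quotient _ _).map_surjective g
  rw [h g, Functor.map_zero, Functor.map_zero] at hg
  rw [← cancel_epi ((quotientCompQhIso C).hom.app K),
    ← cancel_mono ((quotientCompQhIso C).inv.app L), comp_zero, zero_comp, Category.assoc]
  exact hg.symm

end

variable {f : Pol 5} (hf : f.IsHomogeneous 3)

theorem free_hom_zero (i : ℤ) (h0 : 0 ≤ i) (F : MF f) (n : ℤ)
    (φ : (singleFunctor (Gr (cubic f hf)) 0).obj (free _ i) ⟶ (Q.obj (NE hf F))⟦n⟧) : φ = 0 := by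
  have hK : ((CochainComplex.singleFunctor (Gr (cubic f hf)) 0).obj (free _ i)).IsKProjective :=
    orlE_single_isKProjective _
  have key : ∀ g : (CochainComplex.singleFunctor (Gr (cubic f hf)) 0).obj (free _ i) ⟶
      (NE hf F)⟦n⟧, g = 0 := by
    intro g
    apply HomologicalComplex.from_single_hom_ext
    rw [← cancel_epi (HomologicalComplex.singleObjXSelf (ComplexShape.up ℤ) 0
      (free (cubic f hf) i)).inv]
    refine Eq.trans ?_ comp_zero.symm
    have h1 : Subsingleton (free (cubic f hf) i ⟶ ((NE hf F)⟦n⟧).X 0) := by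
      have h2 : Subsingleton ((((NE hf F)⟦n⟧).X 0).obj.obj ⟨-i⟩) :=
        Q1_subsingleton (FrG (cubic f hf) F.w (3 * (0 + n))) (by
          change -i ≤ 0
          omega)
      exact (freeEquiv i (((NE hf F)⟦n⟧).X 0)).toEquiv.subsingleton
    exact Subsingleton.elim _ _
  have h1 := orlE_zero _ _ key (φ ≫ (Q.commShiftIso n).inv.app (NE hf F))
  rw [← cancel_mono ((Q.commShiftIso n).inv.app (NE hf F))]
  exact h1.trans zero_comp.symm

theorem O_hom_zero (hf0 : f ≠ 0) (hc : f.coeff (Finsupp.single 5 3) ≠ 0) (i : ℤ)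
    (h0 : 0 ≤ i) (h2 : i ≤ 2) (F : MF f) (n : ℤ)
    (φ : (singleFunctor (Coh (cubic f hf)) 0).obj (O _ i) ⟶
      ((sheaf (cubic f hf)).mapDerivedCategory.obj (Q.obj (NE hf F)))⟦n⟧) : φ = 0 := by
  obtain ⟨ψ, hψ⟩ := (sheaf_map_bijective_free hf hf0 hc i h0 h2 F n).2
    (((sheaf (cubic f hf)).mapDerivedCategorySingleFunctor 0).hom.app (free _ i) ≫ φ ≫
      ((sheaf (cubic f hf)).mapDerivedCategory.commShiftIso n).inv.app (Q.obj (NE hf F)))
  have h1 : (sheaf (cubic f hf)).mapDerivedCategory.map ψ =
    ((sheaf (cubic f hf)).mapDerivedCategorySingleFunctor 0).hom.app (free _ i) ≫ φ ≫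
      ((sheaf (cubic f hf)).mapDerivedCategory.commShiftIso n).inv.app (Q.obj (NE hf F)) := hψ
  rw [free_hom_zero hf i h0 F n ψ, Functor.map_zero] at h1
  rw [← cancel_epi (((sheaf (cubic f hf)).mapDerivedCategorySingleFunctor 0).hom.app (free _ i)),
    ← cancel_mono (((sheaf (cubic f hf)).mapDerivedCategory.commShiftIso n).inv.app
      (Q.obj (NE hf F))), comp_zero, zero_comp, Category.assoc]
  exact h1.symm

end H24.Ku
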