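import Pool.Agent.H27.Orl.OrlA
import Pool.Agent.H27.Orl.OrlE
import Pool.Agent.H27.Orl.KKDef

/-!
# OrlF: the functor from the category of matrix factorizations to the Kuznetsov component
-/

open CategoryTheory CategoryTheory.Limits MvPolynomial KuMF DerivedCategory

set_option backward.isDefEq.respectTransparency false

noncomputable section

namespace H24.Ku

section general

universe v u v' u'

variable {C : Type u} [Category.{v} C] {D : Type u'} [Category.{v'} D]

lemma bijective_of_isos (F : C ⥤ D) {X X' Y Y' : C} (e : X ≅ X') (e' : Y ≅ Y')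
    (h : Function.Bijective (fun f : X ⟶ Y => F.map f)) :
    Function.Bijective (fun f : X' ⟶ Y' => F.map f) := by
  constructor
  · intro f g hfg
    have hfg' : F.map f = F.map g := hfg
    have h1 : e.hom ≫ f ≫ e'.inv = e.hom ≫ g ≫ e'.inv := h.1 (by simp [hfg'])
    simpa using h1
  · intro g
    obtain ⟨f, hf⟩ := h.2 (F.map e.hom ≫ g ≫ F.map e'.inv)
    have hf' : F.map f = F.map e.hom ≫ g ≫ F.map e'.inv := hf
    refine ⟨e.inv ≫ f ≫ e'.hom, ?_⟩
    show F.map (e.inv ≫ f ≫ e'.hom) = g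
    rw [F.map_comp, F.map_comp, hf']
    simp [← F.map_comp_assoc, ← F.map_comp]

end general

section bdd

universe w v u w' v' u'

variable {U : Type u} [Category.{v} U] [Abelian U] [HasDerivedCategory.{w} U]
  {V : Type u'} [Category.{v'} V] [Abelian V] [HasDerivedCategory.{w'} V]
  (L : U ⥤ V) [L.Additive] [PreservesFiniteLimits L] [PreservesFiniteColimits L]

lemma bounded_mapDerivedCategory {M : DerivedCategory U} (hM : TStructure.t.bounded M) :
    TStructure.t.bounded (L.mapDerivedCategory.obj M) := by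
  obtain ⟨⟨a, ha⟩, ⟨b, hb⟩⟩ := hM
  obtain ⟨K, h1, h2, ⟨e⟩⟩ := exists_iso_Q_obj_of_isGE_of_isLE M a b
  have e' : L.mapDerivedCategory.obj M ≅
      Q.obj ((L.mapHomologicalComplex (ComplexShape.up ℤ)).obj K) :=
    L.mapDerivedCategory.mapIso e ≪≫ L.mapDerivedCategoryFactors.app K
  refine ⟨⟨a, ⟨?_⟩⟩, ⟨b, ⟨?_⟩⟩⟩
  · refine ⟨_, e', ?_⟩
    rw [CochainComplex.isStrictlyGE_iff]
    intro i hi
    exact L.map_isZero (K.isZero_of_isStrictlyGE a i hi)
  · refine ⟨_, e', ?_⟩
    rw [CochainComplex.isStrictlyLE_iff]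
    intro i hi
    exact L.map_isZero (K.isZero_of_isStrictlyLE b i hi)

end bdd

variable {f : Pol 5} (hf : f.IsHomogeneous 3)

/-- The functor `L ↦ sheaf (Q1 L)` from the homotopy category of graded modules to `D(Coh X)`. -/
def psi0 : HomotopyCategory (Gr (cubic f hf)) (ComplexShape.up ℤ) ⥤
    DerivedCategory (Coh (cubic f hf)) :=
  (Q1 (cubic f hf)).mapHomotopyCategory (ComplexShape.up ℤ) ⋙ Qh ⋙
    (sheaf (cubic f hf)).mapDerivedCategory

instance : (psi0 hf).CommShift ℤ := by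
  unfold psi0; infer_instance

instance : (psi0 hf).IsTriangulated := by
  unfold psi0; infer_instance

instance : (psi0 hf).Linear ℂ := by
  unfold psi0; infer_instance

variable {hf}

/-- `psi0 P_E ≅ sheaf N_E`. -/
def psi0Iso (E : MF f) : (psi0 hf).obj ((HomotopyCategory.quotient _ _).obj (PE hf E)) ≅
    (sheaf (cubic f hf)).mapDerivedCategory.obj (Q.obj (NE hf E)) :=
  (sheaf (cubic f hf)).mapDerivedCategory.mapIso ((quotientCompQhIso _).app (NE hf E))

lemma psi0_bijective_PE (hf0 : f ≠ 0) (hc : f.coeff (Finsupp.single 5 3) ≠ 0) (E F : MF f) :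
    Function.Bijective (fun φ : (HomotopyCategory.quotient _ _).obj (PE hf E) ⟶
      (HomotopyCategory.quotient _ _).obj (PE hf F) => (psi0 hf).map φ) := by
  have h1 := Q1_map_bijective (hf := hf) hf0 E F
  have hK := NE_isKProjective hf E
  have h2 := CochainComplex.IsKProjective.Qh_map_bijective (NE hf E)
    ((HomotopyCategory.quotient _ _).obj (NE hf F))
  have h3 := bijective_of_isos (sheaf (cubic f hf)).mapDerivedCategory
    ((quotientCompQhIso _).app (NE hf E)).symm ((quotientCompQhIso _).app (NE hf F)).symm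
    (sheaf_map_bijective hf hf0 hc E F)
  exact h3.comp (h2.comp h1)

lemma psi0_bijective (hf0 : f ≠ 0) (hc : f.coeff (Finsupp.single 5 3) ≠ 0)
    {L L' : HomotopyCategory (Gr (cubic f hf)) (ComplexShape.up ℤ)} (hL : kProp hf L)
    (hL' : kProp hf L') : Function.Bijective (fun φ : L ⟶ L' => (psi0 hf).map φ) := by
  obtain ⟨E, ⟨e⟩⟩ := hL
  obtain ⟨F, ⟨e'⟩⟩ := hL'
  exact bijective_of_isos _ e.symm e'.symm (psi0_bijective_PE hf0 hc E F)

lemma psi0_bounded (hf0 : f ≠ 0)
    {L : HomotopyCategory (Gr (cubic f hf)) (ComplexShape.up ℤ)} (hL : kProp hf L) :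
    TStructure.t.bounded ((psi0 hf).obj L) := by
  obtain ⟨E, ⟨e⟩⟩ := hL
  exact TStructure.t.bounded.prop_of_iso ((psi0 hf).mapIso e ≪≫ psi0Iso E).symm
    (bounded_mapDerivedCategory _ (NE_bounded hf hf0 E))

lemma psi0_hom_zero (hf0 : f ≠ 0) (hc : f.coeff (Finsupp.single 5 3) ≠ 0)
    {L : HomotopyCategory (Gr (cubic f hf)) (ComplexShape.up ℤ)} (hL : kProp hf L)
    (i : ℤ) (h0 : 0 ≤ i) (h2 : i ≤ 2) (n : ℤ)
    (φ : (singleFunctor (Coh (cubic f hf)) 0).obj (O _ i) ⟶ ((psi0 hf).obj L)⟦n⟧) : φ = 0 := by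
  obtain ⟨E, ⟨e⟩⟩ := hL
  have h := O_hom_zero hf hf0 hc i h0 h2 E n (φ ≫ (((psi0 hf).mapIso e ≪≫ psi0Iso E).hom)⟦n⟧')
  rwa [← cancel_mono ((((psi0 hf).mapIso e ≪≫ psi0Iso E).hom)⟦n⟧'), zero_comp]

/-- The functor to the bounded derived category. -/
def psiB (hf : f.IsHomogeneous 3) (hf0 : f ≠ 0) : KK hf ⥤ Db (cubic f hf) :=
  ObjectProperty.lift _ ((kProp hf).ι ⋙ psi0 hf) (fun L => psi0_bounded hf0 L.property)

/-- The functor to the Kuznetsov component. -/
lemma psiB_mem (hf : f.IsHomogeneous 3) (hf0 : f ≠ 0) (hc : f.coeff (Finsupp.single 5 3) ≠ 0)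
    (L : KK hf) : kuProp f hf ((psiB hf hf0).obj L) := by
  intro i h0 h2 n φ
  have h := psi0_hom_zero hf0 hc L.property i h0 h2 n
    ((Bounded.ι (C := Coh (cubic f hf))).map φ ≫
      ((Bounded.ι (C := Coh (cubic f hf))).commShiftIso n).hom.app ((psiB hf hf0).obj L))
  have h' : (Bounded.ι (C := Coh (cubic f hf))).map φ = 0 := by
    rw [← cancel_mono (((Bounded.ι (C := Coh (cubic f hf))).commShiftIso n).hom.app
      ((psiB hf hf0).obj L)), zero_comp]
    exact h
  exact (Bounded.ι (C := Coh (cubic f hf))).map_injective (h'.trans (Functor.map_zero _ _ _).symm)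

def psi (hf : f.IsHomogeneous 3) (hf0 : f ≠ 0) (hc : f.coeff (Finsupp.single 5 3) ≠ 0) :
    KK hf ⥤ KuComp f hf :=
  ObjectProperty.lift _ (psiB hf hf0) (psiB_mem hf hf0 hc)

section structures

variable [h0 : Fact (f ≠ 0)]

instance (hf0 : f ≠ 0) : (psiB hf hf0).CommShift ℤ := by
  unfold psiB; infer_instance

instance (hf0 : f ≠ 0) : (psiB hf hf0).IsTriangulated := by
  unfold psiB; infer_instance

instance (hf0 : f ≠ 0) (hc : f.coeff (Finsupp.single 5 3) ≠ 0) :
    (psi hf hf0 hc).CommShift ℤ := by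
  unfold psi; infer_instance

instance (hf0 : f ≠ 0) (hc : f.coeff (Finsupp.single 5 3) ≠ 0) :
    (psi hf hf0 hc).IsTriangulated := by
  unfold psi; infer_instance

omit h0 in
lemma psi_full (hf0 : f ≠ 0) (hc : f.coeff (Finsupp.single 5 3) ≠ 0) :
    (psi hf hf0 hc).Full := by
  have h1 : ((kProp hf).ι ⋙ psi0 hf).Full := ⟨fun {L L'} φ => by
    obtain ⟨ψ, hψ⟩ := (psi0_bijective hf0 hc L.property L'.property).2 φ
    obtain ⟨ψ', rfl⟩ := (kProp hf).ι.map_surjective ψ
    exact ⟨ψ', hψ⟩⟩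
  have h2 : (psiB hf hf0).Full := by
    unfold psiB; infer_instance
  unfold psi
  infer_instance

omit h0 in
lemma psi_faithful (hf0 : f ≠ 0) (hc : f.coeff (Finsupp.single 5 3) ≠ 0) :
    (psi hf hf0 hc).Faithful := by
  have h1 : ((kProp hf).ι ⋙ psi0 hf).Faithful := ⟨fun {L L'} φ φ' h =>
    (kProp hf).ι.map_injective ((psi0_bijective hf0 hc L.property L'.property).1 h)⟩
  have h2 : (psiB hf hf0).Faithful := by
    unfold psiB; infer_instance
  unfold psi
  infer_instance

instance (hf0 : f ≠ 0) : (psiB hf hf0).Linear ℂ where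
  map_smul {L L'} φ r := by
    apply ObjectProperty.hom_ext
    exact ((kProp hf).ι ⋙ psi0 hf).map_smul r φ

instance (hf0 : f ≠ 0) (hc : f.coeff (Finsupp.single 5 3) ≠ 0) :
    (psi hf hf0 hc).Linear ℂ where
  map_smul {L L'} φ r := by
    apply ObjectProperty.hom_ext
    exact (psiB hf hf0).map_smul r φ

end structures

end H24.Ku
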