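import Pool.Agent.H24.Ku.S.OMul
import Pool.Agent.H24.Ku.Twist

/-!
# The derived category of `Gr X` and `Ext` groups
-/

open CategoryTheory CategoryTheory.Limits

noncomputable section

namespace H24.Ku

instance (X : ProjData) : HasDerivedCategory (Gr X) := HasDerivedCategory.standard _

instance (X : ProjData) : HasExt.{1} (Gr X) := hasExt_of_hasDerivedCategory _

end H24.Ku
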