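import Pool.Agent.H24.Ku.Free
import Pool.Agent.H24.Ku.Ev

/-!
# Graded submodules and quotients; the truncations `M_{≥ l}` and `M / (A M_{≤ 0})`

* `GrSub M` : graded submodules; `GrSub.sub`, `GrSub.quo`, `GrSub.ses` the short exact sequence;
* `geF X l : Gr X ⥤ Gr X`, `M ↦ M_{≥ l}`, exact; `geι X l : geF X l ⟶ 𝟭`; `ltG l M` the quotient;
* `Q1 X : Gr X ⥤ Gr X`, `M ↦ M / (submodule generated by the degrees ≤ 0)`; `Q1π X : 𝟭 ⟶ Q1 X`.
-/

open CategoryTheory CategoryTheory.Limits MvPolynomial

set_option backward.isDefEq.respectTransparency false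

noncomputable section

namespace H24.Ku

variable {X : ProjData}

/-- Graded submodules. -/
structure GrSub (M : Gr X) where
  /-- the subspaces -/
  S : ∀ n : Deg X, Submodule ℂ (M.obj.obj n)
  map_mem : ∀ {m n : Deg X} (a : m ⟶ n) (x : M.obj.obj m), x ∈ S m → (M.obj.map a).hom x ∈ S n

namespace GrSub

variable {M N L : Gr X} (S : GrSub M) (S' : GrSub N) (S'' : GrSub L)

/-- The functor of a graded submodule. -/
def subFun : Deg X ⥤ ModuleCat.{0} ℂ where
  obj n := ModuleCat.of ℂ (S.S n)
  map {m n} a := ModuleCat.ofHom ((M.obj.map a).hom.restrict (fun x hx => S.map_mem a x hx))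
  map_id m := by
    ext x
    exact congrArg (fun φ => φ.hom x.1) (M.obj.map_id m)
  map_comp {m n p} a b := by
    ext x
    exact congrArg (fun φ => φ.hom x.1) (M.obj.map_comp a b)

/-- The inclusion of the functor of a graded submodule. -/
def subFunι : S.subFun ⟶ M.obj where
  app n := ModuleCat.ofHom (S.S n).subtype
  naturality _ _ _ := rfl

lemma subFunι_injective (n : Deg X) : Function.Injective (S.subFunι.app n).hom :=
  Subtype.val_injective

/-- The graded submodule as an object of `Gr X`. -/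
def sub : Gr X :=
  ⟨S.subFun, additive_of_injective _ S.subFunι_injective M.property.1,
    linear_of_injective _ S.subFunι_injective M.property.2.1,
    FG.of_mono _ S.subFunι_injective M.property.2.2⟩

/-- The inclusion. -/
def ι : S.sub ⟶ M := ObjectProperty.homMk S.subFunι

lemma ι_apply (n : Deg X) (x : S.S n) : (S.ι.hom.app n).hom x = x.1 := rfl

instance : Mono S.ι := gr_mono_of_injective _ S.subFunι_injective

/-- The functor of a quotient by a graded submodule. -/
def quoFun : Deg X ⥤ ModuleCat.{0} ℂ where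
  obj n := ModuleCat.of ℂ (M.obj.obj n ⧸ S.S n)
  map {m n} a := ModuleCat.ofHom (Submodule.mapQ (S.S m) (S.S n) (M.obj.map a).hom
    (fun x hx => S.map_mem a x hx))
  map_id m := by
    ext x
    exact congrArg (Submodule.mkQ (S.S m)) (congrArg (fun φ => φ.hom x) (M.obj.map_id m))
  map_comp {m n p} a b := by
    ext x
    exact congrArg (Submodule.mkQ (S.S p)) (congrArg (fun φ => φ.hom x) (M.obj.map_comp a b))

/-- The projection to the quotient by a graded submodule. -/
def quoFunπ : M.obj ⟶ S.quoFun where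
  app n := ModuleCat.ofHom (S.S n).mkQ
  naturality _ _ _ := rfl

lemma quoFunπ_surjective (n : Deg X) : Function.Surjective (S.quoFunπ.app n).hom :=
  Submodule.mkQ_surjective _

/-- The quotient by a graded submodule as an object of `Gr X`. -/
def quo : Gr X :=
  ⟨S.quoFun, additive_of_surjective _ S.quoFunπ_surjective M.property.1,
    linear_of_surjective _ S.quoFunπ_surjective M.property.2.1,
    FG.of_epi _ S.quoFunπ_surjective M.property.2.2⟩

/-- The projection. -/
def π : M ⟶ S.quo := ObjectProperty.homMk S.quoFunπ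

lemma π_apply (n : Deg X) (x : M.obj.obj n) : (S.π.hom.app n).hom x = (S.S n).mkQ x := rfl

lemma π_surjective (n : Deg X) : Function.Surjective (S.π.hom.app n).hom :=
  S.quoFunπ_surjective n

lemma π_eq_zero_iff (n : Deg X) (x : M.obj.obj n) : (S.π.hom.app n).hom x = 0 ↔ x ∈ S.S n :=
  Submodule.Quotient.mk_eq_zero _

instance : Epi S.π := gr_epi_of_surjective _ S.quoFunπ_surjective

lemma ι_π : S.ι ≫ S.π = 0 := by
  apply gr_hom_ext
  intro n z
  exact (Submodule.Quotient.mk_eq_zero _).2 z.2

/-- The short exact sequence `0 → sub → M → quo → 0`. -/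
def ses : ShortComplex (Gr X) := ShortComplex.mk S.ι S.π S.ι_π

lemma ses_shortExact : S.ses.ShortExact where
  exact := by
    rw [exact_iff]
    intro m x hx
    exact ⟨⟨x, (S.π_eq_zero_iff m x).1 hx⟩, rfl⟩
  mono_f := inferInstanceAs (Mono S.ι)
  epi_g := inferInstanceAs (Epi S.π)

/-- A morphism is compatible with graded submodules. -/
def Compat (φ : M ⟶ N) : Prop := ∀ (n : Deg X) (x : M.obj.obj n), x ∈ S.S n →
  (φ.hom.app n).hom x ∈ S'.S n

variable {S S' S''}

/-- The induced morphism on graded submodules. -/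
def subMap {φ : M ⟶ N} (h : Compat S S' φ) : S.sub ⟶ S'.sub :=
  ObjectProperty.homMk
    { app n := ModuleCat.ofHom ((φ.hom.app n).hom.restrict (fun x hx => h n x hx))
      naturality m n a := by
        ext x
        exact Subtype.ext (gr_naturality φ a x.1) }

/-- The induced morphism on quotients. -/
def quoMap {φ : M ⟶ N} (h : Compat S S' φ) : S.quo ⟶ S'.quo :=
  ObjectProperty.homMk
    { app n := ModuleCat.ofHom (Submodule.mapQ (S.S n) (S'.S n) (φ.hom.app n).hom
        (fun x hx => h n x hx))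
      naturality m n a := by
        ext x
        obtain ⟨y, rfl⟩ := S.π_surjective m x
        exact congrArg (Submodule.mkQ (S'.S n)) (gr_naturality φ a y) }

lemma subMap_ι {φ : M ⟶ N} (h : Compat S S' φ) : subMap h ≫ S'.ι = S.ι ≫ φ := rfl

lemma π_quoMap {φ : M ⟶ N} (h : Compat S S' φ) : S.π ≫ quoMap h = φ ≫ S'.π := rfl

lemma subMap_id (h : Compat S S (𝟙 M)) : subMap h = 𝟙 S.sub := rfl

lemma subMap_comp {φ : M ⟶ N} {ψ : N ⟶ L} (h : Compat S S' φ) (h' : Compat S' S'' ψ)
    (h'' : Compat S S'' (φ ≫ ψ)) : subMap h'' = subMap h ≫ subMap h' := rfl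

lemma quoMap_id (h : Compat S S (𝟙 M)) : quoMap h = 𝟙 S.quo := by
  rw [← cancel_epi S.π, π_quoMap]; simp

lemma quoMap_comp {φ : M ⟶ N} {ψ : N ⟶ L} (h : Compat S S' φ) (h' : Compat S' S'' ψ)
    (h'' : Compat S S'' (φ ≫ ψ)) : quoMap h'' = quoMap h ≫ quoMap h' := by
  rw [← cancel_epi S.π, π_quoMap, ← Category.assoc, π_quoMap h, Category.assoc]
  rw [Category.assoc, ← π_quoMap h']

/-- Morphisms from a quotient. -/
lemma exists_desc (φ : M ⟶ N) (h : ∀ (n : Deg X) (x : M.obj.obj n), x ∈ S.S n →
    (φ.hom.app n).hom x = 0) : ∃ ψ : S.quo ⟶ N, S.π ≫ ψ = φ := by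
  refine ⟨ObjectProperty.homMk
    { app n := ModuleCat.ofHom (Submodule.liftQ (S.S n) (φ.hom.app n).hom
        (fun x hx => h n x hx))
      naturality m n a := by
        ext x
        obtain ⟨y, rfl⟩ := S.π_surjective m x
        exact gr_naturality φ a y }, rfl⟩

end GrSub

/-- A morphism of `Deg X` of negative degree is zero. -/
lemma deg_hom_eq_zero {m n : Deg X} (a : m ⟶ n) (h : n.deg < m.deg) : a = 0 := by
  obtain ⟨p, hp, rfl⟩ := Deg.exists_ofPol a
  have hp0 : p = 0 := by
    by_contra hp0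
    obtain ⟨s, hs⟩ := MvPolynomial.support_nonempty.2 hp0
    have := hp s hs
    omega
  subst hp0
  exact Subtype.ext (map_zero _)

/-- The graded submodule `M_{≥ l}`. -/
def geSub (l : ℤ) (M : Gr X) : GrSub M where
  S n := if l ≤ n.deg then ⊤ else ⊥
  map_mem {m n} a x hx := by
    by_cases hn : l ≤ n.deg
    · rw [if_pos hn]; trivial
    · by_cases hm : l ≤ m.deg
      · rw [deg_hom_eq_zero a (by omega), M.obj.map_zero]
        exact Submodule.zero_mem _
      · rw [if_neg hm, Submodule.mem_bot] at hx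
        rw [hx, map_zero]
        exact Submodule.zero_mem _

lemma geSub_of_le {l : ℤ} {M : Gr X} {n : Deg X} (h : l ≤ n.deg) : (geSub l M).S n = ⊤ :=
  if_pos h

lemma geSub_of_lt {l : ℤ} {M : Gr X} {n : Deg X} (h : n.deg < l) : (geSub l M).S n = ⊥ :=
  if_neg (by omega)

lemma geSub_compat (l : ℤ) {M N : Gr X} (φ : M ⟶ N) : (geSub l M).Compat (geSub l N) φ := by
  intro n x hx
  by_cases hn : l ≤ n.deg
  · rw [geSub_of_le hn]; trivial
  · rw [geSub_of_lt (by omega), Submodule.mem_bot] at hx
    rw [hx, map_zero]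
    exact Submodule.zero_mem _

variable (X)

/-- The functor `M ↦ M_{≥ l}`. -/
def geF (l : ℤ) : Gr X ⥤ Gr X where
  obj M := (geSub l M).sub
  map φ := GrSub.subMap (geSub_compat l φ)

/-- The inclusion `M_{≥ l} ⟶ M`. -/
def geι (l : ℤ) : geF X l ⟶ 𝟭 (Gr X) where
  app M := (geSub l M).ι

instance (l : ℤ) : (geF X l).Additive where

instance (l : ℤ) : (geF X l).Linear ℂ where

instance (l : ℤ) (M : Gr X) : Mono ((geι X l).app M) := inferInstanceAs (Mono (geSub l M).ι)

/-- `M_{< l} = M / M_{≥ l}`. -/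
def ltG (l : ℤ) (M : Gr X) : Gr X := (geSub l M).quo

variable {X}

lemma geF_subsingleton {l : ℤ} (M : Gr X) {n : Deg X} (h : n.deg < l) :
    Subsingleton (((geF X l).obj M).obj.obj n) := by
  change Subsingleton ((geSub l M).S n)
  rw [geSub_of_lt h]
  infer_instance

lemma ltG_subsingleton {l : ℤ} (M : Gr X) {n : Deg X} (h : l ≤ n.deg) :
    Subsingleton ((ltG X l M).obj.obj n) := by
  change Subsingleton (M.obj.obj n ⧸ (geSub l M).S n)
  rw [geSub_of_le h]
  infer_instance

lemma geι_bijective {l : ℤ} (M : Gr X) {n : Deg X} (h : l ≤ n.deg) :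
    Function.Bijective ((((geι X l).app M).hom).app n).hom := by
  refine ⟨Subtype.val_injective, fun x => ⟨⟨x, ?_⟩, rfl⟩⟩
  rw [geSub_of_le h]; trivial

lemma geF_map_exact (l : ℤ) (S : ShortComplex (Gr X)) (hS : S.Exact) :
    (S.map (geF X l)).Exact := by
  rw [exact_iff] at hS ⊢
  intro m x hx
  by_cases hm : l ≤ m.deg
  · obtain ⟨y, hy⟩ := hS m x.1 (congrArg Subtype.val hx)
    refine ⟨⟨y, ?_⟩, Subtype.ext hy⟩
    rw [geSub_of_le hm]; trivial
  · have : Subsingleton ((S.map (geF X l)).X₂.obj.obj m) :=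
      geF_subsingleton S.X₂ (n := m) (l := l) (by omega)
    exact ⟨0, Subsingleton.elim _ _⟩

lemma geF_preserves (l : ℤ) :
    PreservesFiniteLimits (geF X l) ∧ PreservesFiniteColimits (geF X l) := by
  have h := (geF X l).exact_tfae.out 1 3
  exact h.1 (geF_map_exact l)

instance (l : ℤ) : PreservesFiniteLimits (geF X l) := (geF_preserves l).1

instance (l : ℤ) : PreservesFiniteColimits (geF X l) := (geF_preserves l).2

/-- The graded submodule of `M` generated by the elements of degree `≤ 0`. -/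
def lowSub (M : Gr X) : GrSub M where
  S n := Submodule.span ℂ {y | ∃ (m : Deg X) (_ : m.deg ≤ 0) (a : m ⟶ n) (x : M.obj.obj m),
    y = (M.obj.map a).hom x}
  map_mem {m n} a x hx := by
    induction hx using Submodule.span_induction with
    | mem x h =>
      obtain ⟨m', hm', b, z, rfl⟩ := h
      refine Submodule.subset_span ⟨m', hm', b ≫ a, z, ?_⟩
      rw [M.obj.map_comp]; rfl
    | zero => rw [map_zero]; exact Submodule.zero_mem _
    | add x y _ _ hx hy => rw [map_add]; exact Submodule.add_mem _ hx hy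
    | smul c x _ hx => rw [map_smul]; exact Submodule.smul_mem _ c hx

lemma lowSub_compat {M N : Gr X} (φ : M ⟶ N) : (lowSub M).Compat (lowSub N) φ := by
  intro n x hx
  induction hx using Submodule.span_induction with
  | mem x h =>
    obtain ⟨m', hm', b, z, rfl⟩ := h
    exact Submodule.subset_span ⟨m', hm', b, (φ.hom.app m').hom z, gr_naturality φ b z⟩
  | zero => rw [map_zero]; exact Submodule.zero_mem _
  | add x y _ _ hx hy => rw [map_add]; exact Submodule.add_mem _ hx hy
  | smul c x _ hx => rw [map_smul]; exact Submodule.smul_mem _ c hx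

variable (X)

/-- The functor `M ↦ M / (A M_{≤ 0})`. -/
def Q1 : Gr X ⥤ Gr X where
  obj M := (lowSub M).quo
  map φ := GrSub.quoMap (lowSub_compat φ)
  map_id _ := GrSub.quoMap_id _
  map_comp φ ψ := GrSub.quoMap_comp (lowSub_compat φ) (lowSub_compat ψ) _

/-- The projection `M ⟶ M / (A M_{≤ 0})`. -/
def Q1π : 𝟭 (Gr X) ⟶ Q1 X where
  app M := (lowSub M).π

instance : (Q1 X).Additive where
  map_add {M N φ ψ} := by
    rw [← cancel_epi (lowSub M).π]
    rfl

instance : (Q1 X).Linear ℂ where
  map_smul {M N} φ c := by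
    rw [← cancel_epi (lowSub M).π]
    rfl

instance (M : Gr X) : Epi ((Q1π X).app M) := inferInstanceAs (Epi (lowSub M).π)

variable {X}

lemma Q1_subsingleton (M : Gr X) {n : Deg X} (h : n.deg ≤ 0) :
    Subsingleton (((Q1 X).obj M).obj.obj n) := by
  change Subsingleton (M.obj.obj n ⧸ (lowSub M).S n)
  have : (lowSub M).S n = ⊤ := by
    rw [eq_top_iff]
    intro x _
    exact Submodule.subset_span ⟨n, h, 𝟙 n, x, by rw [M.obj.map_id]; rfl⟩
  rw [this]
  infer_instance

/-- `Q1` is left adjoint to the inclusion of the modules which are zero in degrees `≤ 0`. -/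
lemma Q1_exists_desc {M N : Gr X} (hN : ∀ n : Deg X, n.deg ≤ 0 → Subsingleton (N.obj.obj n))
    (φ : M ⟶ N) : ∃ ψ : (Q1 X).obj M ⟶ N, (Q1π X).app M ≫ ψ = φ := by
  refine GrSub.exists_desc φ fun n x hx => ?_
  induction hx using Submodule.span_induction with
  | mem x h =>
    obtain ⟨m', hm', b, z, rfl⟩ := h
    have := hN m' hm'
    rw [gr_naturality, Subsingleton.elim ((φ.hom.app m').hom z) 0, map_zero]
  | zero => rw [map_zero]
  | add x y _ _ hx hy => rw [map_add, hx, hy, add_zero]
  | smul c x _ hx => rw [map_smul, hx, smul_zero]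

end H24.Ku
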