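import Pool.Agent.H27.Orl.Reg
import Pool.Agent.H27.Orl.Trunc
import Pool.Agent.H27.Orl.GrD

/-!
# KUD-13 Bs: the graded modules `A(n)/(x_j, j ∈ s)` and the exact sequences of the multiplications

`Bs hf s n = A(n)/(x_j, j ∈ s)`, in degree `m` it is `A_{m+n}/J_s`.

`twist_Bs_iso`: `(twist 1) (Bs s n)` in degree `m` is `(Bs s n)_{m+1} = A_{m+1+n}/J`; as `twistFree`.
`exists_bs_ses`: `p` is induced by the identity of `A_{m+1+n}` (`J_s ⊆ J_{insert i s}`);
exactness degreewise (`exact_iff`, `mono_iff_injective`, `epi_iff_surjective`): injective is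
`reg_A`; `J_{insert i s} = J_s + x_i A` (`Ideal.span_insert`), and for a homogeneous element
`a = b + x_i c` of degree `d` with `b ∈ J_s` one may take `c` homogeneous of degree `d - 1`
(projection to the homogeneous part: `J_s` is homogeneous; or take homogeneous parts of the
polynomials with `cp`, `FGClosure.lean`).
`Bs_empty_iso`: the submodule is zero.
`Bs_zero_of_le`: `Js_full_top`.
-/

open CategoryTheory CategoryTheory.Limits MvPolynomial KuMF

set_option backward.isDefEq.respectTransparency false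

noncomputable section

namespace H24.Ku

variable {f : Pol 5} (hf : f.IsHomogeneous 3)

/-- The graded submodule `J_s(n)` of `A(n)`. -/
def bsSub (s : Finset (Fin 6)) (n : ℤ) : GrSub (free (cubic f hf) n) where
  S m :=
    { carrier := {a : ((⟨-n⟩ : Deg (cubic f hf)) ⟶ m) | a.1 ∈ Js hf s}
      zero_mem' := (Js hf s).zero_mem
      add_mem' := fun {a b} ha hb => (Js hf s).add_mem ha hb
      smul_mem' := fun c (a : (⟨-n⟩ : Deg (cubic f hf)) ⟶ m) ha => by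
        have h : (c • a.1 : (cubic f hf).A) = algebraMap ℂ _ c * a.1 := Algebra.smul_def c a.1
        change (c • a.1 : (cubic f hf).A) ∈ Js hf s
        rw [h]
        exact (Js hf s).mul_mem_left _ ha }
  map_mem a x hx := (Js hf s).mul_mem_right _ hx

/-- The graded module `A(n)/(x_j, j ∈ s)`. -/
def Bs (s : Finset (Fin 6)) (n : ℤ) : Gr (cubic f hf) := (bsSub hf s n).quo

/-- The class of a variable as a homogeneous element of degree `1`. -/
def xh (i : Fin 6) : (cubic f hf).piece 1 := ⟨xc hf i, xc_mem hf i⟩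

lemma Js_mono {s t : Finset (Fin 6)} (h : s ⊆ t) : Js hf s ≤ Js hf t :=
  Ideal.span_mono (Set.image_mono (Finset.coe_subset.2 h))

/-- The identification of the degree `m` parts of `A(n)(1)` and `A(n+1)`. -/
def eBs (n : ℤ) (m : Deg (cubic f hf)) :
    ((⟨-n⟩ : Deg (cubic f hf)) ⟶ ⟨m.deg + 1⟩) ≃ₗ[ℂ] ((⟨-(n + 1)⟩ : Deg (cubic f hf)) ⟶ m) where
  toFun := fun a => (⟨a.1, mem_piece_congr
    (d := (m.deg + 1) - (-n)) (e := m.deg - (-(n + 1))) (by omega) a.2⟩ :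
      (⟨-(n + 1)⟩ : Deg (cubic f hf)) ⟶ m)
  invFun := fun a => (⟨a.1, mem_piece_congr
    (d := m.deg - (-(n + 1))) (e := (m.deg + 1) - (-n)) (by omega) a.2⟩ :
      (⟨-n⟩ : Deg (cubic f hf)) ⟶ ⟨m.deg + 1⟩)
  map_add' := fun _ _ => rfl
  map_smul' := fun _ _ => rfl
  left_inv := fun _ => rfl
  right_inv := fun _ => rfl

/-- The projection `A(n)/(x_j, j ∈ s) (1) ⟶ A(n+1)/(x_j, j ∈ t)` for `s ⊆ t`. -/
def pBs {s t : Finset (Fin 6)} (h : s ⊆ t) (n : ℤ) :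
    (twist (cubic f hf) 1).obj (Bs hf s n) ⟶ Bs hf t (n + 1) :=
  ObjectProperty.homMk
    { app m := ModuleCat.ofHom (Submodule.mapQ ((bsSub hf s n).S ⟨m.deg + 1⟩)
        ((bsSub hf t (n + 1)).S m) (eBs hf n m).toLinearMap (fun x hx => Js_mono hf h hx))
      naturality m m' a := by
        ext x
        obtain ⟨y, rfl⟩ := (bsSub hf s n).π_surjective _ x
        rfl }

lemma pBs_apply {s t : Finset (Fin 6)} (h : s ⊆ t) (n : ℤ) (m : Deg (cubic f hf))
    (x : (⟨-n⟩ : Deg (cubic f hf)) ⟶ ⟨m.deg + 1⟩) :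
    ((pBs hf h n).hom.app m).hom (((bsSub hf s n).π.hom.app ⟨m.deg + 1⟩).hom x) =
      ((bsSub hf t (n + 1)).π.hom.app m).hom (eBs hf n m x) := rfl

lemma pBs_surjective {s t : Finset (Fin 6)} (h : s ⊆ t) (n : ℤ) (m : Deg (cubic f hf)) :
    Function.Surjective ((pBs hf h n).hom.app m).hom := by
  intro y
  obtain ⟨z, rfl⟩ := (bsSub hf t (n + 1)).π_surjective m y
  refine ⟨((bsSub hf s n).π.hom.app ⟨m.deg + 1⟩).hom ((eBs hf n m).symm z), ?_⟩
  rw [pBs_apply, LinearEquiv.apply_symm_apply]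

theorem twist_Bs_iso (s : Finset (Fin 6)) (n : ℤ) :
    Nonempty ((twist (cubic f hf) 1).obj (Bs hf s n) ≅ Bs hf s (n + 1)) := by
  have h : IsIso (pBs hf (Finset.Subset.refl s) n) := by
    rw [isIso_iff_bijective]
    intro m
    refine ⟨?_, pBs_surjective hf _ n m⟩
    rw [injective_iff_map_eq_zero]
    intro y hy
    obtain ⟨z, rfl⟩ := (bsSub hf s n).π_surjective ⟨m.deg + 1⟩ y
    rw [pBs_apply] at hy
    have h1 := ((bsSub hf s (n + 1)).π_eq_zero_iff m _).1 hy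
    exact ((bsSub hf s n).π_eq_zero_iff ⟨m.deg + 1⟩ z).2 h1
  exact ⟨asIso (pBs hf (Finset.Subset.refl s) n)⟩

lemma cp_add_aux {N : ℕ} (d : ℤ) (p q : Pol N) : cp d (p + q) = cp d p + cp d q := by
  ext m
  rw [coeff_add, coeff_cp, coeff_cp, coeff_cp, coeff_add]
  split_ifs
  · rfl
  · rw [add_zero]

lemma cp_mem_Jp (d : ℤ) {s : Finset (Fin 6)} {p : Pol 5} (hp : p ∈ Jp s) : cp d p ∈ Jp s := by
  have h1 := MvPolynomial.mem_ideal_span_X_image.1 hp
  refine MvPolynomial.mem_ideal_span_X_image.2 fun m hm => h1 m ?_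
  rw [MvPolynomial.mem_support_iff] at hm ⊢
  rw [coeff_cp] at hm
  intro h0
  rw [h0, ite_self] at hm
  exact hm rfl

lemma Js_split (s : Finset (Fin 6)) (i : Fin 6) (d : ℤ) (b : (cubic f hf).A)
    (hb : b ∈ (cubic f hf).piece (d + 1)) (hb2 : b ∈ Js hf (insert i s)) :
    ∃ c ∈ (cubic f hf).piece d, b - xc hf i * c ∈ Js hf s := by
  obtain ⟨pb, hpb, rfl⟩ := hb
  change Ideal.Quotient.mk (cubic f hf).I pb ∈ Js hf (insert i s) at hb2
  rw [mk_mem_Js] at hb2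
  obtain ⟨y, hy, r', hr', hyr⟩ := Submodule.mem_sup.1 hb2
  obtain ⟨a, rfl⟩ := Ideal.mem_span_singleton'.1 hy
  rw [Jp, Finset.coe_insert, Set.image_insert_eq, Ideal.span_insert] at hr'
  obtain ⟨c', hc', r, hr, hcr⟩ := Submodule.mem_sup.1 hr'
  obtain ⟨c, rfl⟩ := Ideal.mem_span_singleton'.1 hc'
  have h1 : cp (d + 1) pb = cp (d - 2) a * f + (cp d c * X i + cp (d + 1) r) := by
    rw [← hyr, ← hcr, cp_add_aux, cp_add_aux, cp_mul a (mem_homog_of_isHomogeneous hf),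
      cp_mul c (X_mem_homog i)]
    congr 2
    · congr 1
      push_cast
      ring
    · congr 2
      ring
  rw [cp_eq_self (hpb : pb ∈ homog 5 (d + 1))] at h1
  refine ⟨Ideal.Quotient.mk (cubic f hf).I (cp d c), ⟨cp d c, cp_mem d c, rfl⟩, ?_⟩
  have h2 : Ideal.Quotient.mk (cubic f hf).I pb - xc hf i * Ideal.Quotient.mk (cubic f hf).I (cp d c) =
      Ideal.Quotient.mk (cubic f hf).I (cp (d - 2) a * f + cp (d + 1) r) := by
    rw [xc, ← map_mul, ← map_sub]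
    congr 1
    rw [h1]
    ring
  change Ideal.Quotient.mk (cubic f hf).I pb -
    xc hf i * Ideal.Quotient.mk (cubic f hf).I (cp d c) ∈ Js hf s
  rw [h2, mk_mem_Js]
  exact Submodule.add_mem_sup (Ideal.mul_mem_left _ _ (Ideal.mem_span_singleton_self f))
    (cp_mem_Jp (d + 1) hr)

/-- multiplication by `x_i` on classes -/
lemma mul_pi (s : Finset (Fin 6)) (i : Fin 6) (n : ℤ) (m : Deg (cubic f hf))
    (x : (⟨-n⟩ : Deg (cubic f hf)) ⟶ m) :
    ((((mulMap (cubic f hf) 1 (xh hf i)).app (Bs hf s n)).hom.app m).hom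
      (((bsSub hf s n).π.hom.app m).hom x)) =
      ((bsSub hf s n).π.hom.app ⟨m.deg + 1⟩).hom
        (x ≫ (degMul (cubic f hf) 1 (xh hf i)).app m) := rfl

lemma mulx_val (i : Fin 6) (n : ℤ) (m : Deg (cubic f hf))
    (x : (⟨-n⟩ : Deg (cubic f hf)) ⟶ m) :
    (x ≫ (degMul (cubic f hf) 1 (xh hf i)).app m).1 = xc hf i * x.1 :=
  (comp_val (cubic f hf) x ((degMul (cubic f hf) 1 (xh hf i)).app m)).trans (mul_comm _ _)

lemma exact_aux (s : Finset (Fin 6)) (i : Fin 6) (n : ℤ) (m : Deg (cubic f hf))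
    (x : (⟨-n⟩ : Deg (cubic f hf)) ⟶ ⟨m.deg + 1⟩) (h2 : x.1 ∈ Js hf (insert i s)) :
    ∃ c' : (⟨-n⟩ : Deg (cubic f hf)) ⟶ m,
      ((bsSub hf s n).π.hom.app ⟨m.deg + 1⟩).hom
        (c' ≫ (degMul (cubic f hf) 1 (xh hf i)).app m) =
      ((bsSub hf s n).π.hom.app ⟨m.deg + 1⟩).hom x := by
  have hx : x.1 ∈ (cubic f hf).piece ((m.deg - (-n)) + 1) :=
    mem_piece_congr (d := (m.deg + 1) - (-n)) (by ring) x.2
  obtain ⟨c, hc1, hc2⟩ := Js_split hf s i (m.deg - (-n)) x.1 hx h2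
  let c' : (⟨-n⟩ : Deg (cubic f hf)) ⟶ m := ⟨c, hc1⟩
  let y : (⟨-n⟩ : Deg (cubic f hf)) ⟶ ⟨m.deg + 1⟩ := c' ≫ (degMul (cubic f hf) 1 (xh hf i)).app m
  have h3 : (y - x).1 ∈ Js hf s := by
    have h4 : y.1 = xc hf i * c := mulx_val hf i n m c'
    have h5 : (y - x).1 = y.1 - x.1 := rfl
    rw [h5, h4, ← Ideal.neg_mem_iff, neg_sub]
    exact hc2
  have h5 := ((bsSub hf s n).π_eq_zero_iff ⟨m.deg + 1⟩ (y - x)).2 h3
  refine ⟨c', ?_⟩
  have h6 : ((bsSub hf s n).π.hom.app ⟨m.deg + 1⟩).hom (y - x) =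
      ((bsSub hf s n).π.hom.app ⟨m.deg + 1⟩).hom y -
      ((bsSub hf s n).π.hom.app ⟨m.deg + 1⟩).hom x := map_sub _ _ _
  rw [h6] at h5
  exact sub_eq_zero.1 h5

lemma mono_aux (hc : f.coeff (Finsupp.single 5 3) ≠ 0) (s : Finset (Fin 6)) (hs : 5 ∉ s)
    (i : Fin 6) (hi5 : i ≠ 5) (his : i ∉ s) (n : ℤ) (m : Deg (cubic f hf))
    (x : (⟨-n⟩ : Deg (cubic f hf)) ⟶ m)
    (h1 : ((bsSub hf s n).π.hom.app ⟨m.deg + 1⟩).hom
        (x ≫ (degMul (cubic f hf) 1 (xh hf i)).app m) = 0) :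
    ((bsSub hf s n).π.hom.app m).hom x = 0 := by
  have h2 := ((bsSub hf s n).π_eq_zero_iff _ _).1 h1
  have h3 : (x ≫ (degMul (cubic f hf) 1 (xh hf i)).app m).1 ∈ Js hf s := h2
  rw [mulx_val] at h3
  exact ((bsSub hf s n).π_eq_zero_iff _ _).2 (reg_A hf hc s hs i hi5 his x.1 h3)

lemma comp_zero_aux (s : Finset (Fin 6)) (i : Fin 6) (n : ℤ) (m : Deg (cubic f hf))
    (x : (⟨-n⟩ : Deg (cubic f hf)) ⟶ m) :
    ((bsSub hf (insert i s) (n + 1)).π.hom.app m).hom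
      (eBs hf n m (x ≫ (degMul (cubic f hf) 1 (xh hf i)).app m)) = 0 := by
  refine ((bsSub hf (insert i s) (n + 1)).π_eq_zero_iff m _).2 ?_
  change (x ≫ (degMul (cubic f hf) 1 (xh hf i)).app m).1 ∈ Js hf (insert i s)
  rw [mulx_val]
  exact Ideal.mul_mem_right _ _ (Ideal.subset_span ⟨i, by simp, rfl⟩)

lemma bs_w (s : Finset (Fin 6)) (i : Fin 6) (n : ℤ) :
    (mulMap (cubic f hf) 1 (xh hf i)).app (Bs hf s n) ≫
      pBs hf (Finset.subset_insert i s) n = 0 := by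
  apply gr_hom_ext
  intro m z
  obtain ⟨x, rfl⟩ := (bsSub hf s n).π_surjective m z
  exact comp_zero_aux hf s i n m x

theorem exists_bs_ses (hc : f.coeff (Finsupp.single 5 3) ≠ 0) (s : Finset (Fin 6)) (hs : 5 ∉ s)
    (i : Fin 6) (hi5 : i ≠ 5) (his : i ∉ s) (n : ℤ) :
    ∃ (p : (twist (cubic f hf) 1).obj (Bs hf s n) ⟶ Bs hf (insert i s) (n + 1))
      (w : (mulMap (cubic f hf) 1 (xh hf i)).app (Bs hf s n) ≫ p = 0),
      (ShortComplex.mk ((mulMap (cubic f hf) 1 (xh hf i)).app (Bs hf s n)) p w).ShortExact := by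
  refine ⟨pBs hf (Finset.subset_insert i s) n, bs_w hf s i n, ?_⟩
  have hmono : Mono ((mulMap (cubic f hf) 1 (xh hf i)).app (Bs hf s n)) := by
    refine gr_mono_of_injective _ fun m => ?_
    rw [injective_iff_map_eq_zero]
    intro z hz
    obtain ⟨x, rfl⟩ := (bsSub hf s n).π_surjective m z
    exact mono_aux hf hc s hs i hi5 his n m x hz
  have hepi : Epi (pBs hf (Finset.subset_insert i s) n) :=
    gr_epi_of_surjective _ fun m => pBs_surjective hf _ n m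
  refine { exact := ?_, mono_f := hmono, epi_g := hepi }
  rw [exact_iff]
  intro m z hz
  obtain ⟨x, rfl⟩ := (bsSub hf s n).π_surjective ⟨m.deg + 1⟩ z
  have h1 : ((bsSub hf (insert i s) (n + 1)).π.hom.app m).hom (eBs hf n m x) = 0 := hz
  have h2 : (eBs hf n m x).1 ∈ Js hf (insert i s) :=
    ((bsSub hf (insert i s) (n + 1)).π_eq_zero_iff m _).1 h1
  obtain ⟨c', hc'⟩ := exact_aux hf s i n m x h2
  exact ⟨((bsSub hf s n).π.hom.app m).hom c', hc'⟩

theorem Bs_empty_iso (n : ℤ) : Nonempty (Bs hf ∅ n ≅ free (cubic f hf) n) := by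
  have h : IsIso (bsSub hf ∅ n).π := by
    rw [isIso_iff_bijective]
    intro m
    refine ⟨?_, (bsSub hf ∅ n).π_surjective m⟩
    rw [injective_iff_map_eq_zero]
    intro x hx
    have h1 := ((bsSub hf ∅ n).π_eq_zero_iff m x).1 hx
    have h2 : Js hf ∅ = ⊥ := by
      rw [Js, Finset.coe_empty, Set.image_empty, Ideal.span_empty]
    have h3 : (x : (⟨-n⟩ : Deg (cubic f hf)) ⟶ m).1 ∈ Js hf ∅ := h1
    rw [h2] at h3
    exact Subtype.ext (Ideal.mem_bot.1 h3)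
  exact ⟨(asIso (bsSub hf ∅ n).π).symm⟩

theorem Bs_zero_of_le (hc : f.coeff (Finsupp.single 5 3) ≠ 0) (n : ℤ) (m : Deg (cubic f hf))
    (h : 3 ≤ m.deg + n) : Subsingleton ((Bs hf {0, 1, 2, 3, 4} n).obj.obj m) := by
  refine ⟨fun a b => ?_⟩
  have h1 : ∀ z : (Bs hf {0, 1, 2, 3, 4} n).obj.obj m, z = 0 := by
    intro z
    obtain ⟨x, rfl⟩ := (bsSub hf {0, 1, 2, 3, 4} n).π_surjective m z
    refine ((bsSub hf {0, 1, 2, 3, 4} n).π_eq_zero_iff m x).2 ?_
    exact Js_full_top hf hc (m.deg - (-n)) (by omega) _ (x : (⟨-n⟩ : Deg (cubic f hf)) ⟶ m).2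
  rw [h1 a, h1 b]

end H24.Ku
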