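import Pool.Agent.H24.Ku.S.ExtNat

/-!
# KUD-11 Rees: a form of the lemma of Rees

`F` an exact autoequivalence, `x : 𝟭 ⟶ F`. If `0 → M → F M → M'' → 0` and `0 → N → F N → N'' → 0` are
exact (first maps `x.app`) and all `Ext M N'' n` are zero, then all `Ext M'' (F N) n` are zero.

Proof. (1) `Ext M N n → Ext M (F N) n`, `e ↦ e.comp (mk₀ (x.app N))` is bijective
(`Ext.covariant_sequence_exact₁`, `₂`; for injectivity in degree `0`: `x.app N` is mono).
(2) `Ext (F M) (F N) n → Ext M (F N) n`, `e' ↦ (mk₀ (x.app M)).comp e'` is bijective: every `e'` is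
`e.mapExactFunctor F` for a unique `e` (`mapExt_bijective_of_isEquivalence`, or Mathlib's
`Functor.mapExt_bijective_of_preservesProjectiveObjects`), and by `mapExactFunctor_naturality` for
`x : 𝟭 ⟶ F`: `(mk₀ (x.app M)).comp (e.mapExactFunctor F) = (e.mapExactFunctor (𝟭 C)).comp (mk₀ (x.app N))`,
where `e.mapExactFunctor (𝟭 C) = e` (prove this first: induction on `n` as in `ExtNat.lean` with
`exists_extClass_comp`, or search Mathlib).
(3) Long exact sequence of `0 → M → F M → M'' → 0` with coefficients in `F N`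
(`Ext.contravariant_sequence_exact₁`, `₂`, `₃`): `y ∈ Ext M'' (F N) n`. `n = 0`: its image in
`Ext (F M) (F N) 0` dies in `Ext M (F N) 0`, so it is zero, and `Ext M'' _ 0 → Ext (F M) _ 0` is
injective. `n + 1`: the image in `Ext (F M) (F N) (n+1)` is zero as before, so `y` comes from
`Ext M (F N) n` by the boundary, all of which comes from `Ext (F M) (F N) n`; so `y = 0`.
-/

open CategoryTheory CategoryTheory.Limits CategoryTheory.Abelian

namespace H24.Ku

universe w v u

variable {C : Type u} [Category.{v} C] [Abelian C] [HasExt.{w} C]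

/-- The identity functor acts as the identity on `Ext`. -/
theorem mapExactFunctor_id {A B : C} {n : ℕ} (e : Ext A B n) : e.mapExactFunctor (𝟭 C) = e := by
  induction n generalizing A with
  | zero =>
    obtain ⟨f, rfl⟩ := (Ext.mk₀_bijective A B).2 e
    rw [Ext.mapExactFunctor_mk₀]
    rfl
  | succ n ih =>
    obtain ⟨S, hS, i, e', he⟩ := exists_extClass_comp e
    have h1 : e = (Ext.mk₀ i.inv).comp (hS.extClass.comp e' (add_comm 1 n)) (zero_add (n + 1)) := by
      rw [← he]
      exact extNat_eq_of_iso i e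
    have h2 : hS.extClass.mapExactFunctor (𝟭 C) = hS.extClass := by
      rw [Ext.mapExactFunctor_extClass]
      rfl
    rw [h1, Ext.mapExactFunctor_comp, Ext.mapExactFunctor_comp, Ext.mapExactFunctor_mk₀, h2, ih e']
    rfl

/-- `Ext M N n → Ext M (F N) n` is bijective if `Ext M N''` vanishes. -/
theorem rees_cov {M : C} {S : ShortComplex C} (hS : S.ShortExact)
    (h : ∀ (n : ℕ) (e : Ext M S.X₃ n), e = 0) (n : ℕ) :
    Function.Bijective (fun e : Ext M S.X₁ n => e.comp (Ext.mk₀ S.f) (add_zero n)) := by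
  constructor
  · have hz : ∀ e : Ext M S.X₁ n, e.comp (Ext.mk₀ S.f) (add_zero n) = 0 → e = 0 := by
      intro e he
      cases n with
      | zero =>
        obtain ⟨f, rfl⟩ := (Ext.mk₀_bijective M S.X₁).2 e
        rw [Ext.mk₀_comp_mk₀, Ext.mk₀_eq_zero_iff] at he
        have := hS.mono_f
        rw [Ext.mk₀_eq_zero_iff]
        exact zero_of_comp_mono S.f he
      | succ n =>
        obtain ⟨y, hy⟩ := Ext.covariant_sequence_exact₁ M hS e he rfl
        rw [← hy, h n y, Ext.zero_comp]
    intro a b hab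
    have h1 : (a - b).comp (Ext.mk₀ S.f) (add_zero n) = 0 := by
      rw [sub_eq_add_neg, Ext.add_comp, Ext.neg_comp]
      exact (sub_eq_add_neg _ _).symm.trans (sub_eq_zero.2 hab)
    exact sub_eq_zero.1 (hz _ h1)
  · intro e
    obtain ⟨y, hy⟩ := Ext.covariant_sequence_exact₂ M hS e (h n _)
    exact ⟨y, hy⟩

theorem rees (F : C ⥤ C) [F.Additive] [PreservesFiniteLimits F] [PreservesFiniteColimits F]
    [F.IsEquivalence] (x : 𝟭 C ⟶ F) {M N M'' N'' : C} (p : F.obj M ⟶ M'') (q : F.obj N ⟶ N'')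
    (hp : x.app M ≫ p = 0) (hq : x.app N ≫ q = 0)
    (hM : (ShortComplex.mk (x.app M) p hp).ShortExact)
    (hN : (ShortComplex.mk (x.app N) q hq).ShortExact)
    (h : ∀ (n : ℕ) (e : Ext M N'' n), e = 0) (n : ℕ) (e : Ext M'' (F.obj N) n) : e = 0 := by
  have hbij : ∀ k : ℕ, Function.Bijective (fun e' : Ext (F.obj M) (F.obj N) k =>
      ((Ext.mk₀ (x.app M)).comp e' (zero_add k) : Ext M (F.obj N) k)) := by
    intro k
    have h1 := mapExt_bijective_of_isEquivalence F M N k
    have h2 : Function.Bijective (fun e : Ext M N k =>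
        (e.comp (Ext.mk₀ (x.app N)) (add_zero k) : Ext M (F.obj N) k)) := rees_cov hN h k
    have h3 : (fun e' : Ext (F.obj M) (F.obj N) k =>
        ((Ext.mk₀ (x.app M)).comp e' (zero_add k) : Ext M (F.obj N) k)) ∘
        (fun e : Ext M N k => e.mapExactFunctor F) =
        (fun e : Ext M N k => (e.comp (Ext.mk₀ (x.app N)) (add_zero k) : Ext M (F.obj N) k)) := by
      funext e
      have h4 := mapExactFunctor_naturality (𝟭 C) F x e
      rw [mapExactFunctor_id] at h4
      exact h4
    rw [← h3] at h2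
    exact (Function.Bijective.of_comp_iff _ h1).1 h2
  -- the image of `e` in `Ext (F M) (F N)` is zero
  have h0 : (Ext.mk₀ p).comp e (zero_add n) = 0 := by
    apply (hbij n).1
    simp only
    rw [Ext.mk₀_comp_mk₀_assoc, hp, Ext.mk₀_zero, Ext.zero_comp, Ext.comp_zero]
  cases n with
  | zero =>
    obtain ⟨f, rfl⟩ := (Ext.mk₀_bijective M'' (F.obj N)).2 e
    rw [Ext.mk₀_comp_mk₀, Ext.mk₀_eq_zero_iff] at h0
    have : Epi p := hM.epi_g
    rw [Ext.mk₀_eq_zero_iff]
    exact zero_of_epi_comp p h0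
  | succ n =>
    obtain ⟨y, hy⟩ := Ext.contravariant_sequence_exact₃ hM (F.obj N) e h0 (add_comm 1 n)
    obtain ⟨z, hz⟩ := (hbij n).2 y
    simp only at hz
    rw [← hy, ← hz]
    exact hM.extClass_comp_assoc z

end H24.Ku
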