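import Pool.Agent.H27.Orl.Bs
import Pool.Agent.H27.Orl.Rees

/-!
# KUD-14 BsExt: `Ext (A(N)/(x_0, …, x_4), A(L)) = 0` for `N ≤ L + 2`

`step`: `i ∉ s`, `i ∉ t`, `i ≠ 5`, `5 ∉ s`, `5 ∉ t`: if all `Ext (Bs s N) (Bs (insert i t) (L + 1)) k` are
zero then all `Ext (Bs (insert i s) (N + 1)) (Bs t (L + 1)) k` are zero: `rees` for
`F = twist 1`, `x = mulMap 1 (xh i)`, `M = Bs s N`, `N = Bs t L`, the sequences `exists_bs_ses`, and
`twist_Bs_iso` for `F.obj (Bs t L) ≅ Bs t (L + 1)`. (`twist` preserves finite limits and colimits as an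
equivalence.) Apply it five times (`i = 0, 1, 2, 3, 4`; the right side `t` goes from `∅` to
`{0,1,2,3,4}`): it remains `Ext (Bs ∅ (N - 5)) (Bs {0,1,2,3,4} L) k = 0`: `Bs ∅ (N-5) ≅ free (N - 5)`
(`Bs_empty_iso`) is projective (`k ≥ 1`: `Ext.eq_zero_of_projective`), and `k = 0`: a morphism
`free (N-5) ⟶ Bs full L` is an element of degree `-(N - 5)` (`freeEquiv`), which is zero by
`Bs_zero_of_le` since `-(N-5) + L ≥ 3`. Finally `Bs ∅ L ≅ free L`.
-/

open CategoryTheory CategoryTheory.Limits MvPolynomial KuMF CategoryTheory.Abelian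

set_option backward.isDefEq.respectTransparency false

noncomputable section

namespace H24.Ku

variable {f : Pol 5} (hf : f.IsHomogeneous 3)

private theorem bsExt_step (hc : f.coeff (Finsupp.single 5 3) ≠ 0) {s t : Finset (Fin 6)}
    (i : Fin 6) (hi5 : i ≠ 5) (hs5 : 5 ∉ s) (ht5 : 5 ∉ t) (his : i ∉ s) (hit : i ∉ t)
    (N L : ℤ) (h : ∀ (k : ℕ) (e : Ext (Bs hf s N) (Bs hf (insert i t) L) k), e = 0) (k : ℕ)
    (e : Ext (Bs hf (insert i s) (N + 1)) (Bs hf t L) k) : e = 0 := by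
  obtain ⟨L', rfl⟩ : ∃ L', L = L' + 1 := ⟨L - 1, by ring⟩
  obtain ⟨p, w, hp⟩ := exists_bs_ses hf hc s hs5 i hi5 his N
  obtain ⟨q, w', hq⟩ := exists_bs_ses hf hc t ht5 i hi5 hit L'
  obtain ⟨φ⟩ := twist_Bs_iso hf t L'
  have h1 := rees (twist (cubic f hf) 1) (mulMap (cubic f hf) 1 (xh hf i)) p q w w' hp hq h k
    (e.comp (Ext.mk₀ φ.inv) (add_zero k))
  have h2 : e = (e.comp (Ext.mk₀ φ.inv) (add_zero k)).comp (Ext.mk₀ φ.hom) (add_zero k) := by
    rw [Ext.comp_assoc_of_third_deg_zero, Ext.mk₀_comp_mk₀, φ.inv_hom_id, Ext.comp_mk₀_id]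
  rw [h2, h1, Ext.zero_comp]

private theorem bsExt_base (hc : f.coeff (Finsupp.single 5 3) ≠ 0) (N L : ℤ) (h : N + 3 ≤ L)
    (k : ℕ) (e : Ext (Bs hf ∅ N) (Bs hf {0, 1, 2, 3, 4} L) k) : e = 0 := by
  obtain ⟨φ⟩ := Bs_empty_iso hf N
  have hproj : Projective (Bs hf ∅ N) := Projective.of_iso φ.symm inferInstance
  rcases k with _ | k
  · obtain ⟨g, rfl⟩ := (Ext.mk₀_bijective _ _).2 e
    have h1 : φ.inv ≫ g = 0 := by
      apply (freeEquiv N (Bs hf {0, 1, 2, 3, 4} L)).injective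
      have := Bs_zero_of_le hf hc L ⟨-N⟩ (by change 3 ≤ -N + L; omega)
      exact Subsingleton.elim _ _
    have h2 : g = 0 := by
      rw [← cancel_epi φ.inv, h1, comp_zero]
    rw [h2, Ext.mk₀_zero]
  · exact Ext.eq_zero_of_projective e

theorem bs_ext (hc : f.coeff (Finsupp.single 5 3) ≠ 0) (N L : ℤ) (h : N ≤ L + 2) (k : ℕ)
    (e : Ext (Bs hf {0, 1, 2, 3, 4} N) (free (cubic f hf) L) k) : e = 0 := by
  have s0 := bsExt_base hf hc (N - 5) L (by omega)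
  have s1 := bsExt_step hf hc (s := ∅) (t := {1, 2, 3, 4}) 0 (by decide) (by decide) (by decide)
    (by decide) (by decide) (N - 5) L s0
  have s2 := bsExt_step hf hc (s := {0}) (t := {2, 3, 4}) 1 (by decide) (by decide) (by decide)
    (by decide) (by decide) (N - 5 + 1) L s1
  have s3 := bsExt_step hf hc (s := {1, 0}) (t := {3, 4}) 2 (by decide) (by decide) (by decide)
    (by decide) (by decide) (N - 5 + 1 + 1) L s2
  have s4 := bsExt_step hf hc (s := {2, 1, 0}) (t := {4}) 3 (by decide) (by decide) (by decide)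
    (by decide) (by decide) (N - 5 + 1 + 1 + 1) L s3
  have s5 := bsExt_step hf hc (s := {3, 2, 1, 0}) (t := ∅) 4 (by decide) (by decide) (by decide)
    (by decide) (by decide) (N - 5 + 1 + 1 + 1 + 1) L s4
  have hs : (insert 4 {3, 2, 1, 0} : Finset (Fin 6)) = {0, 1, 2, 3, 4} := by decide
  have hN : N - 5 + 1 + 1 + 1 + 1 + 1 = N := by ring
  rw [hs, hN] at s5
  obtain ⟨φ⟩ := Bs_empty_iso hf L
  have h1 := s5 k (e.comp (Ext.mk₀ φ.inv) (add_zero k))
  have h2 : e = (e.comp (Ext.mk₀ φ.inv) (add_zero k)).comp (Ext.mk₀ φ.hom) (add_zero k) := by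
    rw [Ext.comp_assoc_of_third_deg_zero, Ext.mk₀_comp_mk₀, φ.inv_hom_id, Ext.comp_mk₀_id]
  rw [h2, h1, Ext.zero_comp]

end H24.Ku
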