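import Pool.Agent.H27.Orl.Phi

/-!
# KUD-5 Cone: the mapping cone of `phi0 α` is the complex of the matrix factorization `coneMF α`

`coneMF α` : basis `E.ι ⊕ F.ι`, weights `w_E - 3`, `w_F`, matrix `[[-Q_E, 0], [α, Q_F]]`.
`(PE (coneMF α))^n = FrG (E.w - 3, F.w) (3 n) = FrG E.w (3 (n+1)) ⊕ FrG F.w (3 n)`.

Proof of `nonempty_cone_iso`. Let `C = PE hf (coneMF α hα)`. In each degree the morphisms
`i1 n : (PE E)^(n+1) ⟶ C^n`, `i2 n : (PE F)^n ⟶ C^n`, `p1 n`, `p2 n` given by `mg` of the matrices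
`Matrix.fromRows 1 0`, `Matrix.fromRows 0 1`, `Matrix.fromCols 1 0`, `Matrix.fromCols 0 1` (all
compositions by `mg_comp` and `mg_one`, `mg_congr`). The morphism of complexes
`mappingCone (phi0 α) ⟶ C` is `CochainComplex.mappingCone.desc (phi0 α) A B h`, with
`A : Cochain (PE E) C (-1)` given by `i1` (`Cochain.mk`) and `B : PE F ⟶ C` with `B.f n = i2 n`
(`B = phi0 (Matrix.fromRows 0 1)`), `δ (-1) 0 A = Cochain.ofHom (phi0 α ≫ B)`: in degree `n`:
`i1 (n-1) ≫ d_C + d ≫ i1 n = phi0 α ≫ i2 n` (up to the signs of `δ`), from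
`[[-Q, 0], [α, Q]] * [1; 0] = [-Q; α]`. It is an isomorphism because every component is:
`inl ≫ desc = i1`, `inr ≫ desc = i2` in each degree, the inverse is `p1 ≫ inl + p2 ≫ inr`
(`mappingCone.ext_from`, `mappingCone.inl_v_desc_f`, `mappingCone.inr_f_desc_f`; or
`HomologicalComplex.Hom.isIso_of_components`, `mappingCone.id_X`). (A different construction of the
isomorphism is fine.)
-/

open CategoryTheory CategoryTheory.Limits MvPolynomial KuMF

set_option backward.isDefEq.respectTransparency false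

noncomputable section

namespace H24.Ku

variable {f : Pol 5} {hf : f.IsHomogeneous 3}

/-- The cone of a cocycle of weight `0`. -/
abbrev coneMF {E F : MF f} (α : Matrix F.ι E.ι (Pol 5)) (hα : α ∈ MF.Z E F 0) : MF f where
  ι := E.ι ⊕ F.ι
  w := Sum.elim (fun i => E.w i - 3) F.w
  Q := Matrix.fromBlocks (-E.Q) 0 α F.Q
  hQ := by
    rintro (i | i) (j | j)
    · rw [Matrix.fromBlocks_apply₁₁]; exact (E.hQ i j).neg.of_eq (by simp)
    · rw [Matrix.fromBlocks_apply₁₂]; exact Hg.zero _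
    · rw [Matrix.fromBlocks_apply₂₁]; exact (hα.1 i j).of_eq (by simp; ring)
    · rw [Matrix.fromBlocks_apply₂₂]; exact (F.hQ i j).of_eq (by simp)
  sq := by
    rw [Matrix.fromBlocks_multiply, ← Matrix.fromBlocks_one, Matrix.fromBlocks_smul,
      comm_of_mem_Z hα]
    simp [E.sq, F.sq]

lemma mg_add_aux {ι κ : Type} [Fintype ι] [Fintype κ] [DecidableEq ι] {w : ι → ℤ} {w' : κ → ℤ}
    {q q' : ℤ} (T T' : Matrix κ ι (Pol 5)) (hT : ∀ k i, Hg (T k i) (w i - w' k + (q' - q)))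
    (hT' : ∀ k i, Hg (T' k i) (w i - w' k + (q' - q)))
    (hTT : ∀ k i, Hg ((T + T') k i) (w i - w' k + (q' - q))) :
    mg hf w w' q q' (T + T') hTT = mg hf w w' q q' T hT + mg hf w w' q q' T' hT' := by
  refine Eq.trans ?_ (matG_add _ _ _ _)
  exact matG_congr (fun k i _ => congrFun (congrFun (red_add T T') k) i)

section

variable {E F : MF f} (α : Matrix F.ι E.ι (Pol 5)) (hα : α ∈ MF.Z E F 0)

lemma hg_r1 (p q : ℤ) (hpq : p + (-1) = q) (k : E.ι ⊕ F.ι) (i : E.ι) :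
    Hg ((Matrix.fromRows (1 : Matrix E.ι E.ι (Pol 5)) (0 : Matrix F.ι E.ι (Pol 5))) k i)
      (E.w i - (coneMF α hα).w k + (3 * q - 3 * p)) := by
  rcases k with k | k
  · rw [Matrix.fromRows_apply_inl]
    refine (one_hg E.w k i).of_eq ?_
    change _ = E.w i - (E.w k - 3) + (3 * q - 3 * p)
    rw [← hpq]; ring
  · rw [Matrix.fromRows_apply_inr]
    exact Hg.zero _

lemma hg_c1 (p q : ℤ) (hpq : p + (-1) = q) (k : E.ι) (i : E.ι ⊕ F.ι) :
    Hg ((Matrix.fromCols (1 : Matrix E.ι E.ι (Pol 5)) (0 : Matrix E.ι F.ι (Pol 5))) k i)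
      ((coneMF α hα).w i - E.w k + (3 * p - 3 * q)) := by
  rcases i with i | i
  · rw [Matrix.fromCols_apply_inl]
    refine (one_hg E.w k i).of_eq ?_
    change _ = (E.w i - 3) - E.w k + (3 * p - 3 * q)
    rw [← hpq]; ring
  · rw [Matrix.fromCols_apply_inr]
    exact Hg.zero _

lemma hg_r2 (k : E.ι ⊕ F.ι) (i : F.ι) :
    Hg ((Matrix.fromRows (0 : Matrix E.ι F.ι (Pol 5)) (1 : Matrix F.ι F.ι (Pol 5))) k i)
      (F.w i - (coneMF α hα).w k) := by
  rcases k with k | k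
  · rw [Matrix.fromRows_apply_inl]
    exact Hg.zero _
  · rw [Matrix.fromRows_apply_inr]
    exact one_hg F.w k i

lemma hg_c2 (k : F.ι) (i : E.ι ⊕ F.ι) :
    Hg ((Matrix.fromCols (0 : Matrix F.ι E.ι (Pol 5)) (1 : Matrix F.ι F.ι (Pol 5))) k i)
      ((coneMF α hα).w i - F.w k) := by
  rcases i with i | i
  · rw [Matrix.fromCols_apply_inl]
    exact Hg.zero _
  · rw [Matrix.fromCols_apply_inr]
    exact one_hg F.w k i

lemma r2_mem : (Matrix.fromRows (0 : Matrix E.ι F.ι (Pol 5)) (1 : Matrix F.ι F.ι (Pol 5)) :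
    Matrix (coneMF α hα).ι F.ι (Pol 5)) ∈ MF.Z F (coneMF α hα) 0 := by
  rw [mem_Z_zero_iff]
  refine ⟨fun i j => hg_r2 α hα i j, ?_⟩
  change Matrix.fromBlocks (-E.Q) 0 α F.Q * Matrix.fromRows 0 1 = Matrix.fromRows 0 1 * F.Q
  rw [Matrix.fromBlocks_mul_fromRows, Matrix.fromRows_mul]
  simp

/-- the first inclusion -/
def coA : CochainComplex.HomComplex.Cochain (PE hf E) (PE hf (coneMF α hα)) (-1) :=
  CochainComplex.HomComplex.Cochain.mk fun p q hpq =>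
    mg hf E.w (coneMF α hα).w (3 * p) (3 * q) (Matrix.fromRows 1 0) (hg_r1 α hα p q hpq)

lemma coA_v (p q : ℤ) (hpq : p + (-1) = q) : (coA (hf := hf) α hα).v p q hpq =
    mg hf E.w (coneMF α hα).w (3 * p) (3 * q) (Matrix.fromRows 1 0) (hg_r1 α hα p q hpq) := rfl

lemma hg_mul_aux {ι κ τ : Type} [Fintype κ] {w : ι → ℤ} {w' : κ → ℤ} {w'' : τ → ℤ} {c c' e : ℤ}
    {T : Matrix κ ι (Pol 5)} {T' : Matrix τ κ (Pol 5)}
    (hT : ∀ k i, Hg (T k i) (w i - w' k + c)) (hT' : ∀ k i, Hg (T' k i) (w' i - w'' k + c'))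
    (he : c + c' = e) (k : τ) (i : ι) : Hg ((T' * T) k i) (w i - w'' k + e) := by
  rw [Matrix.mul_apply]
  refine Hg.sum _ fun l _ => ((hT' k l).mul (hT l i)).of_eq ?_
  rw [← he]; ring

lemma coA_delta : CochainComplex.HomComplex.δ (-1) 0 (coA (hf := hf) α hα) =
    CochainComplex.HomComplex.Cochain.ofHom
      (phi0 hf α hα ≫ phi0 hf (Matrix.fromRows 0 1) (r2_mem α hα)) := by
  classical
  apply CochainComplex.HomComplex.Cochain.ext₀
  intro p
  rw [CochainComplex.HomComplex.δ_v (-1) 0 (by norm_num) _ p p (add_zero p) (p - 1) (p + 1) rfl rfl,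
    CochainComplex.HomComplex.Cochain.ofHom_v, HomologicalComplex.comp_f, phi0_f, phi0_f, coA_v,
    coA_v, PE_d (coneMF α hα) (p - 1) p (by ring), PE_d E p (p + 1) rfl]
  have ha : ∀ k i, Hg (((coneMF α hα).Q *
      (Matrix.fromRows 1 0 : Matrix (E.ι ⊕ F.ι) E.ι (Pol 5))) k i)
      (E.w i - (coneMF α hα).w k + (3 * p - 3 * p)) := fun k i =>
    hg_mul_aux (c := 3 * (p - 1) - 3 * p) (c' := 3) (hg_r1 α hα p (p - 1) (by ring))
      (coneMF α hα).hQ (by ring) k i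
  have hb : ∀ k i, Hg (((Matrix.fromRows 1 0 : Matrix (E.ι ⊕ F.ι) E.ι (Pol 5)) * E.Q) k i)
      (E.w i - (coneMF α hα).w k + (3 * p - 3 * p)) := fun k i =>
    hg_mul_aux (c := 3) (c' := 3 * p - 3 * (p + 1)) E.hQ (hg_r1 α hα (p + 1) p (by ring))
      (by ring) k i
  have hc : ∀ k i, Hg (((Matrix.fromRows 0 1 : Matrix (E.ι ⊕ F.ι) F.ι (Pol 5)) * α) k i)
      (E.w i - (coneMF α hα).w k + (3 * p - 3 * p)) := fun k i =>
    hg_mul_aux (c := 0) (c' := 0) hα.1 (fun a b => (hg_r2 α hα a b).of_eq (by ring))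
      (by ring) k i
  rw [mg_comp _ _ _ _ ha, mg_comp _ _ _ _ hb, mg_comp _ _ _ _ hc, Int.negOnePow_zero, one_smul]
  have hab : ∀ k i, Hg (((coneMF α hα).Q *
      (Matrix.fromRows 1 0 : Matrix (E.ι ⊕ F.ι) E.ι (Pol 5)) +
      (Matrix.fromRows 1 0 : Matrix (E.ι ⊕ F.ι) E.ι (Pol 5)) * E.Q) k i)
      (E.w i - (coneMF α hα).w k + (3 * p - 3 * p)) := fun k i => (ha k i).add (hb k i)
  rw [← mg_add_aux _ _ ha hb hab]
  refine mg_congr ?_ _ _
  change Matrix.fromBlocks (-E.Q) 0 α F.Q * Matrix.fromRows 1 0 + _ = _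
  rw [Matrix.fromBlocks_mul_fromRows, Matrix.fromRows_mul, Matrix.fromRows_mul]
  ext k i : 2
  rcases k with k | k
  · simp
  · simp

lemma c1_r1 : (Matrix.fromCols 1 0 : Matrix E.ι (E.ι ⊕ F.ι) (Pol 5)) *
    (Matrix.fromRows 1 0 : Matrix (E.ι ⊕ F.ι) E.ι (Pol 5)) = 1 := by
  rw [Matrix.fromCols_mul_fromRows]
  simp

lemma c2_r1 : (Matrix.fromCols 0 1 : Matrix F.ι (E.ι ⊕ F.ι) (Pol 5)) *
    (Matrix.fromRows 1 0 : Matrix (E.ι ⊕ F.ι) E.ι (Pol 5)) = 0 := by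
  rw [Matrix.fromCols_mul_fromRows]
  simp

lemma c1_r2 : (Matrix.fromCols 1 0 : Matrix E.ι (E.ι ⊕ F.ι) (Pol 5)) *
    (Matrix.fromRows 0 1 : Matrix (E.ι ⊕ F.ι) F.ι (Pol 5)) = 0 := by
  rw [Matrix.fromCols_mul_fromRows]
  simp

lemma c2_r2 : (Matrix.fromCols 0 1 : Matrix F.ι (E.ι ⊕ F.ι) (Pol 5)) *
    (Matrix.fromRows 0 1 : Matrix (E.ι ⊕ F.ι) F.ι (Pol 5)) = 1 := by
  rw [Matrix.fromCols_mul_fromRows]
  simp

lemma rc_one : (Matrix.fromRows 1 0 : Matrix (E.ι ⊕ F.ι) E.ι (Pol 5)) *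
    (Matrix.fromCols 1 0 : Matrix E.ι (E.ι ⊕ F.ι) (Pol 5)) +
    (Matrix.fromRows 0 1 : Matrix (E.ι ⊕ F.ι) F.ι (Pol 5)) *
    (Matrix.fromCols 0 1 : Matrix F.ι (E.ι ⊕ F.ι) (Pol 5)) = 1 := by
  rw [Matrix.fromRows_mul_fromCols, Matrix.fromRows_mul_fromCols, Matrix.fromBlocks_add]
  simp

lemma mg_zero_aux {ι κ : Type} [Fintype ι] [Fintype κ] {w : ι → ℤ} {w' : κ → ℤ} {q q' : ℤ}
    (h : ∀ k i, Hg ((0 : Matrix κ ι (Pol 5)) k i) (w i - w' k + (q' - q))) :
    mg hf w w' q q' 0 h = 0 := by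
  classical
  exact (matG_congr (T' := 0) (hT' := fun _ _ => Submodule.zero_mem _)
      (fun k i _ => congrFun (congrFun red_zero k) i)).trans matG_zero

/-- the comparison morphism -/
def coneD : CochainComplex.mappingCone (phi0 hf α hα) ⟶ PE hf (coneMF α hα) :=
  CochainComplex.mappingCone.desc (phi0 hf α hα) (coA α hα) (phi0 hf _ (r2_mem α hα))
    (coA_delta α hα)

lemma isIso_coneD (n : ℤ) : IsIso ((coneD (hf := hf) α hα).f n) := by
  classical
  have e1 : (CochainComplex.mappingCone.inl (phi0 hf α hα)).v (n + 1) n (by ring) ≫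
      (coneD α hα).f n = (coA α hα).v (n + 1) n (by ring) :=
    CochainComplex.mappingCone.inl_v_desc_f _ _ _ _ _ _ _
  have e2 : (CochainComplex.mappingCone.inr (phi0 hf α hα)).f n ≫
      (coneD α hα).f n = (phi0 hf _ (r2_mem α hα)).f n :=
    CochainComplex.mappingCone.inr_f_desc_f _ _ _ _ _
  let p1 : (PE hf (coneMF α hα)).X n ⟶ (PE hf E).X (n + 1) :=
    mg hf (coneMF α hα).w E.w (3 * n) (3 * (n + 1)) (Matrix.fromCols 1 0)
      (hg_c1 α hα (n + 1) n (by ring))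
  let p2 : (PE hf (coneMF α hα)).X n ⟶ (PE hf F).X n :=
    mg hf (coneMF α hα).w F.w (3 * n) (3 * n) (Matrix.fromCols 0 1)
      (fun a b => (hg_c2 α hα a b).of_eq (by ring))
  have f11 : (coA α hα).v (n + 1) n (by ring) ≫ p1 = 𝟙 _ := by
    have h : ∀ k i, Hg (((Matrix.fromCols 1 0 : Matrix E.ι (E.ι ⊕ F.ι) (Pol 5)) *
        (Matrix.fromRows 1 0 : Matrix (E.ι ⊕ F.ι) E.ι (Pol 5))) k i)
        (E.w i - E.w k + (3 * (n + 1) - 3 * (n + 1))) := by
      intro k i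
      rw [c1_r1]
      exact (one_hg E.w k i).of_eq (by ring)
    have h2 : ∀ k i, Hg ((1 : Matrix E.ι E.ι (Pol 5)) k i)
        (E.w i - E.w k + (3 * (n + 1) - 3 * (n + 1))) := fun k i =>
      (one_hg E.w k i).of_eq (by ring)
    exact (mg_comp _ (hg_r1 α hα (n + 1) n (by ring)) _ (hg_c1 α hα (n + 1) n (by ring)) h).trans
      ((mg_congr c1_r1 h h2).trans (mg_one h2))
  have f12 : (coA α hα).v (n + 1) n (by ring) ≫ p2 = 0 := by
    have h : ∀ k i, Hg (((Matrix.fromCols 0 1 : Matrix F.ι (E.ι ⊕ F.ι) (Pol 5)) *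
        (Matrix.fromRows 1 0 : Matrix (E.ι ⊕ F.ι) E.ι (Pol 5))) k i)
        (E.w i - F.w k + (3 * n - 3 * (n + 1))) := by
      intro k i
      rw [c2_r1]
      exact Hg.zero _
    exact (mg_comp _ (hg_r1 α hα (n + 1) n (by ring)) _
      (fun a b => (hg_c2 α hα a b).of_eq (by ring)) h).trans
      ((mg_congr c2_r1 h (fun _ _ => Hg.zero _)).trans (mg_zero_aux _))
  have f21 : (phi0 hf _ (r2_mem α hα)).f n ≫ p1 = 0 := by
    have h : ∀ k i, Hg (((Matrix.fromCols 1 0 : Matrix E.ι (E.ι ⊕ F.ι) (Pol 5)) *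
        (Matrix.fromRows 0 1 : Matrix (E.ι ⊕ F.ι) F.ι (Pol 5))) k i)
        (F.w i - E.w k + (3 * (n + 1) - 3 * n)) := by
      intro k i
      rw [c1_r2]
      exact Hg.zero _
    exact (mg_comp _ (fun a b => (hg_r2 α hα a b).of_eq (by ring)) _
      (hg_c1 α hα (n + 1) n (by ring)) h).trans
      ((mg_congr c1_r2 h (fun _ _ => Hg.zero _)).trans (mg_zero_aux _))
  have f22 : (phi0 hf _ (r2_mem α hα)).f n ≫ p2 = 𝟙 _ := by
    have h : ∀ k i, Hg (((Matrix.fromCols 0 1 : Matrix F.ι (E.ι ⊕ F.ι) (Pol 5)) *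
        (Matrix.fromRows 0 1 : Matrix (E.ι ⊕ F.ι) F.ι (Pol 5))) k i)
        (F.w i - F.w k + (3 * n - 3 * n)) := by
      intro k i
      rw [c2_r2]
      exact (one_hg F.w k i).of_eq (by ring)
    have h2 : ∀ k i, Hg ((1 : Matrix F.ι F.ι (Pol 5)) k i)
        (F.w i - F.w k + (3 * n - 3 * n)) := fun k i =>
      (one_hg F.w k i).of_eq (by ring)
    exact (mg_comp _ (fun a b => (hg_r2 α hα a b).of_eq (by ring)) _
      (fun a b => (hg_c2 α hα a b).of_eq (by ring)) h).trans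
      ((mg_congr c2_r2 h h2).trans (mg_one h2))
  have f3 : p1 ≫ (coA α hα).v (n + 1) n (by ring) + p2 ≫ (phi0 hf _ (r2_mem α hα)).f n =
      𝟙 _ := by
    have ha : ∀ k i, Hg (((Matrix.fromRows 1 0 : Matrix (E.ι ⊕ F.ι) E.ι (Pol 5)) *
        (Matrix.fromCols 1 0 : Matrix E.ι (E.ι ⊕ F.ι) (Pol 5))) k i)
        ((coneMF α hα).w i - (coneMF α hα).w k + (3 * n - 3 * n)) := fun k i =>
      hg_mul_aux (c := 3 * (n + 1) - 3 * n) (c' := 3 * n - 3 * (n + 1))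
        (hg_c1 α hα (n + 1) n (by ring)) (hg_r1 α hα (n + 1) n (by ring)) (by ring) k i
    have hb : ∀ k i, Hg (((Matrix.fromRows 0 1 : Matrix (E.ι ⊕ F.ι) F.ι (Pol 5)) *
        (Matrix.fromCols 0 1 : Matrix F.ι (E.ι ⊕ F.ι) (Pol 5))) k i)
        ((coneMF α hα).w i - (coneMF α hα).w k + (3 * n - 3 * n)) := fun k i =>
      hg_mul_aux (c := 0) (c' := 0)
        (fun a b => (hg_c2 α hα a b).of_eq (by ring))
        (fun a b => (hg_r2 α hα a b).of_eq (by ring)) (by ring) k i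
    have hab : ∀ k i, Hg (((Matrix.fromRows 1 0 : Matrix (E.ι ⊕ F.ι) E.ι (Pol 5)) *
        (Matrix.fromCols 1 0 : Matrix E.ι (E.ι ⊕ F.ι) (Pol 5)) +
        (Matrix.fromRows 0 1 : Matrix (E.ι ⊕ F.ι) F.ι (Pol 5)) *
        (Matrix.fromCols 0 1 : Matrix F.ι (E.ι ⊕ F.ι) (Pol 5))) k i)
        ((coneMF α hα).w i - (coneMF α hα).w k + (3 * n - 3 * n)) := fun k i =>
      (ha k i).add (hb k i)
    have h2 : ∀ k i, Hg ((1 : Matrix (coneMF α hα).ι (coneMF α hα).ι (Pol 5)) k i)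
        ((coneMF α hα).w i - (coneMF α hα).w k + (3 * n - 3 * n)) := fun k i =>
      (one_hg (coneMF α hα).w k i).of_eq (by ring)
    have g1 : p1 ≫ (coA α hα).v (n + 1) n (by ring) = _ :=
      mg_comp _ (hg_c1 α hα (n + 1) n (by ring)) _ (hg_r1 α hα (n + 1) n (by ring)) ha
    have g2 : p2 ≫ (phi0 hf _ (r2_mem α hα)).f n = _ :=
      mg_comp _ (fun a b => (hg_c2 α hα a b).of_eq (by ring)) _
        (fun a b => (hg_r2 α hα a b).of_eq (by ring)) hb
    rw [g1, g2]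
    exact (mg_add_aux _ _ ha hb hab).symm.trans ((mg_congr rc_one hab h2).trans (mg_one h2))
  refine ⟨p1 ≫ (CochainComplex.mappingCone.inl (phi0 hf α hα)).v (n + 1) n (by ring) +
    p2 ≫ (CochainComplex.mappingCone.inr (phi0 hf α hα)).f n, ?_, ?_⟩
  · apply CochainComplex.mappingCone.ext_from (phi0 hf α hα) (n + 1) n rfl
    · rw [← Category.assoc, e1, Preadditive.comp_add, ← Category.assoc, f11, ← Category.assoc,
        f12, zero_comp, add_zero, Category.id_comp, Category.comp_id]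
    · rw [← Category.assoc, e2, Preadditive.comp_add, ← Category.assoc, f21, ← Category.assoc,
        f22, zero_comp, zero_add, Category.id_comp, Category.comp_id]
  · rw [Preadditive.add_comp, Category.assoc, Category.assoc, e1, e2, f3]

end

theorem nonempty_cone_iso {E F : MF f} (α : Matrix F.ι E.ι (Pol 5)) (hα : α ∈ MF.Z E F 0) :
    Nonempty (CochainComplex.mappingCone (phi0 hf α hα) ≅ PE hf (coneMF α hα)) := by
  have h1 : ∀ n, IsIso ((coneD (hf := hf) α hα).f n) := isIso_coneD α hα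
  have h2 : IsIso (coneD (hf := hf) α hα) := HomologicalComplex.Hom.isIso_of_components _
  exact ⟨asIso (coneD (hf := hf) α hα)⟩

end H24.Ku
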