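import Pool.Agent.H27.Orl.Fr

/-!
# Morphisms between graded free modules, projectivity

* `frHom y` : the morphism from a free module given by the images of the basis vectors;
* `FrG` is projective;
* `matG T` : the morphism given by a matrix; every morphism between free modules is of this form.
-/

open CategoryTheory CategoryTheory.Limits MvPolynomial

set_option backward.isDefEq.respectTransparency false
set_option linter.unusedSectionVars false

noncomputable section

namespace H24.Ku

variable {X : ProjData} {ι κ τ : Type} [Fintype ι] [Fintype κ] [Fintype τ]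

lemma mulVec_smul_aux {R : Type*} [CommRing R] (T : Matrix κ ι R) (a : R) (v : ι → R) :
    T.mulVec (a • v) = a • T.mulVec v := Matrix.mulVec_smul _ _ _

lemma mulVec_smul_aux' {R : Type*} [CommRing R] [Algebra ℂ R] (T : Matrix κ ι R) (a : ℂ)
    (v : ι → R) : T.mulVec (a • v) = a • T.mulVec v := Matrix.mulVec_smul _ _ _

lemma smul_mulVec_aux {R : Type*} [CommRing R] [Algebra ℂ R] (a : ℂ) (T : Matrix κ ι R)
    (v : ι → R) : (a • T).mulVec v = a • T.mulVec v := Matrix.smul_mulVec _ _ _

lemma mulVec_single_aux {R : Type*} [CommRing R] [DecidableEq ι] (T : Matrix κ ι R) (i : ι) :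
    T.mulVec (Pi.single i 1) = fun k => T k i := Matrix.mulVec_single_one _ _

lemma gr_map_add (M : Gr X) {m n : Deg X} (a b : m ⟶ n) :
    M.obj.map (a + b) = M.obj.map a + M.obj.map b := by
  have := M.2.1
  exact M.obj.map_add

lemma gr_map_zero (M : Gr X) {m n : Deg X} : M.obj.map (0 : m ⟶ n) = 0 := by
  have := M.2.1
  exact M.obj.map_zero _ _

lemma gr_map_smul (M : Gr X) {m n : Deg X} (c : ℂ) (a : m ⟶ n) :
    M.obj.map (c • a) = c • M.obj.map a := by
  have := M.2.1
  have := M.2.2.1
  exact Functor.Linear.map_smul a c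

/-- The coordinate `i` of a vector, as a morphism of `Deg X`. -/
def frCoord {w : ι → ℤ} {q : ℤ} {n : Deg X} (v : (Fr X w q).obj n) (i : {i : ι // Even (w i - q)}) :
    (⟨(w i - q) / 2⟩ : Deg X) ⟶ n :=
  mkHv (frVal v i.1) (by
    have := frVal_mem v i.1
    have h2 := i.2.two_dvd
    rwa [show 2 * (n.deg - (w i - q) / 2) = 2 * n.deg + q - w i by omega])

@[simp] lemma hv_frCoord {w : ι → ℤ} {q : ℤ} {n : Deg X} (v : (Fr X w q).obj n)
    (i : {i : ι // Even (w i - q)}) : hv (frCoord v i) = frVal v i.1 := rfl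

lemma frCoord_map {w : ι → ℤ} {q : ℤ} {m n : Deg X} (a : m ⟶ n) (v : (Fr X w q).obj m)
    (i : {i : ι // Even (w i - q)}) :
    frCoord (((Fr X w q).map a).hom v) i = frCoord v i ≫ a := by
  apply hv_ext
  simp [mul_comm]

/-- The morphism from a free module given by the images of the basis vectors. -/
def frHom {w : ι → ℤ} {q : ℤ} {M : Gr X}
    (y : ∀ (i : ι) (m : ℤ), 2 * m + q = w i → M.obj.obj ⟨m⟩) : FrG X w q ⟶ M :=
  (grProp X).homMk
    { app n := ModuleCat.ofHom
        { toFun v := ∑ i : {i : ι // Even (w i - q)}, (M.obj.map (frCoord v i)).hom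
            (y i.1 ((w i - q) / 2) (by have := i.2.two_dvd; omega))
          map_add' v v' := by
            rw [← Finset.sum_add_distrib]
            refine Finset.sum_congr rfl fun i _ => ?_
            rw [show frCoord (v + v') i = frCoord v i + frCoord v' i from hv_ext rfl, gr_map_add]
            rfl
          map_smul' c v := by
            rw [Finset.smul_sum]
            refine Finset.sum_congr rfl fun i _ => ?_
            rw [show frCoord (c • v) i = c • frCoord v i from hv_ext rfl, gr_map_smul]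
            rfl }
      naturality m n a := by
        ext v
        change ∑ i : {i : ι // Even (w i - q)}, (M.obj.map (frCoord (((Fr X w q).map a).hom v) i)).hom
            (y i.1 ((w i - q) / 2) _) = (M.obj.map a).hom (∑ i : {i : ι // Even (w i - q)},
              (M.obj.map (frCoord v i)).hom (y i.1 ((w i - q) / 2) _))
        rw [map_sum]
        refine Finset.sum_congr rfl fun i _ => ?_
        rw [frCoord_map, Functor.map_comp]
        rfl }

lemma frHom_frE [DecidableEq ι] {w : ι → ℤ} {q : ℤ} {M : Gr X}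
    (y : ∀ (i : ι) (m : ℤ), 2 * m + q = w i → M.obj.obj ⟨m⟩) (i : ι) (m : ℤ)
    (hm : 2 * m + q = w i) : ((frHom y).hom.app ⟨m⟩).hom (frE w q i m hm) = y i m hm := by
  change ∑ j : {i : ι // Even (w i - q)}, (M.obj.map (frCoord (frE w q i m hm) j)).hom
            (y j.1 ((w j - q) / 2) _) = _
  have hi : Even (w i - q) := ⟨m, by omega⟩
  rw [Finset.sum_eq_single ⟨i, hi⟩]
  · obtain rfl : m = (w i - q) / 2 := by omega
    have : frCoord (frE (X := X) w q i ((w i - q) / 2) hm) ⟨i, hi⟩ = 𝟙 (⟨(w i - q) / 2⟩ : Deg X) :=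
      hv_ext (by simp)
    rw [this, M.obj.map_id]
    rfl
  · intro j _ hj
    have : frCoord (frE (X := X) w q i m hm) j = 0 := hv_ext (by
      rw [hv_frCoord, frVal_frE, hv_zero, Pi.single_eq_of_ne]
      rintro rfl
      exact hj rfl)
    rw [this, gr_map_zero]
    rfl
  · intro h
    exact absurd (Finset.mem_univ _) h

lemma fr_hom_ext [DecidableEq ι] {w : ι → ℤ} {q : ℤ} {M : Gr X} {φ ψ : FrG X w q ⟶ M}
    (h : ∀ (i : ι) (m : ℤ) (hm : 2 * m + q = w i),
      (φ.hom.app ⟨m⟩).hom (frE w q i m hm) = (ψ.hom.app ⟨m⟩).hom (frE w q i m hm)) : φ = ψ := by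
  ext n v
  obtain ⟨a, -, ha⟩ := fr_eq_sum w q n v
  have key : ∀ χ : FrG X w q ⟶ M, (χ.hom.app n).hom v = ∑ i : {i : ι // Even (w i - q)},
      (M.obj.map (a i)).hom ((χ.hom.app ⟨(w i - q) / 2⟩).hom (frE w q i.1 ((w i - q) / 2) (by
        have := i.2.two_dvd; omega))) := by
    intro χ
    conv_lhs => rw [ha]
    rw [map_sum]
    refine Finset.sum_congr rfl fun i _ => ?_
    have := χ.hom.naturality (a i)
    exact congr($(this).hom (frE w q i.1 ((w i - q) / 2) _))
  rw [key φ, key ψ]
  exact Finset.sum_congr rfl fun i _ => by rw [h]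

instance (w : ι → ℤ) (q : ℤ) : Projective (FrG X w q) where
  factors {E M} f e he := by
    classical
    have hs := (epi_iff_surjective e).1 he
    choose y hy using fun (i : ι) (m : ℤ) (hm : 2 * m + q = w i) =>
      hs ⟨m⟩ ((f.hom.app ⟨m⟩).hom (frE w q i m hm))
    refine ⟨frHom y, fr_hom_ext fun i m hm => ?_⟩
    change (e.hom.app ⟨m⟩).hom (((frHom y).hom.app ⟨m⟩).hom (frE w q i m hm)) = _
    rw [frHom_frE, hy]

/-- The morphism between free modules given by a matrix. -/
def matG {w : ι → ℤ} {w' : κ → ℤ} {q q' : ℤ} (T : Matrix κ ι X.A)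
    (hT : ∀ k i, T k i ∈ X.wtA (w i - w' k + (q' - q))) : FrG X w q ⟶ FrG X w' q' :=
  (grProp X).homMk
    { app n := ModuleCat.ofHom
        { toFun v := frMk (T.mulVec (frVal v)) (fun k => by
            refine Submodule.sum_mem _ fun i _ => ?_
            have := mul_mem_wtA (hT k i) (frVal_mem v i)
            rwa [show w i - w' k + (q' - q) + (2 * n.deg + q - w i) = 2 * n.deg + q' - w' k by
              ring] at this)
          map_add' v v' := frVal_injective (by
            rw [frVal_frMk, map_add, map_add]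
            exact Matrix.mulVec_add _ _ _)
          map_smul' c v := frVal_injective (by
            rw [frVal_frMk, map_smul, RingHom.id_apply, map_smul]
            exact mulVec_smul_aux' _ _ _) }
      naturality m n a := by
        ext v
        apply frVal_injective
        change T.mulVec (hv a • frVal v) = hv a • T.mulVec (frVal v)
        exact mulVec_smul_aux _ _ _ }

lemma frVal_matG {w : ι → ℤ} {w' : κ → ℤ} {q q' : ℤ} (T : Matrix κ ι X.A)
    (hT : ∀ k i, T k i ∈ X.wtA (w i - w' k + (q' - q))) (n : Deg X)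
    (v : (Fr X w q).obj n) :
    frVal (((matG (X := X) (w := w) (w' := w') T hT).hom.app n).hom v) = T.mulVec (frVal v) := rfl

lemma frG_hom_ext {w : ι → ℤ} {w' : κ → ℤ} {q q' : ℤ} {φ ψ : FrG X w q ⟶ FrG X w' q'}
    (h : ∀ (n : Deg X) (v : (Fr X w q).obj n),
      frVal (w := w') (q := q') ((φ.hom.app n).hom v) = frVal (w := w') (q := q')
        ((ψ.hom.app n).hom v)) : φ = ψ := by
  ext n v
  exact frVal_injective (h n v)

lemma matG_add {w : ι → ℤ} {w' : κ → ℤ} {q q' : ℤ} (T T' : Matrix κ ι X.A)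
    (hT : ∀ k i, T k i ∈ X.wtA (w i - w' k + (q' - q)))
    (hT' : ∀ k i, T' k i ∈ X.wtA (w i - w' k + (q' - q))) :
    matG (w := w) (w' := w') (T + T') (fun k i => Submodule.add_mem _ (hT k i) (hT' k i)) =
      matG T hT + matG T' hT' :=
  frG_hom_ext fun n v => by
    rw [frVal_matG]
    exact Matrix.add_mulVec _ _ _

lemma matG_zero {w : ι → ℤ} {w' : κ → ℤ} {q q' : ℤ} :
    matG (X := X) (w := w) (w' := w') (q := q) (q' := q') 0
      (fun _ _ => Submodule.zero_mem _) = 0 :=
  frG_hom_ext fun n v => by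
    rw [frVal_matG]
    exact Matrix.zero_mulVec _

lemma matG_smul {w : ι → ℤ} {w' : κ → ℤ} {q q' : ℤ} (c : ℂ) (T : Matrix κ ι X.A)
    (hT : ∀ k i, T k i ∈ X.wtA (w i - w' k + (q' - q))) :
    matG (w := w) (w' := w') (c • T) (fun k i => Submodule.smul_mem _ c (hT k i)) =
      c • matG T hT :=
  frG_hom_ext fun n v => by
    have h1 := smul_mulVec_aux (R := X.A) c T (frVal v)
    rw [frVal_matG, h1]
    exact (map_smul (frVal (X := X) (w := w') (q := q')) c
      (((matG (X := X) (w := w) (w' := w') T hT).hom.app n).hom v)).symm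

lemma matG_one [DecidableEq ι] {w : ι → ℤ} {q : ℤ}
    (h : ∀ k i, (1 : Matrix ι ι X.A) k i ∈ X.wtA (w i - w k + (q - q))) :
    matG (w := w) (w' := w) (1 : Matrix ι ι X.A) h = 𝟙 (FrG X w q) :=
  frG_hom_ext fun n v => by
    rw [frVal_matG]
    exact Matrix.one_mulVec _

lemma matG_comp {w : ι → ℤ} {w' : κ → ℤ} {w'' : τ → ℤ} {q q' q'' : ℤ} (T : Matrix κ ι X.A)
    (hT : ∀ k i, T k i ∈ X.wtA (w i - w' k + (q' - q))) (T' : Matrix τ κ X.A)
    (hT' : ∀ k i, T' k i ∈ X.wtA (w' i - w'' k + (q'' - q')))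
    (hTT' : ∀ k i, (T' * T) k i ∈ X.wtA (w i - w'' k + (q'' - q))) :
    matG (w := w) (w' := w') T hT ≫ matG (w' := w'') T' hT' = matG (T' * T) hTT' :=
  frG_hom_ext fun n v => by
    rw [frVal_matG]
    change T'.mulVec (T.mulVec (frVal v)) = _
    exact Matrix.mulVec_mulVec _ _ _

lemma mul_mem_wtA_matrix {w : ι → ℤ} {w' : κ → ℤ} {w'' : τ → ℤ} {c c' : ℤ} {T : Matrix κ ι X.A}
    (hT : ∀ k i, T k i ∈ X.wtA (w i - w' k + c)) {T' : Matrix τ κ X.A}
    (hT' : ∀ k i, T' k i ∈ X.wtA (w' i - w'' k + c')) (k : τ) (i : ι) :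
    (T' * T) k i ∈ X.wtA (w i - w'' k + (c + c')) := by
  rw [Matrix.mul_apply]
  refine Submodule.sum_mem _ fun j _ => ?_
  have := mul_mem_wtA (hT' k j) (hT j i)
  rwa [show w' j - w'' k + c' + (w i - w' j + c) = w i - w'' k + (c + c') by ring] at this

/-- Two matrices give the same morphism if they agree in the columns of even index. -/
lemma matG_congr [DecidableEq ι] {w : ι → ℤ} {w' : κ → ℤ} {q q' : ℤ} {T T' : Matrix κ ι X.A}
    {hT : ∀ k i, T k i ∈ X.wtA (w i - w' k + (q' - q))}
    {hT' : ∀ k i, T' k i ∈ X.wtA (w i - w' k + (q' - q))}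
    (h : ∀ k i, Even (w i - q) → T k i = T' k i) :
    matG (w := w) (w' := w') T hT = matG T' hT' :=
  fr_hom_ext fun i m hm => by
    apply frVal_injective
    change T.mulVec (Pi.single i 1) = T'.mulVec (Pi.single i 1)
    rw [mulVec_single_aux, mulVec_single_aux]
    funext k
    exact h k i ⟨m, by omega⟩

/-- The entries of a matrix are determined by the morphism in the columns of even index. -/
lemma eq_of_matG_eq [DecidableEq ι] {w : ι → ℤ} {w' : κ → ℤ} {q q' : ℤ} {T T' : Matrix κ ι X.A}
    {hT : ∀ k i, T k i ∈ X.wtA (w i - w' k + (q' - q))}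
    {hT' : ∀ k i, T' k i ∈ X.wtA (w i - w' k + (q' - q))}
    (h : matG (w := w) (w' := w') T hT = matG T' hT') (k : κ) (i : ι) (hi : Even (w i - q)) :
    T k i = T' k i := by
  obtain ⟨m, hm⟩ := hi
  have h1 := congr(frVal (w := w') (q := q') (((($h).hom).app ⟨m⟩).hom
    (frE w q i m (by omega))))
  change T.mulVec (Pi.single i 1) = T'.mulVec (Pi.single i 1) at h1
  rw [mulVec_single_aux, mulVec_single_aux] at h1
  exact congrFun h1 k

/-- Every morphism between free modules is given by a matrix. -/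
lemma exists_matG [DecidableEq ι] {w : ι → ℤ} {w' : κ → ℤ} {q q' : ℤ}
    (φ : FrG X w q ⟶ FrG X w' q') :
    ∃ (T : Matrix κ ι X.A) (hT : ∀ k i, T k i ∈ X.wtA (w i - w' k + (q' - q))),
      φ = matG T hT := by
  have hc : ∀ i : ι, ∃ c : κ → X.A, (∀ k, c k ∈ X.wtA (w i - w' k + (q' - q))) ∧
      ∀ (m : ℤ) (hm : 2 * m + q = w i),
        c = frVal (w := w') (q := q') ((φ.hom.app ⟨m⟩).hom (frE w q i m hm)) := by
    intro i
    by_cases hi : Even (w i - q)
    · obtain ⟨m, hm⟩ := hi
      refine ⟨frVal (w := w') (q := q') ((φ.hom.app ⟨m⟩).hom (frE w q i m (by omega))),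
        fun k => ?_, fun m' hm' => ?_⟩
      · have := frVal_mem (X := X) (w := w') (q := q')
          ((φ.hom.app ⟨m⟩).hom (frE w q i m (by omega))) k
        rwa [show 2 * (⟨m⟩ : Deg X).deg + q' - w' k = w i - w' k + (q' - q) by
          change 2 * m + q' - w' k = _; omega] at this
      · obtain rfl : m = m' := by omega
        rfl
    · refine ⟨0, fun k => Submodule.zero_mem _, fun m hm => absurd ⟨m, by omega⟩ hi⟩
  choose c hc1 hc2 using hc
  refine ⟨fun k i => c i k, fun k i => hc1 i k, fr_hom_ext fun i m hm => ?_⟩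
  apply frVal_injective
  rw [← hc2 i m hm]
  change _ = Matrix.mulVec _ (Pi.single i 1)
  rw [mulVec_single_aux]

end H24.Ku
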