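import Pool.Agent.H27.Orl.KExt
import Pool.Agent.H27.Orl.Mat

/-!
# KUD-16 FinExt: `Ext (T, FrG w q) = 0` for `T` of finite length in degrees `≥ -2`, all `w i ≤ q`

(1) `FrG X w q` is the direct sum of the `A(L_i)`, `L_i = (q - w i)/2 ≥ 0`, over the `i` with `w i - q`
even: for every such `i` there are `p_i : FrG ⟶ free L_i` and `j_i = freeHom (frE ..) : free L_i ⟶ FrG`
with `∑ p_i ≫ j_i = 𝟙` (`fr_eq_sum`, `fr_hom_ext`, `frHom`; `p_i` is the `i`-th coordinate). So
`e = ∑ (e.comp (mk₀ p_i)).comp (mk₀ j_i)` and it is enough to treat `Ext T (free L) k`, `L ≥ 0`.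
(2) Let `L ≥ 0`. Call `T` good if all `Ext T (free L) k` vanish. Good is closed under isomorphisms and
extensions (`Ext.contravariant_sequence_exact₂`). `kG N` is good for `N ≤ 2` (`kG_ext`).
`T` of finite length in degrees `≥ -2` : all `T_m` are finite dimensional (only finitely many `m ≥ -2`
with `T_m ≠ 0`; for the finite dimension use the finite generation: `T.property.2.2` and the finite
dimension of `X.piece d`, or avoid it by induction on the number of generators as follows).
Induction: let `T ≠ 0` and `m` the largest degree with `T_m ≠ 0` (`finLen`). For `x ∈ T_m`, `x ≠ 0`, the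
line `ℂ x` is a graded submodule isomorphic to `kG (-m)` (`GrSub`; all `a : m ⟶ n` with `n.deg > m.deg`
act as zero, `deg_hom_eq_zero` for `n.deg < m.deg`, and `piece 0 = ℂ`). `T / ℂ x` has smaller total
dimension. (Or: noetherian induction on submodules: `Gr X` is noetherian because `A` is; or induct
on `∑_{-2 ≤ m < n₀} finrank T_m`.) `kG_iso_of_concentrated` could be a useful lemma: if `T_n = 0` for
`n ≠ m` and `T_m` is one dimensional then `T ≅ kG (-m)`.
-/

open CategoryTheory CategoryTheory.Limits MvPolynomial KuMF CategoryTheory.Abelian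

set_option backward.isDefEq.respectTransparency false

noncomputable section

namespace H24.Ku

section general

variable {X : ProjData}

instance homog_finite (N : ℕ) (d : ℤ) : Module.Finite ℂ (homog N d) := by
  let t : Set (Fin (N + 1) →₀ ℕ) := {m | (m.degree : ℤ) = d}
  have ht : t.Finite := by
    refine (Finsupp.finite_of_degree_le d.toNat).subset fun m hm => ?_
    have hm' : (m.degree : ℤ) = d := hm
    change m.degree ≤ d.toNat
    omega
  have : Finite t := ht.to_subtype
  have h1 : Module.Finite ℂ (MvPolynomial.restrictSupport ℂ t) :=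
    Module.Finite.of_basis (MvPolynomial.basisRestrictSupport ℂ t)
  have h2 : homog N d ≤ MvPolynomial.restrictSupport ℂ t := fun p hp => hp
  exact Submodule.finiteDimensional_of_le h2

instance piece_finite (X : ProjData) (d : ℤ) : Module.Finite ℂ (X.piece d) := by
  unfold ProjData.piece
  infer_instance

instance hom_finite {m n : Deg X} : Module.Finite ℂ (m ⟶ n) :=
  piece_finite X (n.deg - m.deg)

lemma gr_finite (T : Gr X) (n : Deg X) : Module.Finite ℂ (T.obj.obj n) := by
  obtain ⟨k, g, x, hx⟩ := T.property.2.2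
  let φ : (∀ i, g i ⟶ n) →ₗ[ℂ] T.obj.obj n :=
    { toFun a := ∑ i, (T.obj.map (a i)).hom (x i)
      map_add' a b := by
        rw [← Finset.sum_add_distrib]
        refine Finset.sum_congr rfl fun i _ => ?_
        rw [Pi.add_apply, gr_map_add]
        rfl
      map_smul' c a := by
        rw [Finset.smul_sum]
        refine Finset.sum_congr rfl fun i _ => ?_
        rw [Pi.smul_apply, gr_map_smul]
        rfl }
  exact Module.Finite.of_surjective φ fun y => by
    obtain ⟨a, ha⟩ := hx n y
    exact ⟨a, ha.symm⟩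

/-- The endomorphisms of an object of `Deg X` are scalars. -/
lemma exists_smul_id {n : Deg X} (a : n ⟶ n) : ∃ c : ℂ, a = c • 𝟙 n := by
  obtain ⟨p, hp, rfl⟩ := Deg.exists_ofPol a
  refine ⟨p.coeff 0, Subtype.ext ?_⟩
  have h1 : p = MvPolynomial.C (p.coeff 0) := by
    ext m
    rw [MvPolynomial.coeff_C]
    split_ifs with hm
    · rw [hm]
    · by_contra h
      have h2 := hp m (MvPolynomial.mem_support_iff.2 h)
      rw [sub_self, Nat.cast_eq_zero, Finsupp.degree_eq_zero_iff] at h2
      exact hm h2.symm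
  change Ideal.Quotient.mk X.I p = p.coeff 0 • (1 : X.A)
  conv_lhs => rw [h1]
  rw [← Algebra.algebraMap_eq_smul_one]
  rfl

/-- The morphism `k(N) ⟶ T` given by an element of top degree. -/
lemma exists_kG_hom (N : ℤ) {T : Gr X} (hT : ∀ n : Deg X, -N < n.deg → Subsingleton (T.obj.obj n))
    (x : T.obj.obj ⟨-N⟩) :
    ∃ ψ : kG X N ⟶ T, (geSub (-N + 1) (free X N)).π ≫ ψ = freeHom x := by
  refine GrSub.exists_desc (freeHom x) fun n y hy => ?_
  by_cases h : -N + 1 ≤ n.deg
  · have := hT n (by omega)
    exact Subsingleton.elim _ _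
  · rw [geSub_of_lt (by omega), Submodule.mem_bot] at hy
    rw [hy, map_zero]

lemma kG_hom_injective (N : ℤ) {T : Gr X} (x : T.obj.obj ⟨-N⟩) (hx : x ≠ 0) (ψ : kG X N ⟶ T)
    (hψ : (geSub (-N + 1) (free X N)).π ≫ ψ = freeHom x) (n : Deg X) :
    Function.Injective (ψ.hom.app n).hom := by
  rw [injective_iff_map_eq_zero]
  intro y hy
  obtain ⟨z, rfl⟩ := (geSub (-N + 1) (free X N)).π_surjective n y
  rcases lt_trichotomy n.deg (-N) with h | h | h
  · have h0 : z = 0 := deg_hom_eq_zero (show (⟨-N⟩ : Deg X) ⟶ n from z) h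
    rw [h0, map_zero]
  · obtain rfl : n = ⟨-N⟩ := by
      cases n
      exact congrArg Deg.mk h
    obtain ⟨c, hc⟩ := exists_smul_id (show (⟨-N⟩ : Deg X) ⟶ ⟨-N⟩ from z)
    have h1 : ((freeHom x).hom.app ⟨-N⟩).hom z = 0 := by
      rw [← hψ]
      exact hy
    have h2 : ((freeHom x).hom.app ⟨-N⟩).hom z = c • x := by
      rw [show z = (c • freeGen X N) from hc, map_smul, freeHom_gen]
    rw [h2, smul_eq_zero] at h1
    have hc0 : c = 0 := h1.resolve_right hx
    have h3 : z = 0 := by
      rw [show z = (c • freeGen X N) from hc, hc0, zero_smul]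
    rw [h3, map_zero]
  · have : Subsingleton ((kG X N).obj.obj n) :=
      ltG_subsingleton (l := -N + 1) (free X N) (n := n) (by omega)
    exact Subsingleton.elim _ _

lemma ext_of_isZero {T Y : Gr X} (h : IsZero T) (k : ℕ) (e : Ext T Y k) : e = 0 := by
  rw [← Ext.mk₀_id_comp e, h.eq_of_src (𝟙 T) 0, Ext.mk₀_zero, Ext.zero_comp]

lemma ext_of_ses {S : ShortComplex (Gr X)} (hS : S.ShortExact) {Y : Gr X} {k : ℕ}
    (h1 : ∀ e : Ext S.X₁ Y k, e = 0) (h3 : ∀ e : Ext S.X₃ Y k, e = 0) (e : Ext S.X₂ Y k) :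
    e = 0 := by
  obtain ⟨e3, rfl⟩ := Ext.contravariant_sequence_exact₂ hS Y e (h1 _)
  rw [h3 e3, Ext.comp_zero]

/-- Devissage: `Ext T Y = 0` if `Ext (kG N) Y = 0` for `N ≤ 2`. -/
theorem devissage {Y : Gr X} (k : ℕ)
    (hk : ∀ (N : ℤ), N ≤ 2 → ∀ e : Ext (kG X N) Y k, e = 0) (j : ℕ) :
    ∀ (T : Gr X), (∀ m : Deg X, m.deg < -2 → Subsingleton (T.obj.obj m)) →
      (∀ m : Deg X, -2 + (j : ℤ) ≤ m.deg → Subsingleton (T.obj.obj m)) →
      ∀ e : Ext T Y k, e = 0 := by
  induction j with
  | zero =>
    intro T h1 h2 e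
    refine ext_of_isZero ((isZero_iff_subsingleton T).2 fun m => ?_) k e
    by_cases hm : m.deg < -2
    · exact h1 m hm
    · exact h2 m (by push_cast; omega)
  | succ j ih =>
    obtain ⟨N, hN⟩ : ∃ N : ℤ, -N = -2 + (j : ℤ) := ⟨2 - j, by ring⟩
    have key : ∀ (r : ℕ) (T : Gr X), Module.finrank ℂ (T.obj.obj ⟨-N⟩) ≤ r →
        (∀ m : Deg X, m.deg < -2 → Subsingleton (T.obj.obj m)) →
        (∀ m : Deg X, -2 + ((j + 1 : ℕ) : ℤ) ≤ m.deg → Subsingleton (T.obj.obj m)) →
        ∀ e : Ext T Y k, e = 0 := by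
      intro r
      induction r with
      | zero =>
        intro T hr h1 h2 e
        refine ih T h1 (fun m hm => ?_) e
        rcases hm.eq_or_lt with h | h
        · have hm' : m = ⟨-N⟩ := by
            cases m
            exact congrArg Deg.mk (by rw [hN]; exact h.symm)
          rw [hm']
          have := gr_finite T ⟨-N⟩
          exact Module.finrank_zero_iff.1 (Nat.le_zero.1 hr)
        · exact h2 m (by push_cast; omega)
      | succ r ihr =>
        intro T hr h1 h2 e
        by_cases hs : Subsingleton (T.obj.obj ⟨-N⟩)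
        · have := gr_finite T ⟨-N⟩
          exact ihr T (by rw [Module.finrank_zero_iff.2 hs]; omega) h1 h2 e
        · obtain ⟨x, hx⟩ : ∃ x : T.obj.obj ⟨-N⟩, x ≠ 0 := by
            by_contra hne
            push Not at hne
            exact hs ⟨fun a b => by rw [hne a, hne b]⟩
          obtain ⟨ψ, hψ⟩ := exists_kG_hom N (T := T) (fun n hn => h2 n (by push_cast; omega)) x
          have hinj := kG_hom_injective N x hx ψ hψ
          have hmono : Mono ψ := gr_mono_of_injective ψ hinj
          have hS : (ShortComplex.mk ψ (cokernel.π ψ) (cokernel.condition ψ)).ShortExact :=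
            { exact := ShortComplex.exact_cokernel ψ
              mono_f := hmono
              epi_g := inferInstance }
          have hsurj : ∀ n : Deg X, Function.Surjective ((cokernel.π ψ).hom.app n).hom :=
            fun n => gr_surjective _ n
          refine ext_of_ses hS (hk N (by omega)) (ihr _ ?_ ?_ ?_) e
          · -- the dimension drops
            have hf1 := gr_finite T ⟨-N⟩
            let φ := ((cokernel.π ψ).hom.app ⟨-N⟩).hom
            have h3 := LinearMap.finrank_range_add_finrank_ker φ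
            rw [LinearMap.range_eq_top.2 (hsurj ⟨-N⟩), finrank_top] at h3
            have h4 : x ∈ LinearMap.ker φ := by
              rw [LinearMap.mem_ker]
              have h5 : x = (ψ.hom.app ⟨-N⟩).hom
                  (((geSub (-N + 1) (free X N)).π.hom.app ⟨-N⟩).hom (freeGen X N)) := by
                have h6 : ((freeHom x).hom.app ⟨-N⟩).hom (freeGen X N) = x := freeHom_gen x
                rw [← hψ] at h6
                exact h6.symm
              rw [h5]
              exact congrArg (fun χ => (χ.hom.app ⟨-N⟩).hom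
                (((geSub (-N + 1) (free X N)).π.hom.app ⟨-N⟩).hom (freeGen X N)))
                (cokernel.condition ψ)
            have h5 : 0 < Module.finrank ℂ (LinearMap.ker φ) := by
              rw [Module.finrank_pos_iff]
              exact ⟨⟨x, h4⟩, 0, fun h => hx (congrArg Subtype.val h)⟩
            change Module.finrank ℂ ((cokernel ψ).obj.obj ⟨-N⟩) ≤ r
            omega
          · intro m hm
            have := h1 m hm
            exact (hsurj m).subsingleton
          · intro m hm
            have := h2 m hm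
            exact (hsurj m).subsingleton
    intro T h1 h2 e
    exact key _ T le_rfl h1 h2 e

/-- The identity of a free module is the sum of the idempotents of the basis vectors. -/
lemma fr_id_eq_sum {ι : Type} [Fintype ι] [DecidableEq ι] (w : ι → ℤ) (q : ℤ) :
    ∃ (p : ∀ i : {i : ι // Even (w i - q)}, FrG X w q ⟶ free X ((q - w i) / 2))
      (j : ∀ i : {i : ι // Even (w i - q)}, free X ((q - w i) / 2) ⟶ FrG X w q),
      𝟙 (FrG X w q) = ∑ i, p i ≫ j i := by
  have hL : ∀ i : {i : ι // Even (w i - q)}, 2 * (-((q - w i) / 2)) + q = w i := by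
    intro i
    have := i.2.two_dvd
    omega
  let p : ∀ i : {i : ι // Even (w i - q)}, FrG X w q ⟶ free X ((q - w i) / 2) := fun i =>
    frHom (M := free X ((q - w i) / 2)) (fun i' m hm =>
      if h : i' = i.1 then
        (mkHv 1 (by
          have h2 := i.2.two_dvd
          rw [show 2 * ((⟨m⟩ : Deg X).deg - (⟨-((q - w i) / 2)⟩ : Deg X).deg) = 0 by
            change 2 * (m - -((q - w i) / 2)) = 0
            subst h
            omega]
          exact one_mem_wtA) : (⟨-((q - w i) / 2)⟩ : Deg X) ⟶ ⟨m⟩)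
      else 0)
  let j : ∀ i : {i : ι // Even (w i - q)}, free X ((q - w i) / 2) ⟶ FrG X w q := fun i =>
    freeHom (frE w q i.1 _ (hL i))
  refine ⟨p, j, fr_hom_ext fun i m hm => ?_⟩
  have hi : Even (w i - q) := ⟨m, by omega⟩
  have hsum : ((∑ i, p i ≫ j i).hom.app ⟨m⟩).hom (frE w q i m hm) =
      ∑ i', ((j i').hom.app ⟨m⟩).hom (((p i').hom.app ⟨m⟩).hom (frE w q i m hm)) := by
    let A : (FrG X w q ⟶ FrG X w q) →+ (FrG X w q).obj.obj ⟨m⟩ :=
      { toFun φ := (φ.hom.app ⟨m⟩).hom (frE w q i m hm)
        map_zero' := rfl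
        map_add' _ _ := rfl }
    exact map_sum A (fun i => p i ≫ j i) Finset.univ
  rw [hsum, Finset.sum_eq_single ⟨i, hi⟩]
  · rw [frHom_frE, dif_pos rfl]
    apply frVal_injective
    change Pi.single i 1 = (1 : X.A) • (Pi.single i 1 : ι → X.A)
    rw [one_smul]
  · intro i' _ hi'
    have hne : ¬ i = i'.1 := fun h => hi' (Subtype.ext h.symm)
    rw [frHom_frE, dif_neg hne]
    exact map_zero _
  · intro h
    exact absurd (Finset.mem_univ _) h

end general

variable {f : Pol 5} (hf : f.IsHomogeneous 3)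

theorem finLen_ext_free (hc : f.coeff (Finsupp.single 5 3) ≠ 0) {T : Gr (cubic f hf)}
    (hT : finLen _ T) (hT2 : ∀ m : Deg (cubic f hf), m.deg < -2 → Subsingleton (T.obj.obj m))
    (L : ℤ) (hL : 0 ≤ L) (k : ℕ) (e : Ext T (free _ L) k) : e = 0 := by
  obtain ⟨n₀, hn₀⟩ := hT
  exact devissage k (fun N hN e => kG_ext hf hc N L (by omega) k e) (n₀ + 2).toNat T hT2
    (fun m hm => hn₀ m (by omega)) e

theorem finLen_ext (hc : f.coeff (Finsupp.single 5 3) ≠ 0) {T : Gr (cubic f hf)}
    (hT : finLen _ T) (hT2 : ∀ m : Deg (cubic f hf), m.deg < -2 → Subsingleton (T.obj.obj m))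
    {ι : Type} [Fintype ι] (w : ι → ℤ) (q : ℤ) (hw : ∀ i, w i ≤ q) (k : ℕ)
    (e : Ext T (FrG (cubic f hf) w q) k) : e = 0 := by
  classical
  obtain ⟨p, j, h⟩ := fr_id_eq_sum (X := cubic f hf) w q
  rw [← Ext.comp_mk₀_id e, h, Ext.mk₀_sum, Ext.comp_sum]
  refine Finset.sum_eq_zero fun i _ => ?_
  rw [← Ext.mk₀_comp_mk₀, ← Ext.comp_assoc_of_second_deg_zero,
    finLen_ext_free hf hc hT hT2 _ (by have := hw i.1; omega) k (e.comp (Ext.mk₀ (p i)) _),
    Ext.zero_comp]

end H24.Ku
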