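import Pool.Agent.H24.Ku.Ev

/-!
# Graded free modules in the weight convention

The coordinates have weight `2`. For a finite type `ι`, weights `w : ι → ℤ` and `q : ℤ`, the
graded module `FrG X w q` has the degree `m` part
`{v : ι → A | v i has weight 2 * m + q - w i}`: it is the direct sum of the `A(-n_i)` with
`n_i = (w i - q) / 2` over the `i` with `w i - q` even.
-/

open CategoryTheory CategoryTheory.Limits MvPolynomial

noncomputable section

namespace H24.Ku

/-- The polynomials of weight `q`, where each variable has weight `2`. -/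
def wt (N : ℕ) (q : ℤ) : Submodule ℂ (Pol N) where
  carrier := {p | ∀ m ∈ p.support, 2 * (m.degree : ℤ) = q}
  zero_mem' := by simp
  add_mem' := by
    intro p q hp hq m hm
    rcases Finset.mem_union.1 (MvPolynomial.support_add hm) with h | h
    · exact hp m h
    · exact hq m h
  smul_mem' := by
    intro c p hp m hm
    exact hp m (MvPolynomial.support_smul hm)

lemma mem_wt {N : ℕ} {q : ℤ} {p : Pol N} :
    p ∈ wt N q ↔ ∀ m ∈ p.support, 2 * (m.degree : ℤ) = q := Iff.rfl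

lemma wt_two_mul (N : ℕ) (d : ℤ) : wt N (2 * d) = homog N d := by
  ext p
  refine forall_congr' fun m => forall_congr' fun _ => ?_
  constructor <;> intro h <;> omega

lemma one_mem_wt (N : ℕ) : (1 : Pol N) ∈ wt N 0 := by
  have := wt_two_mul N 0
  rw [mul_zero] at this
  rw [this]
  exact one_mem_homog N

lemma mul_mem_wt {N : ℕ} {d e : ℤ} {p q : Pol N} (hp : p ∈ wt N d) (hq : q ∈ wt N e) :
    p * q ∈ wt N (d + e) := by
  classical
  intro m hm
  obtain ⟨a, ha, b, hb, rfl⟩ := Finset.mem_add.1 (MvPolynomial.support_mul p q hm)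
  rw [← hp a ha, ← hq b hb, map_add]
  push_cast
  ring

lemma eq_zero_of_mem_wt {N : ℕ} {q : ℤ} {p : Pol N} (hp : p ∈ wt N q) (hq : ¬ Even q) : p = 0 := by
  by_contra h
  obtain ⟨m, hm⟩ := MvPolynomial.support_nonempty.2 h
  exact hq ⟨m.degree, by rw [← hp m hm]; ring⟩

lemma eq_zero_of_mem_wt_neg {N : ℕ} {q : ℤ} {p : Pol N} (hp : p ∈ wt N q) (hq : q < 0) :
    p = 0 := by
  by_contra h
  obtain ⟨m, hm⟩ := MvPolynomial.support_nonempty.2 h
  have := hp m hm
  omega

variable (X : ProjData)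

/-- The elements of weight `q` of the homogeneous coordinate ring. -/
def ProjData.wtA (q : ℤ) : Submodule ℂ X.A :=
  (wt X.N q).map (Ideal.Quotient.mkₐ ℂ X.I).toLinearMap

variable {X}

lemma mem_wtA {q : ℤ} {a : X.A} : a ∈ X.wtA q ↔ ∃ p ∈ wt X.N q, Ideal.Quotient.mk X.I p = a :=
  Iff.rfl

lemma wtA_two_mul (d : ℤ) : X.wtA (2 * d) = X.piece d := by
  rw [ProjData.wtA, wt_two_mul]; rfl

lemma one_mem_wtA : (1 : X.A) ∈ X.wtA 0 := ⟨1, one_mem_wt _, by simp⟩

lemma mul_mem_wtA {d e : ℤ} {a b : X.A} (ha : a ∈ X.wtA d) (hb : b ∈ X.wtA e) :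
    a * b ∈ X.wtA (d + e) := by
  obtain ⟨p, hp, rfl⟩ := ha
  obtain ⟨q, hq, rfl⟩ := hb
  exact ⟨p * q, mul_mem_wt hp hq, by simp⟩

lemma eq_zero_of_mem_wtA {q : ℤ} {a : X.A} (ha : a ∈ X.wtA q) (hq : ¬ Even q) : a = 0 := by
  obtain ⟨p, hp, rfl⟩ := ha
  simp [eq_zero_of_mem_wt hp hq]

lemma eq_zero_of_mem_wtA_neg {q : ℤ} {a : X.A} (ha : a ∈ X.wtA q) (hq : q < 0) : a = 0 := by
  obtain ⟨p, hp, rfl⟩ := ha
  simp [eq_zero_of_mem_wt_neg hp hq]

/-- The morphisms of `Deg X` as elements of `A`. -/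
def hv {m n : Deg X} (a : m ⟶ n) : X.A := a.1

lemma hv_mem {m n : Deg X} (a : m ⟶ n) : hv a ∈ X.wtA (2 * (n.deg - m.deg)) := by
  rw [wtA_two_mul]; exact a.2

/-- The morphism of `Deg X` given by an element of `A`. -/
def mkHv {m n : Deg X} (a : X.A) (ha : a ∈ X.wtA (2 * (n.deg - m.deg))) : m ⟶ n :=
  ⟨a, by rwa [wtA_two_mul] at ha⟩

@[simp] lemma hv_mkHv {m n : Deg X} (a : X.A) (ha : a ∈ X.wtA (2 * (n.deg - m.deg))) :
    hv (mkHv a ha) = a := rfl

@[simp] lemma hv_id (m : Deg X) : hv (𝟙 m) = 1 := rfl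

@[simp] lemma hv_comp {m n p : Deg X} (a : m ⟶ n) (b : n ⟶ p) : hv (a ≫ b) = hv a * hv b := rfl

@[simp] lemma hv_add {m n : Deg X} (a b : m ⟶ n) : hv (a + b) = hv a + hv b := rfl

@[simp] lemma hv_zero {m n : Deg X} : hv (0 : m ⟶ n) = 0 := rfl

@[simp] lemma hv_smul {m n : Deg X} (c : ℂ) (a : m ⟶ n) : hv (c • a) = c • hv a := rfl

lemma hv_ext {m n : Deg X} {a b : m ⟶ n} (h : hv a = hv b) : a = b := Subtype.ext h

variable (X)

/-- The vectors of weight `r`. -/
def frSub {ι : Type} (w : ι → ℤ) (r : ℤ) : Submodule ℂ (ι → X.A) :=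
  Submodule.pi Set.univ fun i => X.wtA (r - w i)

variable {X}

lemma mem_frSub {ι : Type} {w : ι → ℤ} {r : ℤ} {v : ι → X.A} :
    v ∈ frSub X w r ↔ ∀ i, v i ∈ X.wtA (r - w i) := by
  simp [frSub]

lemma smul_mem_frSub {ι : Type} {w : ι → ℤ} {r d : ℤ} {v : ι → X.A} (hv : v ∈ frSub X w r)
    {a : X.A} (ha : a ∈ X.wtA d) : a • v ∈ frSub X w (r + d) := by
  rw [mem_frSub] at hv ⊢
  intro i
  have := mul_mem_wtA ha (hv i)
  rwa [show d + (r - w i) = r + d - w i by ring] at this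

/-- Multiplication by a homogeneous element. -/
def frMul {ι : Type} (w : ι → ℤ) (r r' : ℤ) (a : X.A) (ha : a ∈ X.wtA (r' - r)) :
    frSub X w r →ₗ[ℂ] frSub X w r' where
  toFun v := ⟨a • v.1, by
    have := smul_mem_frSub v.2 ha
    rwa [show r + (r' - r) = r' by ring] at this⟩
  map_add' v v' := by ext1; exact smul_add a v.1 v'.1
  map_smul' c v := by ext1; exact smul_comm a c v.1

@[simp] lemma frMul_coe {ι : Type} (w : ι → ℤ) (r r' : ℤ) (a : X.A) (ha : a ∈ X.wtA (r' - r))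
    (v : frSub X w r) : (frMul w r r' a ha v).1 = a • v.1 := rfl

variable (X)

/-- The free graded module with weights `w`, as a functor. -/
def Fr {ι : Type} (w : ι → ℤ) (q : ℤ) : Deg X ⥤ ModuleCat.{0} ℂ where
  obj m := ModuleCat.of ℂ (frSub X w (2 * m.deg + q))
  map {m n} a := ModuleCat.ofHom (frMul w _ _ (hv a) (by
    have := hv_mem a
    rwa [show 2 * n.deg + q - (2 * m.deg + q) = 2 * (n.deg - m.deg) by ring]))
  map_id m := by
    ext v : 2
    exact Subtype.ext (one_smul X.A v.1)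
  map_comp {m n p} a b := by
    ext v : 2
    refine Subtype.ext ?_
    change (hv a * hv b) • v.1 = hv b • hv a • v.1
    rw [smul_smul, mul_comm]

variable {X}

/-- The underlying vector of an element of `Fr X w q`. -/
def frVal {ι : Type} {w : ι → ℤ} {q : ℤ} {n : Deg X} :
    (Fr X w q).obj n →ₗ[ℂ] (ι → X.A) := (frSub X w (2 * n.deg + q)).subtype

/-- The element of `Fr X w q` given by a vector. -/
def frMk {ι : Type} {w : ι → ℤ} {q : ℤ} {n : Deg X} (v : ι → X.A)
    (hv : ∀ i, v i ∈ X.wtA (2 * n.deg + q - w i)) : (Fr X w q).obj n :=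
  (⟨v, mem_frSub.2 hv⟩ : frSub X w (2 * n.deg + q))

@[simp] lemma frVal_frMk {ι : Type} {w : ι → ℤ} {q : ℤ} {n : Deg X} (v : ι → X.A)
    (hv : ∀ i, v i ∈ X.wtA (2 * n.deg + q - w i)) :
    frVal (frMk (w := w) (q := q) (n := n) v hv) = v := rfl

lemma frVal_injective {ι : Type} {w : ι → ℤ} {q : ℤ} {n : Deg X} :
    Function.Injective (frVal : (Fr X w q).obj n → (ι → X.A)) := Subtype.val_injective

lemma frVal_mem {ι : Type} {w : ι → ℤ} {q : ℤ} {n : Deg X} (v : (Fr X w q).obj n) (i : ι) :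
    frVal v i ∈ X.wtA (2 * n.deg + q - w i) := mem_frSub.1 v.2 i

@[simp] lemma frVal_map {ι : Type} (w : ι → ℤ) (q : ℤ) {m n : Deg X} (a : m ⟶ n)
    (v : (Fr X w q).obj m) : frVal (((Fr X w q).map a).hom v) = hv a • frVal v := rfl

instance {ι : Type} (w : ι → ℤ) (q : ℤ) : (Fr X w q).Additive where
  map_add {m n a b} := by
    ext v : 2
    exact Subtype.ext (add_smul (hv a) (hv b) v.1)

instance {ι : Type} (w : ι → ℤ) (q : ℤ) : (Fr X w q).Linear ℂ where
  map_smul {m n} a c := by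
    ext v : 2
    exact Subtype.ext (smul_assoc c (hv a) v.1)

/-- The basis vector `e i`, in the degree `m` with `2 * m + q = w i`. -/
def frE {ι : Type} [DecidableEq ι] (w : ι → ℤ) (q : ℤ) (i : ι) (m : ℤ) (hm : 2 * m + q = w i) :
    (Fr X w q).obj ⟨m⟩ :=
  frMk (Pi.single i 1) (by
    intro j
    by_cases hj : j = i
    · subst hj
      rw [Pi.single_eq_same, hm, sub_self]
      exact one_mem_wtA
    · rw [Pi.single_eq_of_ne hj]
      exact Submodule.zero_mem _)

@[simp] lemma frVal_frE {ι : Type} [DecidableEq ι] (w : ι → ℤ) (q : ℤ) (i : ι) (m : ℤ)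
    (hm : 2 * m + q = w i) : frVal (frE (X := X) w q i m hm) = Pi.single i 1 := rfl

/-- Every element of `Fr X w q` is a combination of the basis vectors. -/
lemma fr_eq_sum {ι : Type} [Fintype ι] [DecidableEq ι] (w : ι → ℤ) (q : ℤ) (n : Deg X)
    (v : (Fr X w q).obj n) :
    ∃ a : ∀ i : {i : ι // Even (w i - q)}, (⟨(w i - q) / 2⟩ : Deg X) ⟶ n,
      (∀ i, hv (a i) = frVal v i.1) ∧
      v = ∑ i, ((Fr X w q).map (a i)).hom (frE w q i.1 ((w i - q) / 2) (by
        have := i.2.two_dvd; omega)) := by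
  refine ⟨fun i => mkHv (frVal v i.1) (by
    have := frVal_mem v i.1
    have h2 := i.2.two_dvd
    rwa [show 2 * (n.deg - (w i - q) / 2) = 2 * n.deg + q - w i by omega]), fun i => rfl, ?_⟩
  apply frVal_injective
  rw [map_sum]
  funext j
  rw [Finset.sum_apply]
  by_cases hj : Even (w j - q)
  · rw [Finset.sum_eq_single ⟨j, hj⟩]
    · rw [frVal_map, frVal_frE]
      simp
    · intro i _ hi
      rw [frVal_map, frVal_frE, Pi.smul_apply, Pi.single_eq_of_ne, smul_zero]
      rintro rfl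
      exact hi rfl
    · intro h
      exact absurd (Finset.mem_univ _) h
  · rw [Finset.sum_eq_zero]
    · refine eq_zero_of_mem_wtA (frVal_mem v j) ?_
      intro h
      apply hj
      have h2 := h.two_dvd
      rw [even_iff_two_dvd]
      omega
    · intro i _
      rw [frVal_map, frVal_frE, Pi.smul_apply, Pi.single_eq_of_ne, smul_zero]
      rintro rfl
      exact hj i.2

lemma fr_fg {ι : Type} [Fintype ι] (w : ι → ℤ) (q : ℤ) : FG X (Fr X w q) := by
  classical
  let e := (Fintype.equivFin {i : ι // Even (w i - q)}).symm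
  refine ⟨Fintype.card {i : ι // Even (w i - q)}, fun k => ⟨(w (e k).1 - q) / 2⟩,
    fun k => frE w q (e k).1 _ (by have := (e k).2.two_dvd; omega), fun n y => ?_⟩
  obtain ⟨a, -, ha⟩ := fr_eq_sum w q n y
  refine ⟨fun k => a (e k), ?_⟩
  conv_lhs => rw [ha]
  exact (Equiv.sum_comp e _).symm

variable (X)

/-- The free graded module with weights `w`: the degree `m` part is
`{v : ι → A | v i has weight 2 * m + q - w i}`. -/
def FrG {ι : Type} [Fintype ι] (w : ι → ℤ) (q : ℤ) : Gr X :=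
  ⟨Fr X w q, inferInstance, inferInstance, fr_fg w q⟩

end H24.Ku
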