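import Pool.Agent.H27.Orl.NullR

/-!
# KUD-10 HomExt: vanishing of `Ext` and vanishing of morphisms in the derived category

`hom_single_eq_zero`: `i < 0`: `((singleFunctor C 0).obj Y)⟦i⟧` is `≥ -i > 0` and `(singleFunctor C 0).obj T`
is `≤ 0` for the canonical t-structure (`TStructure.t.zero`, instances in
`Mathlib/Algebra/Homology/DerivedCategory/TStructure.lean`, `TStructure.t.isGE_shift`). `i = n ≥ 0`:
`Abelian.Ext.homEquiv` (`Ext X Y n ≃ ShiftedHom ((singleFunctor C 0).obj X) ((singleFunctor C 0).obj Y) (n:ℤ)`).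

`hom_eq_zero_of_ext`: let `R : ProjectiveResolution T` (`ProjectiveResolution.of T`, Mathlib
`CategoryTheory/Abelian/Projective/Ext.lean`, `.../Extend.lean`): `R.cochainComplex` is K-projective
with a quasi-isomorphism to `(CochainComplex.singleFunctor C 0).obj T`. So it is enough to show that
every morphism of complexes `φ : R.cochainComplex ⟶ Y⟦i⟧` is null-homotopic
(`CochainComplex.IsKProjective.Qh_map_bijective`, `DerivedCategory.Q.commShiftIso`,
`quotientCompQhIso`). Use `nonempty_homotopy_zero_right` (KUD-1): `(Y⟦i⟧).X n = Y.X (n + i)` is zero for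
`n < n₀ - i`, so `φ.f n = 0` there. Extension condition in degree `n`, `g : K.X n ⟶ Y.X (n + i)` with
`K.d (n-1) n ≫ g = 0` (`K = R.cochainComplex`): `n > 0`: `K.X n` is zero. `n = 0`: `g` factors through
the epi `K.X 0 ⟶ T`, i.e. through a morphism `T ⟶ Y.X i`, which is `0` because
`Ext T (Y.X i) 0 ≃ (T ⟶ Y.X i)`; so `g = 0`. `n = -m`, `m > 0`: `g` gives a class
`R.extMk g ..` in `Ext T (Y.X _) m`, which is zero, so by `R.extMk_eq_zero_iff` it extends.
-/

open CategoryTheory CategoryTheory.Limits CategoryTheory.Abelian DerivedCategory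

namespace H24.Ku

universe w' w v u

variable {C : Type u} [Category.{v} C] [Abelian C] [HasDerivedCategory.{w} C] [HasExt.{w'} C]

theorem hom_single_eq_zero {T Y : C} (h : ∀ (n : ℕ) (x : Ext T Y n), x = 0) (i : ℤ)
    (φ : (singleFunctor C 0).obj T ⟶ ((singleFunctor C 0).obj Y)⟦i⟧) : φ = 0 := by
  rcases lt_or_ge i 0 with hi | hi
  · have h1 : TStructure.t.IsGE (((singleFunctor C 0).obj Y)⟦i⟧) (-i) :=
      TStructure.t.isGE_shift _ 0 i (-i) (by lia)
    exact TStructure.t.zero φ 0 (-i) (by lia)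
  · obtain ⟨n, rfl⟩ := Int.eq_ofNat_of_zero_le hi
    obtain ⟨α, hα⟩ := (Ext.homEquiv (X := T) (Y := Y) (n := n)).surjective φ
    rw [h n α] at hα
    exact hα.symm.trans (Ext.zero_hom T Y n)

/-- A morphism from a projective resolution in degree `n` which is killed by the incoming
differential extends along the outgoing differential, if the `Ext` groups vanish. -/
theorem homExt_extends {T : C} (R : ProjectiveResolution T) {W : C}
    (h : ∀ (n : ℕ) (x : Ext T W n), x = 0) (n : ℤ) (g : R.cochainComplex.X n ⟶ W)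
    (hg : R.cochainComplex.d (n - 1) n ≫ g = 0) :
    ∃ k : R.cochainComplex.X (n + 1) ⟶ W, R.cochainComplex.d n (n + 1) ≫ k = g := by
  rcases lt_or_ge 0 n with hn | hn
  · exact ⟨0, (CochainComplex.isZero_of_isStrictlyLE R.cochainComplex 0 n hn).eq_of_src _ _⟩
  · obtain ⟨m, rfl⟩ := Int.exists_eq_neg_ofNat hn
    let z := CochainComplex.HomComplex.Cocycle.toSingleMk (q := 0) (n := (m : ℤ)) g (by lia)
      (-(m : ℤ) - 1) (by lia) hg
    have h1 : CochainComplex.HomComplex.CohomologyClass.mk z = 0 := by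
      have h2 := h m (R.extEquivCohomologyClass.symm (.mk z))
      rw [Equiv.symm_apply_eq] at h2
      rw [h2, ProjectiveResolution.extEquivCohomologyClass_zero]
    rw [CochainComplex.HomComplex.CohomologyClass.mk_eq_zero_iff] at h1
    exact (CochainComplex.HomComplex.Cocycle.toSingleMk_mem_coboundaries_iff g (by lia)
      (-(m : ℤ) - 1) (by lia) hg (-(m : ℤ) + 1) rfl).1 h1

theorem homExt_Q_eq_zero {K L : CochainComplex C ℤ} [K.IsKProjective]
    (h : ∀ f : K ⟶ L, Nonempty (Homotopy f 0)) (ψ : Q.obj K ⟶ Q.obj L) : ψ = 0 := by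
  let θ : Qh.obj ((HomotopyCategory.quotient _ _).obj K) ⟶
      Qh.obj ((HomotopyCategory.quotient _ _).obj L) :=
    (quotientCompQhIso C).hom.app K ≫ ψ ≫ (quotientCompQhIso C).inv.app L
  obtain ⟨g, hg⟩ := (CochainComplex.IsKProjective.Qh_map_bijective K _).surjective θ
  obtain ⟨f, rfl⟩ := (HomotopyCategory.quotient C (ComplexShape.up ℤ)).map_surjective g
  obtain ⟨H⟩ := h f
  rw [HomotopyCategory.eq_of_homotopy f 0 H, Functor.map_zero, Functor.map_zero] at hg
  have h2 : (quotientCompQhIso C).hom.app K ≫ ψ ≫ (quotientCompQhIso C).inv.app L = 0 := hg.symm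
  have h3 : ψ ≫ (quotientCompQhIso C).inv.app L = 0 :=
    (cancel_epi ((quotientCompQhIso C).hom.app K)).1 (h2.trans comp_zero.symm)
  exact (cancel_mono ((quotientCompQhIso C).inv.app L)).1 (h3.trans zero_comp.symm)

theorem hom_eq_zero_of_ext [EnoughProjectives C] {T : C} (Y : CochainComplex C ℤ) (n₀ : ℤ)
    (hY : Y.IsStrictlyGE n₀) (h : ∀ (k : ℤ) (n : ℕ) (x : Ext T (Y.X k) n), x = 0) (i : ℤ)
    (φ : (singleFunctor C 0).obj T ⟶ (Q.obj Y)⟦i⟧) : φ = 0 := by
  let R := ProjectiveResolution.of T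
  have key : ∀ f : R.cochainComplex ⟶ Y⟦i⟧, Nonempty (Homotopy f 0) := by
    intro f
    refine nonempty_homotopy_zero_right f (n₀ - i) ?_ ?_
    · intro n hn
      have hz : IsZero (Y.X (n + i)) := CochainComplex.isZero_of_isStrictlyGE Y n₀ (n + i) (by lia)
      exact hz.eq_of_tgt _ _
    · intro n _ g hg
      exact homExt_extends R (W := Y.X (n + i)) (h (n + i)) n g hg
  have hψ := homExt_Q_eq_zero key
    (Q.map R.π' ≫ (singleFunctorIsoCompQ C 0).inv.app T ≫ φ ≫ (Q.commShiftIso i).inv.app Y)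
  have e1 : (singleFunctorIsoCompQ C 0).inv.app T ≫ φ ≫ (Q.commShiftIso i).inv.app Y = 0 :=
    (cancel_epi (Q.map R.π')).1 (hψ.trans comp_zero.symm)
  have e2 : φ ≫ (Q.commShiftIso i).inv.app Y = 0 :=
    (cancel_epi ((singleFunctorIsoCompQ C 0).inv.app T)).1 (e1.trans comp_zero.symm)
  exact (cancel_mono ((Q.commShiftIso i).inv.app Y)).1 (e2.trans zero_comp.symm)

end H24.Ku
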