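import Pool.Agent.H27.Orl.BsExt

/-!
# KUD-15 KExt: `Ext (k(N), A(L)) = 0` for `N ≤ L + 2`

`kG X N = k(N)`: the residue field in degree `-N`, defined as `ltG X (-N + 1) (free X N)`.
Write `B N = Bs hf {0,1,2,3,4} N`: one dimensional in the degrees `-N, -N+1, -N+2` (basis `1, x_5,
x_5^2`: `Js_full_rep`, `Js_full_ne`, `Js_full_top`), zero in all others (`deg_hom_eq_zero`).

(1) exact sequences `0 → G → B N → kG N → 0` with `G = (geF X (-N+1)).obj (B N)`
(`(geSub _ _).ses_shortExact`, and `ltG (-N+1) (B N) ≅ kG N` induced by `A(N) ⟶ B N`) and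
`0 → kG (N-3) → B (N-1) → G → 0`, where `B (N-1) ⟶ G` is induced by
`freeHom`: the generator (degree `-N+1`) goes to the class of `x_5` (well defined: `x_5 J ⊆ J`), its
kernel is the part of degree `-N+3` of `B (N-1)`, isomorphic to `kG (N-3)`.
(2) induction on `k` for all `N ≤ L + 2` at once: `k = 0`: `Hom(kG N, A(L)) ⊆ Hom(B N, A(L)) = 0`.
`k = 1`: `Ext (B N) _ 1 = 0` so `e` comes from `Hom(G, A(L)) ⊆ Hom(B (N-1), A(L)) = 0`
(`Ext.contravariant_sequence_exact₃`). `k + 2`: `e` comes from `Ext G (A(L)) (k+1)`, whose image in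
`Ext (B (N-1)) (A(L)) (k+1) = 0` vanishes, so it comes from `Ext (kG (N-3)) (A(L)) k`, which is zero by
induction (`N - 3 ≤ L + 2`). All `Ext (B _) (A(L)) _ = 0` by `bs_ext`.
(If it is more convenient, first prove the existence of the two short exact sequences as separate
lemmas.)
-/

open CategoryTheory CategoryTheory.Limits MvPolynomial KuMF CategoryTheory.Abelian

set_option backward.isDefEq.respectTransparency false

noncomputable section

namespace H24.Ku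

/-- The residue field `k(N)`, in degree `-N`. -/
def kG (X : ProjData) (N : ℤ) : Gr X := ltG X (-N + 1) (free X N)

variable {f : Pol 5} (hf : f.IsHomogeneous 3)

namespace KExtAux

lemma piece_zero {X : ProjData} {a : X.A} (ha : a ∈ X.piece 0) : ∃ c : ℂ, a = c • (1 : X.A) := by
  obtain ⟨p, hp, rfl⟩ := ha
  refine ⟨p.coeff 0, ?_⟩
  have h1 : p = MvPolynomial.C (p.coeff 0) := by
    ext m
    rw [MvPolynomial.coeff_C]
    split_ifs with h
    · rw [← h]
    · by_contra hne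
      have h2 := hp m (MvPolynomial.mem_support_iff.2 hne)
      apply h
      have h3 : m.degree = 0 := by exact_mod_cast h2
      exact ((Finsupp.degree_eq_zero_iff m).1 h3).symm
  have h4 : (Ideal.Quotient.mkₐ ℂ X.I).toLinearMap p =
      (Ideal.Quotient.mkₐ ℂ X.I) (MvPolynomial.C (p.coeff 0)) := by
    rw [← h1]; rfl
  rw [h4, ← MvPolynomial.algebraMap_eq, AlgHom.commutes, Algebra.algebraMap_eq_smul_one]

lemma val_mem {X : ProjData} {m n : Deg X} (a : m ⟶ n) {d : ℤ} (h : n.deg - m.deg = d) :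
    a.1 ∈ X.piece d := by
  obtain ⟨z, hz⟩ := a
  change z ∈ X.piece d
  rwa [h] at hz

lemma xc_pow_mem (e : ℕ) : xc hf 5 ^ e ∈ (cubic f hf).piece (e : ℤ) := by
  induction e with
  | zero => rw [pow_zero]; exact ProjData.one_mem_piece
  | succ e ih =>
    rw [pow_succ]
    have := ProjData.mul_mem_piece ih (xc_mem hf 5)
    push_cast
    exact this

/-- the power of `x_5` as a morphism -/
def pw (m n : Deg (cubic f hf)) (e : ℕ) (h : n.deg - m.deg = e) : m ⟶ n :=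
  ⟨xc hf 5 ^ e, by rw [h]; exact xc_pow_mem hf e⟩

lemma pw_val (m n : Deg (cubic f hf)) (e : ℕ) (h : n.deg - m.deg = e) :
    (pw hf m n e h).1 = xc hf 5 ^ e := rfl

lemma comp_val {m n p : Deg (cubic f hf)} (a : m ⟶ n) (b : n ⟶ p) : (a ≫ b).1 = a.1 * b.1 := rfl

lemma smul_val {m n : Deg (cubic f hf)} (c : ℂ) (a : m ⟶ n) : (c • a).1 = c • a.1 := rfl

lemma sub_val {m n : Deg (cubic f hf)} (a b : m ⟶ n) : (a - b).1 = a.1 - b.1 := rfl

/-- the class of a homogeneous element -/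
def cl (N : ℤ) {m : Deg (cubic f hf)} (a : (⟨-N⟩ : Deg (cubic f hf)) ⟶ m) :
    (Bs hf {0, 1, 2, 3, 4} N).obj.obj m := ((bsSub hf {0, 1, 2, 3, 4} N).π.hom.app m).hom a

lemma cl_surj (N : ℤ) (m : Deg (cubic f hf)) (y : (Bs hf {0, 1, 2, 3, 4} N).obj.obj m) :
    ∃ a : (⟨-N⟩ : Deg (cubic f hf)) ⟶ m, cl hf N a = y :=
  (bsSub hf {0, 1, 2, 3, 4} N).π_surjective m y

lemma cl_eq_zero_iff (N : ℤ) {m : Deg (cubic f hf)} (a : (⟨-N⟩ : Deg (cubic f hf)) ⟶ m) :
    cl hf N a = 0 ↔ a.1 ∈ Js hf {0, 1, 2, 3, 4} :=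
  (bsSub hf {0, 1, 2, 3, 4} N).π_eq_zero_iff m a

lemma cl_map (N : ℤ) {m n : Deg (cubic f hf)} (a : (⟨-N⟩ : Deg (cubic f hf)) ⟶ m) (b : m ⟶ n) :
    ((Bs hf {0, 1, 2, 3, 4} N).obj.map b).hom (cl hf N a) = cl hf N (a ≫ b) :=
  (gr_naturality (bsSub hf {0, 1, 2, 3, 4} N).π b a).symm

lemma cl_sub (N : ℤ) {m : Deg (cubic f hf)} (a b : (⟨-N⟩ : Deg (cubic f hf)) ⟶ m) :
    cl hf N (a - b) = cl hf N a - cl hf N b :=
  map_sub ((bsSub hf {0, 1, 2, 3, 4} N).π.hom.app m).hom _ _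

lemma cl_eq_iff (N : ℤ) {m : Deg (cubic f hf)} (a b : (⟨-N⟩ : Deg (cubic f hf)) ⟶ m) :
    cl hf N a = cl hf N b ↔ a.1 - b.1 ∈ Js hf {0, 1, 2, 3, 4} := by
  rw [← sub_eq_zero, ← cl_sub, cl_eq_zero_iff, sub_val]

/-- every class is a multiple of a power of `x_5` -/
lemma rep (N : ℤ) {m : Deg (cubic f hf)} (a : (⟨-N⟩ : Deg (cubic f hf)) ⟶ m) (e : ℕ)
    (h : m.deg - (⟨-N⟩ : Deg (cubic f hf)).deg = e) :
    ∃ c : ℂ, a.1 - c • xc hf 5 ^ e ∈ Js hf {0, 1, 2, 3, 4} := by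
  exact Js_full_rep hf e a.1 (val_mem a h)

lemma smul_mem_Js {c : ℂ} (hc : c ≠ 0) {a : (cubic f hf).A} (h : c • a ∈ Js hf {0, 1, 2, 3, 4}) :
    a ∈ Js hf {0, 1, 2, 3, 4} := by
  have h1 : a = algebraMap ℂ (cubic f hf).A c⁻¹ * (c • a) := by
    rw [← Algebra.smul_def, smul_smul, inv_mul_cancel₀ hc, one_smul]
  rw [h1]
  exact (Js hf _).mul_mem_left _ h

lemma smul_pow_ne {c : ℂ} {e : ℕ} (he : e ≤ 2) (h : c • xc hf 5 ^ e ∈ Js hf {0, 1, 2, 3, 4}) :
    c = 0 := by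
  by_contra hc
  exact Js_full_ne hf e he (smul_mem_Js hf hc h)

lemma low_zero (N : ℤ) {n : Deg (cubic f hf)} (x : (⟨-N⟩ : Deg (cubic f hf)) ⟶ n)
    (hn : n.deg ≤ -N) (hx : x.1 ∈ Js hf {0, 1, 2, 3, 4}) : x = 0 := by
  rcases lt_or_eq_of_le hn with h | h
  · exact deg_hom_eq_zero x h
  · have h1 : x.1 ∈ (cubic f hf).piece 0 := val_mem x (by
      change n.deg - -N = 0
      omega)
    obtain ⟨c, hc⟩ := piece_zero h1
    rw [hc] at hx
    have h3 : c = 0 := smul_pow_ne hf (e := 0) (by norm_num) (by rwa [pow_zero])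
    apply Subtype.ext
    rw [hc, h3, zero_smul]
    rfl

/-- the part of degree `> -N` of `B N` -/
def GG (N : ℤ) : Gr (cubic f hf) := (geSub (-N + 1) (Bs hf {0, 1, 2, 3, 4} N)).sub

lemma exists_first (N : ℤ) : ∃ b : Bs hf {0, 1, 2, 3, 4} N ⟶ kG (cubic f hf) N,
    (bsSub hf {0, 1, 2, 3, 4} N).π ≫ b = (geSub (-N + 1) (free (cubic f hf) N)).π := by
  apply GrSub.exists_desc
  intro n x hx
  refine ((geSub (-N + 1) (free (cubic f hf) N)).π_eq_zero_iff n x).2 ?_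
  by_cases hn : -N + 1 ≤ n.deg
  · rw [geSub_of_le hn]; trivial
  · rw [geSub_of_lt (by omega), Submodule.mem_bot]
    exact low_zero hf N x (by omega) hx

lemma first_apply {N : ℤ} {b : Bs hf {0, 1, 2, 3, 4} N ⟶ kG (cubic f hf) N}
    (hb : (bsSub hf {0, 1, 2, 3, 4} N).π ≫ b = (geSub (-N + 1) (free (cubic f hf) N)).π)
    {m : Deg (cubic f hf)} (a : (⟨-N⟩ : Deg (cubic f hf)) ⟶ m) :
    (b.hom.app m).hom (cl hf N a) = ((geSub (-N + 1) (free (cubic f hf) N)).π.hom.app m).hom a :=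
  congrArg (fun φ : free (cubic f hf) N ⟶ kG (cubic f hf) N => (φ.hom.app m).hom a) hb

lemma first_ses {N : ℤ} {b : Bs hf {0, 1, 2, 3, 4} N ⟶ kG (cubic f hf) N}
    (hb : (bsSub hf {0, 1, 2, 3, 4} N).π ≫ b = (geSub (-N + 1) (free (cubic f hf) N)).π) :
    ∃ w : (geSub (-N + 1) (Bs hf {0, 1, 2, 3, 4} N)).ι ≫ b = 0,
      (ShortComplex.mk (geSub (-N + 1) (Bs hf {0, 1, 2, 3, 4} N)).ι b w).ShortExact := by
  have w : (geSub (-N + 1) (Bs hf {0, 1, 2, 3, 4} N)).ι ≫ b = 0 := by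
    apply gr_hom_ext
    intro n z
    by_cases hn : -N + 1 ≤ n.deg
    · have : Subsingleton ((kG (cubic f hf) N).obj.obj n) := ltG_subsingleton _ hn
      exact Subsingleton.elim _ _
    · have : Subsingleton ((geSub (-N + 1) (Bs hf {0, 1, 2, 3, 4} N)).sub.obj.obj n) :=
        geF_subsingleton _ (by omega)
      have hz : z = 0 := Subsingleton.elim _ _
      rw [hz, map_zero, map_zero]
  refine ⟨w, ?_⟩
  have hepi : Epi b := by
    have h1 : Epi ((bsSub hf {0, 1, 2, 3, 4} N).π ≫ b) := by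
      rw [hb]; infer_instance
    exact epi_of_epi (bsSub hf {0, 1, 2, 3, 4} N).π b
  refine { exact := ?_, mono_f := inferInstanceAs (Mono (GrSub.ι _)), epi_g := hepi }
  rw [exact_iff]
  intro m x hx
  by_cases hm : -N + 1 ≤ m.deg
  · refine ⟨⟨x, ?_⟩, rfl⟩
    rw [geSub_of_le hm]; trivial
  · obtain ⟨a, rfl⟩ := cl_surj hf N m x
    have h1 := (first_apply hf hb a).symm.trans hx
    rw [GrSub.π_eq_zero_iff, geSub_of_lt (by omega), Submodule.mem_bot] at h1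
    refine ⟨0, ?_⟩
    rw [map_zero]
    exact (congrArg (cl hf N) h1 |>.trans
      (map_zero ((bsSub hf {0, 1, 2, 3, 4} N).π.hom.app m).hom)).symm

/-- the generator of `GG` -/
def gen (N : ℤ) : (GG hf N).obj.obj ⟨-(N - 1)⟩ :=
  ⟨cl hf N (pw hf ⟨-N⟩ ⟨-(N - 1)⟩ 1 (by change -(N - 1) - -N = ((1 : ℕ) : ℤ); push_cast; ring)), by
    rw [geSub_of_le (by change -N + 1 ≤ -(N - 1); omega)]
    trivial⟩

lemma freeHom_gen_val (N : ℤ) {m : Deg (cubic f hf)}
    (a : (⟨-(N - 1)⟩ : Deg (cubic f hf)) ⟶ m) :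
    (((freeHom (gen hf N)).hom.app m).hom a).1 =
      cl hf N (pw hf ⟨-N⟩ ⟨-(N - 1)⟩ 1
        (by change -(N - 1) - -N = ((1 : ℕ) : ℤ); push_cast; ring) ≫ a) :=
  cl_map hf N _ a

lemma exists_d (N : ℤ) : ∃ d : Bs hf {0, 1, 2, 3, 4} (N - 1) ⟶ GG hf N,
    (bsSub hf {0, 1, 2, 3, 4} (N - 1)).π ≫ d = freeHom (gen hf N) := by
  apply GrSub.exists_desc
  intro n x hx
  apply Subtype.ext
  refine (freeHom_gen_val hf N x).trans ?_
  refine (cl_eq_zero_iff hf N _).2 ?_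
  rw [comp_val]
  exact (Js hf _).mul_mem_left _ hx

lemma d_apply {N : ℤ} {d : Bs hf {0, 1, 2, 3, 4} (N - 1) ⟶ GG hf N}
    (hd : (bsSub hf {0, 1, 2, 3, 4} (N - 1)).π ≫ d = freeHom (gen hf N))
    {m : Deg (cubic f hf)} (a : (⟨-(N - 1)⟩ : Deg (cubic f hf)) ⟶ m) :
    ((d.hom.app m).hom (cl hf (N - 1) a)).1 =
      cl hf N (pw hf ⟨-N⟩ ⟨-(N - 1)⟩ 1
        (by change -(N - 1) - -N = ((1 : ℕ) : ℤ); push_cast; ring) ≫ a) :=
  (congrArg (fun φ : free (cubic f hf) (N - 1) ⟶ GG hf N => ((φ.hom.app m).hom a).1) hd).trans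
    (freeHom_gen_val hf N a)

/-- the element `x_5^2` of `B (N - 1)` -/
def sq (N : ℤ) : (Bs hf {0, 1, 2, 3, 4} (N - 1)).obj.obj ⟨-(N - 3)⟩ :=
  cl hf (N - 1) (pw hf ⟨-(N - 1)⟩ ⟨-(N - 3)⟩ 2
    (by change -(N - 3) - -(N - 1) = ((2 : ℕ) : ℤ); push_cast; ring))

lemma freeHom_sq (N : ℤ) {m : Deg (cubic f hf)}
    (a : (⟨-(N - 3)⟩ : Deg (cubic f hf)) ⟶ m) :
    ((freeHom (sq hf N)).hom.app m).hom a =
      cl hf (N - 1) (pw hf ⟨-(N - 1)⟩ ⟨-(N - 3)⟩ 2
        (by change -(N - 3) - -(N - 1) = ((2 : ℕ) : ℤ); push_cast; ring) ≫ a) :=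
  cl_map hf (N - 1) _ a

lemma exists_c (hc : f.coeff (Finsupp.single 5 3) ≠ 0) (N : ℤ) :
    ∃ c : kG (cubic f hf) (N - 3) ⟶ Bs hf {0, 1, 2, 3, 4} (N - 1),
    (geSub (-(N - 3) + 1) (free (cubic f hf) (N - 3))).π ≫ c = freeHom (sq hf N) := by
  apply GrSub.exists_desc
  intro n x hx
  by_cases hn : -(N - 3) + 1 ≤ n.deg
  · have : Subsingleton ((Bs hf {0, 1, 2, 3, 4} (N - 1)).obj.obj n) :=
      Bs_zero_of_le hf hc (N - 1) n (by omega)
    exact Subsingleton.elim _ _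
  · rw [geSub_of_lt (by omega), Submodule.mem_bot] at hx
    rw [hx, map_zero]

lemma c_apply {N : ℤ} {c : kG (cubic f hf) (N - 3) ⟶ Bs hf {0, 1, 2, 3, 4} (N - 1)}
    (hcc : (geSub (-(N - 3) + 1) (free (cubic f hf) (N - 3))).π ≫ c = freeHom (sq hf N))
    {m : Deg (cubic f hf)} (a : (⟨-(N - 3)⟩ : Deg (cubic f hf)) ⟶ m) :
    (c.hom.app m).hom (((geSub (-(N - 3) + 1) (free (cubic f hf) (N - 3))).π.hom.app m).hom a) =
      cl hf (N - 1) (pw hf ⟨-(N - 1)⟩ ⟨-(N - 3)⟩ 2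
        (by change -(N - 3) - -(N - 1) = ((2 : ℕ) : ℤ); push_cast; ring) ≫ a) :=
  (congrArg (fun φ : free (cubic f hf) (N - 3) ⟶ Bs hf {0, 1, 2, 3, 4} (N - 1) =>
    (φ.hom.app m).hom a) hcc).trans (freeHom_sq hf N a)

lemma second_ses (hc : f.coeff (Finsupp.single 5 3) ≠ 0) {N : ℤ}
    {c : kG (cubic f hf) (N - 3) ⟶ Bs hf {0, 1, 2, 3, 4} (N - 1)}
    (hcc : (geSub (-(N - 3) + 1) (free (cubic f hf) (N - 3))).π ≫ c = freeHom (sq hf N))
    {d : Bs hf {0, 1, 2, 3, 4} (N - 1) ⟶ GG hf N}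
    (hd : (bsSub hf {0, 1, 2, 3, 4} (N - 1)).π ≫ d = freeHom (gen hf N)) :
    ∃ w : c ≫ d = 0, (ShortComplex.mk c d w).ShortExact := by
  have w : c ≫ d = 0 := by
    apply gr_hom_ext
    intro m z
    obtain ⟨a, rfl⟩ := (geSub (-(N - 3) + 1) (free (cubic f hf) (N - 3))).π_surjective m z
    change (d.hom.app m).hom ((c.hom.app m).hom _) = 0
    rw [c_apply hf hcc a]
    apply Subtype.ext
    rw [d_apply hf hd]
    refine (cl_eq_zero_iff hf N _).2 ?_
    rw [comp_val, comp_val, pw_val, pw_val, ← mul_assoc, ← pow_add]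
    apply Ideal.mul_mem_right
    exact Js_full_top hf hc 3 le_rfl _ (by exact_mod_cast xc_pow_mem hf (1 + 2))
  refine ⟨w, ?_⟩
  refine { exact := ?_, mono_f := ?_, epi_g := ?_ }
  · rw [exact_iff]
    intro m x hx
    change (d.hom.app m).hom x = 0 at hx
    obtain ⟨a, rfl⟩ := cl_surj hf (N - 1) m x
    have h1 := d_apply hf hd a
    rw [hx] at h1
    have h2 : (pw hf ⟨-N⟩ ⟨-(N - 1)⟩ 1
        (by change -(N - 1) - -N = ((1 : ℕ) : ℤ); push_cast; ring) ≫ a).1 ∈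
        Js hf {0, 1, 2, 3, 4} := (cl_eq_zero_iff hf N _).1 h1.symm
    rw [comp_val, pw_val, pow_one] at h2
    change ∃ y : (kG (cubic f hf) (N - 3)).obj.obj m, (c.hom.app m).hom y = cl hf (N - 1) a
    rcases lt_trichotomy (m.deg + N - 1) 2 with hlt | heq | hgt
    · -- the class of `a` is zero
      refine ⟨0, ?_⟩
      rw [map_zero, eq_comm, cl_eq_zero_iff]
      by_cases hneg : m.deg + N - 1 < 0
      · have : a = 0 := deg_hom_eq_zero a (by change m.deg < -(N - 1); omega)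
        rw [this]
        exact (Js hf _).zero_mem
      · obtain ⟨e, he⟩ := Int.eq_ofNat_of_zero_le (show 0 ≤ m.deg + N - 1 by omega)
        have he' : m.deg - (⟨-(N - 1)⟩ : Deg (cubic f hf)).deg = e := by
          change m.deg - -(N - 1) = e
          omega
        obtain ⟨c', hc'⟩ := rep hf (N - 1) a e he'
        have h3 : c' • xc hf 5 ^ (e + 1) ∈ Js hf {0, 1, 2, 3, 4} := by
          have h4 : c' • xc hf 5 ^ (e + 1) = xc hf 5 * a.1 - xc hf 5 * (a.1 - c' • xc hf 5 ^ e) := by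
            rw [pow_succ, mul_sub, sub_sub_cancel, mul_smul_comm, mul_comm (xc hf 5)]
          rw [h4]
          exact (Js hf _).sub_mem h2 ((Js hf _).mul_mem_left _ hc')
        have h5 : c' = 0 := smul_pow_ne hf (by omega) h3
        rw [h5, zero_smul, sub_zero] at hc'
        exact hc'
    · have he' : m.deg - (⟨-(N - 1)⟩ : Deg (cubic f hf)).deg = (2 : ℕ) := by
        change m.deg - -(N - 1) = ((2 : ℕ) : ℤ)
        push_cast
        omega
      obtain ⟨c', hc'⟩ := rep hf (N - 1) a 2 he'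
      refine ⟨((geSub (-(N - 3) + 1) (free (cubic f hf) (N - 3))).π.hom.app m).hom
        (c' • pw hf ⟨-(N - 3)⟩ m 0 (by change m.deg - -(N - 3) = ((0 : ℕ) : ℤ); push_cast; omega)), ?_⟩
      rw [c_apply hf hcc, cl_eq_iff, comp_val, pw_val, smul_val, pw_val, pow_zero, mul_smul_comm,
        mul_one]
      have : c' • xc hf 5 ^ 2 - a.1 = -(a.1 - c' • xc hf 5 ^ 2) := by ring
      rw [this]
      exact (Js hf _).neg_mem hc'
    · refine ⟨0, ?_⟩
      have : Subsingleton ((Bs hf {0, 1, 2, 3, 4} (N - 1)).obj.obj m) :=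
        Bs_zero_of_le hf hc (N - 1) m (by omega)
      exact Subsingleton.elim _ _
  · apply gr_mono_of_injective
    intro m
    change Function.Injective (c.hom.app m).hom
    rw [injective_iff_map_eq_zero]
    intro z hz
    by_cases hm : -(N - 3) + 1 ≤ m.deg
    · have : Subsingleton ((kG (cubic f hf) (N - 3)).obj.obj m) := ltG_subsingleton _ hm
      exact Subsingleton.elim _ _
    · obtain ⟨a, rfl⟩ := (geSub (-(N - 3) + 1) (free (cubic f hf) (N - 3))).π_surjective m z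
      have h1 := (c_apply hf hcc a).symm.trans hz
      rw [cl_eq_zero_iff, comp_val, pw_val] at h1
      have h2 : a = 0 := by
        rcases lt_or_eq_of_le (show m.deg ≤ -(N - 3) by omega) with h | h
        · exact deg_hom_eq_zero a h
        · have h3 : a.1 ∈ (cubic f hf).piece 0 :=
            val_mem (m := (⟨-(N - 3)⟩ : Deg (cubic f hf))) (n := m) a (by
              change m.deg - -(N - 3) = 0
              omega)
          obtain ⟨c', hc'⟩ := piece_zero h3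
          rw [hc', mul_smul_comm, mul_one] at h1
          have h5 : c' = 0 := smul_pow_ne hf le_rfl h1
          apply Subtype.ext
          rw [hc', h5, zero_smul]
          rfl
      rw [h2, map_zero]
  · apply gr_epi_of_surjective
    intro m z
    change ∃ y : (Bs hf {0, 1, 2, 3, 4} (N - 1)).obj.obj m, (d.hom.app m).hom y = z
    by_cases hm : -N + 1 ≤ m.deg
    · obtain ⟨a, ha⟩ := cl_surj hf N m z.1
      obtain ⟨e, he⟩ := Int.eq_ofNat_of_zero_le (show 0 ≤ m.deg + N - 1 by omega)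
      have he' : m.deg - (⟨-N⟩ : Deg (cubic f hf)).deg = ((e + 1 : ℕ) : ℤ) := by
        change m.deg - -N = ((e + 1 : ℕ) : ℤ)
        push_cast
        omega
      obtain ⟨c', hc'⟩ := rep hf N a (e + 1) he'
      refine ⟨cl hf (N - 1) (c' • pw hf ⟨-(N - 1)⟩ m e (by
        change m.deg - -(N - 1) = (e : ℤ)
        omega)), ?_⟩
      apply Subtype.ext
      rw [d_apply hf hd, ← ha, cl_eq_iff, comp_val, pw_val, smul_val, pw_val, pow_one,
        mul_smul_comm, ← pow_succ']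
      have : c' • xc hf 5 ^ (e + 1) - a.1 = -(a.1 - c' • xc hf 5 ^ (e + 1)) := by ring
      rw [this]
      exact (Js hf _).neg_mem hc'
    · have : Subsingleton ((GG hf N).obj.obj m) := geF_subsingleton _ (by omega)
      exact ⟨0, Subsingleton.elim _ _⟩

end KExtAux

open KExtAux

theorem exists_kG_ses (hc : f.coeff (Finsupp.single 5 3) ≠ 0) (N : ℤ) :
    ∃ (G : Gr (cubic f hf)) (a : G ⟶ Bs hf {0, 1, 2, 3, 4} N)
      (b : Bs hf {0, 1, 2, 3, 4} N ⟶ kG _ N) (w : a ≫ b = 0)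
      (c : kG _ (N - 3) ⟶ Bs hf {0, 1, 2, 3, 4} (N - 1))
      (d : Bs hf {0, 1, 2, 3, 4} (N - 1) ⟶ G) (w' : c ≫ d = 0),
      (ShortComplex.mk a b w).ShortExact ∧ (ShortComplex.mk c d w').ShortExact := by
  obtain ⟨b, hb⟩ := exists_first hf N
  obtain ⟨w, hw⟩ := first_ses hf hb
  obtain ⟨c, hcc⟩ := exists_c hf hc N
  obtain ⟨d, hd⟩ := exists_d hf N
  obtain ⟨w', hw'⟩ := second_ses hf hc hcc hd
  exact ⟨GG hf N, _, b, w, c, d, w', hw, hw'⟩

theorem kG_ext (hc : f.coeff (Finsupp.single 5 3) ≠ 0) (N L : ℤ) (h : N ≤ L + 2) (k : ℕ)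
    (e : Ext (kG (cubic f hf) N) (free (cubic f hf) L) k) : e = 0 := by
  induction k using Nat.strong_induction_on generalizing N with
  | _ k ih =>
    obtain ⟨G, a, b, w, c, d, w', h1, h2⟩ := exists_kG_ses hf hc N
    have hepi0 : ∀ {P Q : Gr (cubic f hf)} (p : P ⟶ Q) [Epi p]
        (x : Ext Q (free (cubic f hf) L) 0),
        (∀ y : Ext P (free (cubic f hf) L) 0, y = 0) → x = 0 := by
      intro P Q p _ x hy
      obtain ⟨φ, rfl⟩ := (Ext.mk₀_bijective Q (free (cubic f hf) L)).2 x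
      have h3 := hy (Ext.mk₀ (p ≫ φ))
      rw [Ext.mk₀_eq_zero_iff] at h3
      have h4 : φ = 0 := by rw [← cancel_epi p, h3, comp_zero]
      rw [h4, Ext.mk₀_zero]
    match k, e, ih with
    | 0, e, ih =>
      have : Epi b := h1.epi_g
      exact hepi0 b e (fun y => bs_ext hf hc N L h 0 y)
    | 1, e, ih =>
      obtain ⟨x₁, hx₁⟩ := Ext.contravariant_sequence_exact₃ h1 (Y := free (cubic f hf) L) e
        (bs_ext hf hc N L h 1 _) (n₀ := 0) rfl
      have : Epi d := h2.epi_g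
      have h3 : x₁ = 0 := hepi0 d x₁ (fun y => bs_ext hf hc (N - 1) L (by omega) 0 y)
      rw [← hx₁, h3, Ext.comp_zero]
    | k + 2, e, ih =>
      obtain ⟨x₁, hx₁⟩ := Ext.contravariant_sequence_exact₃ h1 (Y := free (cubic f hf) L) e
        (bs_ext hf hc N L h (k + 2) _) (n₀ := k + 1) (by ring)
      obtain ⟨x₂, hx₂⟩ := Ext.contravariant_sequence_exact₃ h2 (Y := free (cubic f hf) L) x₁
        (bs_ext hf hc (N - 1) L (by omega) (k + 1) _) (n₀ := k) (by ring)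
      have h3 : x₂ = 0 := ih k (by omega) (N - 3) (by omega) x₂
      rw [← hx₁, ← hx₂, h3, Ext.comp_zero, Ext.comp_zero]

end H24.Ku
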