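import Pool.Agent.H27.Orl.PEexact

/-!
# KUD-4 Null0: `phi0 α` is null-homotopic iff `α` is a coboundary

`←`: `α = MF.dm E F (0 - 3) β = F.Q * β + β * E.Q` (`(-3).negOnePow = -1`), `β ∈ MF.Hom E F (0 - 3)`.
The homotopy: `h k (k-1) := mg hf E.w F.w (3 k) (3 (k-1)) β _` (zero for other pairs of degrees);
`d ≫ h + h ≫ d = phi0` by `mg_comp` (use `Homotopy.ofEq`-like constructors, or
`HomologicalComplex` `Homotopy` structure with `dNext_eq`, `prevD_eq`, or
`CochainComplex.HomComplex.Cochain.equivHomotopy`).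
`→`: a homotopy gives `s0 : P_E^0 ⟶ P_F^(-1)`, `s1 : P_E^1 ⟶ P_F^0` with
`phi0.f 0 = d ≫ s1 + s0 ≫ d`. Write `s0`, `s1` as matrices (`exists_matG`), lift them to polynomial
matrices `S0`, `S1` of weight `-3` (`exists_red`): `red (α - F.Q * S0 - S1 * E.Q)` vanishes in the
columns `j` with `E.w j` even (`eq_of_matG_eq`). As in `Lift0`: there
`α - F.Q * S0 - S1 * E.Q = f • S = S * E.Q * E.Q` (`exists_of_red_eq_zero` for the matrix with the odd
columns replaced by `0`). `β j := if Even (E.w j) then column j of S0 else column j of S1 + S * E.Q`.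
Then `α = F.Q * β + β * E.Q` in the even columns; for the odd columns multiply by `E.Q`: in the even
columns `α * E.Q = F.Q * α` (`comm_of_mem_Z`) `= f • β + F.Q * β * E.Q`
`= (F.Q * β + β * E.Q) * E.Q`, so `(α - F.Q * β - β * E.Q) * E.Q = 0` in the even columns, multiply by
`E.Q` again and cancel `f`.
-/

open CategoryTheory CategoryTheory.Limits MvPolynomial KuMF

set_option backward.isDefEq.respectTransparency false

noncomputable section

namespace H24.Ku

variable {f : Pol 5} {hf : f.IsHomogeneous 3}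

lemma mg_add {ι κ : Type} [Fintype ι] [Fintype κ] {w : ι → ℤ} {w' : κ → ℤ} {q q' : ℤ}
    (T T' : Matrix κ ι (Pol 5)) (hT : ∀ k i, Hg (T k i) (w i - w' k + (q' - q)))
    (hT' : ∀ k i, Hg (T' k i) (w i - w' k + (q' - q)))
    (hTT' : ∀ k i, Hg ((T + T') k i) (w i - w' k + (q' - q))) :
    mg hf w w' q q' (T + T') hTT' = mg hf w w' q q' T hT + mg hf w w' q q' T' hT' := by
  refine Eq.trans ?_ (matG_add _ _ _ _)
  unfold mg
  congr 1

theorem phi0_homotopy_of_mem_B {E F : MF f} (α : Matrix F.ι E.ι (Pol 5))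
    (hα : α ∈ MF.Z E F 0) (h : α ∈ MF.B E F 0) : Nonempty (Homotopy (phi0 hf α hα) 0) := by
  obtain ⟨β, hβ, hdm⟩ := h
  have hαβ : α = β * E.Q + F.Q * β := by
    rw [← hdm, MF.dm_apply]
    have : (Int.negOnePow (0 - 3) : ℤ) = -1 := by
      rw [Int.negOnePow_odd _ ⟨-2, by norm_num⟩]; rfl
    rw [this]
    rw [neg_smul, one_smul, sub_neg_eq_add]
    exact add_comm _ _
  have hβw : ∀ a b, Hg (β a b) (E.w b - F.w a + (0 - 3)) := hβ
  have h1 : ∀ k a b, Hg ((β * E.Q) a b) (E.w b - F.w a + (3 * k - 3 * k)) := fun k a b =>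
    (MF.mul_mem hβ (MF.Q_mem E) a b).of_eq (by ring)
  have h2 : ∀ k a b, Hg ((F.Q * β) a b) (E.w b - F.w a + (3 * k - 3 * k)) := fun k a b =>
    (MF.mul_mem (MF.Q_mem F) hβ a b).of_eq (by ring)
  refine ⟨{ hom := fun i j => if hij : j + 1 = i then
              mg hf E.w F.w (3 * i) (3 * j) β (fun a b => (hβw a b).of_eq (by rw [← hij]; ring))
              else 0
            zero := fun i j hij => dif_neg hij
            comm := fun k => ?_ }⟩
  rw [dNext_eq _ (show (ComplexShape.up ℤ).Rel k (k + 1) from rfl),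
    prevD_eq _ (show (ComplexShape.up ℤ).Rel (k - 1) k from sub_add_cancel k 1)]
  rw [dif_pos rfl, dif_pos (sub_add_cancel k 1), PE_d E k (k + 1) rfl,
    PE_d F (k - 1) k (sub_add_cancel k 1), mg_comp _ _ _ _ (h1 k), mg_comp _ _ _ _ (h2 k), phi0_f,
    HomologicalComplex.zero_f_apply]
  refine Eq.trans ?_ (add_zero _).symm
  rw [← mg_add _ _ (h1 k) (h2 k) (fun a b => (h1 k a b).add (h2 k a b))]
  exact mg_congr hαβ _ _

/-- the entries of `E.Q` between basis elements of the same parity vanish -/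
lemma Q_eq_zero (E : MF f) {l j : E.ι} (h : Even (E.w j) ↔ Even (E.w l)) : E.Q l j = 0 := by
  refine eq_zero_of_mem_wt (E.hQ l j) ?_
  rw [Int.even_add, Int.even_sub]
  have : ¬ Even (3 : ℤ) := by decide
  tauto

theorem mem_B_of_phi0_homotopy (hf0 : f ≠ 0) {E F : MF f} (α : Matrix F.ι E.ι (Pol 5))
    (hα : α ∈ MF.Z E F 0) (h : Nonempty (Homotopy (phi0 hf α hα) 0)) : α ∈ MF.B E F 0 := by
  classical
  obtain ⟨H⟩ := h
  have hc := H.comm 0
  rw [dNext_eq _ (show (ComplexShape.up ℤ).Rel 0 1 from rfl),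
    prevD_eq _ (show (ComplexShape.up ℤ).Rel (-1) 0 from rfl), HomologicalComplex.zero_f_apply,
    add_zero] at hc
  obtain ⟨T0, hT0, hs0⟩ := exists_matG (w := E.w) (w' := F.w) (q := 3 * 0) (q' := 3 * (-1))
    (H.hom 0 (-1))
  obtain ⟨T1, hT1, hs1⟩ := exists_matG (w := E.w) (w' := F.w) (q := 3 * 1) (q' := 3 * 0)
    (H.hom 1 0)
  obtain ⟨S0, hS0, hS0'⟩ := exists_red (hf := hf) T0 _ hT0
  obtain ⟨S1, hS1, hS1'⟩ := exists_red (hf := hf) T1 _ hT1
  subst hS0' hS1'
  have e0 : H.hom 0 (-1) = mg hf E.w F.w (3 * 0) (3 * (-1)) S0 hS0 := hs0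
  have e1 : H.hom 1 0 = mg hf E.w F.w (3 * 1) (3 * 0) S1 hS1 := hs1
  have hS1Q : ∀ a b, Hg ((S1 * E.Q) a b) (E.w b - F.w a + (3 * 0 - 3 * 0)) := by
    intro a b
    rw [Matrix.mul_apply]
    exact Hg.sum _ fun l _ => ((hS1 a l).mul (E.hQ l b)).of_eq (by ring)
  have hQS0 : ∀ a b, Hg ((F.Q * S0) a b) (E.w b - F.w a + (3 * 0 - 3 * 0)) := by
    intro a b
    rw [Matrix.mul_apply]
    exact Hg.sum _ fun l _ => ((F.hQ a l).mul (hS0 l b)).of_eq (by ring)
  rw [e0, e1, PE_d E 0 1 rfl, PE_d F (-1) 0 rfl, mg_comp _ _ _ _ hS1Q, mg_comp _ _ _ _ hQS0, phi0_f,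
    ← mg_add _ _ hS1Q hQS0 (fun a b => (hS1Q a b).add (hQS0 a b))] at hc
  have h2 : ∀ k j, Even (E.w j) → red hf (α - (S1 * E.Q + F.Q * S0)) k j = 0 := by
    intro k j hj
    have h3 := eq_of_matG_eq hc k j (by simpa using hj)
    rw [red_sub, Matrix.sub_apply, h3, sub_self]
  set V : Matrix F.ι E.ι (Pol 5) := α - (S1 * E.Q + F.Q * S0) with hV
  have hVw : ∀ k j, Hg (V k j) (E.w j - F.w k) := by
    intro k j
    rw [hV, Matrix.sub_apply, Matrix.add_apply]
    exact ((hα.1 k j).of_eq (by ring)).sub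
      (((hS1Q k j).of_eq (by ring)).add ((hQS0 k j).of_eq (by ring)))
  set U : Matrix F.ι E.ι (Pol 5) := Matrix.of fun k j =>
    if Even (E.w j) then V k j else 0 with hU
  have hU1 : ∀ k j, Hg (U k j) (E.w j - F.w k) := by
    intro k j
    rw [hU, Matrix.of_apply]
    split_ifs
    · exact hVw k j
    · exact Hg.zero _
  have hU2 : red hf U = 0 := by
    ext k j : 2
    rw [red_apply, hU, Matrix.of_apply]
    split_ifs with hj
    · exact h2 k j hj
    · rw [map_zero]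
      rfl
  obtain ⟨S, hSw, hUS⟩ := exists_of_red_eq_zero (hf := hf) U _ hU1 hU2
  have hSQ : ∀ k j, Hg ((S * E.Q) k j) (E.w j - F.w k + (0 - 3)) := by
    intro k j
    rw [Matrix.mul_apply]
    exact Hg.sum _ fun l _ => ((hSw k l).mul (E.hQ l j)).of_eq (by ring)
  set β : Matrix F.ι E.ι (Pol 5) := Matrix.of fun k j =>
    if Even (E.w j) then S0 k j else (S1 + S * E.Q) k j with hβ
  have hβw : β ∈ MF.Hom E F (0 - 3) := by
    intro k j
    rw [hβ, Matrix.of_apply]
    split_ifs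
    · exact (hS0 k j).of_eq (by ring)
    · rw [Matrix.add_apply]
      exact ((hS1 k j).of_eq (by ring)).add (hSQ k j)
  -- even columns
  have hD : ∀ k j, Even (E.w j) → (α - F.Q * β - β * E.Q) k j = 0 := by
    intro k j hj
    have e2 : (F.Q * β) k j = (F.Q * S0) k j := by
      rw [Matrix.mul_apply, Matrix.mul_apply]
      refine Finset.sum_congr rfl fun l _ => ?_
      rw [hβ, Matrix.of_apply, if_pos hj]
    have e3 : (β * E.Q) k j = ((S1 + S * E.Q) * E.Q) k j := by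
      rw [Matrix.mul_apply, Matrix.mul_apply]
      refine Finset.sum_congr rfl fun l _ => ?_
      by_cases hl : Even (E.w l)
      · rw [Q_eq_zero E (iff_of_true hj hl), mul_zero, mul_zero]
      · rw [hβ, Matrix.of_apply, if_neg hl]
    have e4 : (S1 + S * E.Q) * E.Q = S1 * E.Q + U := by
      rw [Matrix.add_mul, Matrix.mul_assoc, E.sq, Matrix.mul_smul, Matrix.mul_one, hUS]
    have e5 : U k j = V k j := by rw [hU, Matrix.of_apply, if_pos hj]
    rw [Matrix.sub_apply, Matrix.sub_apply, e2, e3, e4, Matrix.add_apply, e5, hV, Matrix.sub_apply,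
      Matrix.add_apply]
    ring
  set D : Matrix F.ι E.ι (Pol 5) := α - F.Q * β - β * E.Q with hDdef
  have hcomm : D * E.Q = F.Q * D := by
    have h5 := comm_of_mem_Z hα
    rw [hDdef]
    simp only [Matrix.sub_mul, Matrix.mul_sub]
    rw [← h5, Matrix.mul_assoc β, E.sq, ← Matrix.mul_assoc F.Q F.Q, F.sq, Matrix.mul_assoc F.Q β,
      Matrix.mul_smul, Matrix.mul_one, Matrix.smul_mul, Matrix.one_mul]
    abel
  have hDQ : D * E.Q = 0 := by
    refine Matrix.ext fun k i => ?_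
    rw [Matrix.zero_apply]
    by_cases hi : Even (E.w i)
    · rw [hcomm, Matrix.mul_apply]
      exact Finset.sum_eq_zero fun l _ => by rw [hD l i hi, mul_zero]
    · rw [Matrix.mul_apply]
      refine Finset.sum_eq_zero fun l _ => ?_
      by_cases hl : Even (E.w l)
      · rw [hD k l hl, zero_mul]
      · rw [Q_eq_zero E (iff_of_false hi hl), mul_zero]
  have hD0 : D = 0 := by
    refine smul_f_cancel hf0 ?_
    have h6 : D * E.Q * E.Q = f • D := by
      rw [Matrix.mul_assoc, E.sq, Matrix.mul_smul, Matrix.mul_one]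
    rw [← h6, hDQ, Matrix.zero_mul, smul_zero]
  refine ⟨β, hβw, ?_⟩
  rw [MF.dm_apply]
  have h7 : (Int.negOnePow (0 - 3) : ℤ) = -1 := by
    rw [Int.negOnePow_odd _ ⟨-2, by norm_num⟩]; rfl
  rw [h7, neg_smul, one_smul, sub_neg_eq_add]
  rw [hDdef, sub_sub, sub_eq_zero] at hD0
  exact hD0.symm

end H24.Ku
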