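import Pool.Agent.H27.Orl.Lift0
import Pool.Agent.H27.Orl.Null0
import Pool.Agent.H27.Orl.Cone

/-!
# KUD-6 KTri: `kProp hf` is a triangulated subcategory of the homotopy category

Write `H = HomotopyCategory (Gr (cubic f hf)) (ComplexShape.up ℤ)`, `q = HomotopyCategory.quotient _ _`.
Closed under isomorphisms: clear. Zero object: the matrix factorization with empty basis
(`ι = Empty`/`Fin 0`), `PE` of it is termwise zero (`isZero_iff_subsingleton`), hence a zero object
of the category of complexes, and `q` preserves it. Shift: `epsn hf n F` and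
`(q.commShiftIso n).app _` (the instance in Mathlib: `HomotopyCategory.quotient` commutes with
shifts). Extensions: `ObjectProperty.IsTriangulatedClosed₂.mk'`: `T` distinguished,
`T.obj₁ ≅ q (PE F)`, `T.obj₃ ≅ q (PE G)`. `T.invRotate` is distinguished:
`T.obj₃⟦-1⟧ ⟶ T.obj₁ ⟶ T.obj₂ ⟶ ..`. `T.obj₃⟦-1⟧ ≅ q (PE E)` with `E = snMF (-1) G`. The morphism
`q (PE E) ⟶ q (PE F)` obtained is `q.map ψ` (`q` is full), and `q.map ψ = q.map (phi0 hf α hα)` by
`exists_phi0` and `HomotopyCategory.eq_of_homotopy`. The cone triangle of `phi0 α` is distinguished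
(`HomotopyCategory.mappingCone_triangleh_distinguished`), so
`T.obj₂ ≅ q (mappingCone (phi0 α)) ≅ q (PE (coneMF α))` (`nonempty_cone_iso`) by
`isoTriangleOfIso₁₂` (or `Pretriangulated.exists_iso_of_arrow_iso`).
-/

open CategoryTheory CategoryTheory.Limits MvPolynomial KuMF Pretriangulated

set_option backward.isDefEq.respectTransparency false

noncomputable section

namespace H24.Ku

variable {f : Pol 5} {hf : f.IsHomogeneous 3}

instance : (kProp hf).IsClosedUnderIsomorphisms where
  of_iso {L L'} e hL := by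
    obtain ⟨E, ⟨i⟩⟩ := hL
    exact ⟨E, ⟨e.symm ≪≫ i⟩⟩

/-- the matrix factorization with empty basis -/
def emptyMF (f : Pol 5) : MF f where
  ι := Empty
  w := Empty.elim
  Q := 0
  hQ := fun i => i.elim
  sq := Matrix.ext fun i => i.elim

lemma isZero_PE_empty : IsZero (PE hf (emptyMF f)) := by
  rw [IsZero.iff_id_eq_zero]
  ext n : 1
  have h : IsZero ((PE hf (emptyMF f)).X n) := by
    rw [isZero_iff_subsingleton]
    intro m
    refine ⟨fun a b => ?_⟩
    apply frVal_injective (w := (emptyMF f).w) (q := 3 * n)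
    funext i
    exact i.elim
  exact h.eq_of_src _ _

lemma kProp_containsZero : (kProp hf).ContainsZero where
  exists_zero := ⟨(HomotopyCategory.quotient _ _).obj (PE hf (emptyMF f)),
    (HomotopyCategory.quotient _ _).map_isZero isZero_PE_empty, emptyMF f, ⟨Iso.refl _⟩⟩

lemma kProp_shift : (kProp hf).IsStableUnderShift ℤ where
  isStableUnderShiftBy n := ⟨fun L hL => by
    obtain ⟨E, ⟨i⟩⟩ := hL
    refine ⟨snMF n E, ⟨(shiftFunctor _ n).mapIso i ≪≫
      (((HomotopyCategory.quotient (Gr (cubic f hf)) (ComplexShape.up ℤ)).commShiftIso n).app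
        (PE hf E)).symm ≪≫ (HomotopyCategory.quotient _ _).mapIso (epsn hf n E).symm⟩⟩⟩

lemma kProp_closed₃ (hf0 : f ≠ 0) : (kProp hf).IsTriangulatedClosed₃ := by
  refine ObjectProperty.IsTriangulatedClosed₃.mk' fun T hT h1 h2 => ?_
  obtain ⟨E, ⟨i1⟩⟩ := h1
  obtain ⟨F, ⟨i2⟩⟩ := h2
  obtain ⟨ψ, hψ⟩ := (HomotopyCategory.quotient (Gr (cubic f hf)) (ComplexShape.up ℤ)).map_surjective
    (i1.inv ≫ T.mor₁ ≫ i2.hom)
  obtain ⟨α, hα, ⟨h⟩⟩ := exists_phi0 hf0 ψ
  have hm : (HomotopyCategory.quotient (Gr (cubic f hf)) (ComplexShape.up ℤ)).map (phi0 hf α hα) =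
      i1.inv ≫ T.mor₁ ≫ i2.hom := by
    rw [← hψ]
    exact (HomotopyCategory.eq_of_homotopy _ _ h).symm
  let e := isoTriangleOfIso₁₂ T (CochainComplex.mappingCone.triangleh (phi0 hf α hα)) hT
    (HomotopyCategory.mappingCone_triangleh_distinguished _) i1 i2 (by
      change T.mor₁ ≫ i2.hom = i1.hom ≫
        (HomotopyCategory.quotient (Gr (cubic f hf)) (ComplexShape.up ℤ)).map (phi0 hf α hα)
      rw [hm, Iso.hom_inv_id_assoc])
  obtain ⟨j⟩ := nonempty_cone_iso (hf := hf) α hα
  exact ⟨coneMF α hα, ⟨Triangle.π₃.mapIso e ≪≫ (HomotopyCategory.quotient _ _).mapIso j⟩⟩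

theorem kProp_isTriangulated (hf0 : f ≠ 0) : (kProp hf).IsTriangulated := by
  have h1 : (kProp hf).ContainsZero := kProp_containsZero
  have h2 : (kProp hf).IsStableUnderShift ℤ := kProp_shift
  have h3 : (kProp hf).IsTriangulatedClosed₃ := kProp_closed₃ hf0
  exact { toIsTriangulatedClosed₂ := .of_isTriangulatedClosed₃ }

end H24.Ku
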