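import Mathlib

/-!
# KUD-1 NullR: null-homotopies built degree by degree

`nonempty_homotopy_zero_right`: `φ : K ⟶ L` vanishes in degrees `< n₀` and for `n ≥ n₀` every
`g : K^n ⟶ L^n` with `d ≫ g = 0` extends along `d : K^n ⟶ K^(n+1)`. Then `φ` is null-homotopic.
Proof: copy `CochainComplex.isKInjective_of_injective` and `isKInjective_of_injective_aux`
(`Mathlib/Algebra/Homology/HomotopyCategory/KInjective.lean`): the same induction
(`Cochain.InductionUp`) with the start `α = 0` (good up to degree `n₀ - 1` by `h0`), where the step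
`K.d n (n+1) ≫ u = 0 → ∃ β, K.d (n+1) (n+2) ≫ β = u` is `hex (n+1) u` instead of `descToInjective`.
`u : K.X (n+1) ⟶ L.X (n+1)`.

`nonempty_homotopy_zero_left`: the dual statement. Proof: either the same induction downwards by
hand, or apply the first one to the opposite complexes exactly as in
`CochainComplex.isKProjective_of_op` and `isKProjective_of_projective`
(`Mathlib/Algebra/Homology/HomotopyCategory/KProjective.lean`: `opEquivalence C`, `homotopyUnop`).

`nonempty_homotopy_zero_mid`: `φ` vanishes in degree `0` only, and both extension conditions hold: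
write `φ = φR + φL`, `φR` = the components of degree `> 0` (a morphism of complexes because
`φ.f 0 = 0`), `φL` = the components of degree `< 0`, and apply the two statements.
-/

open CategoryTheory CategoryTheory.Limits

namespace H24.Ku

universe v u

variable {C : Type u} [Category.{v} C] [Preadditive C] {K L : CochainComplex C ℤ}

open CochainComplex.HomComplex

private lemma nullR_aux (f : K ⟶ L) (α : Cochain K L (-1)) (n m : ℤ) (hnm : n + 1 = m)
    (hex : ∀ g : K.X m ⟶ L.X m, K.d n m ≫ g = 0 →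
      ∃ h : K.X (m + 1) ⟶ L.X m, K.d m (m + 1) ≫ h = g)
    (hα : (δ (-1) 0 α).EqUpTo (Cochain.ofHom f) n) :
    ∃ (h : K.X (m + 1) ⟶ L.X m),
      (δ (-1) 0 (α + Cochain.single h (-1))).EqUpTo (Cochain.ofHom f) m := by
  subst hnm
  let u := f.f (n + 1) - α.v (n + 1) n (by lia) ≫ L.d n (n + 1) -
    K.d (n + 1) (n + 1 + 1) ≫ α.v (n + 1 + 1) (n + 1) (by lia)
  have hu : K.d n (n + 1) ≫ u = 0 := by
    have eq := hα n n (add_zero n) (by rfl)
    simp only [δ_v (-1) 0 (neg_add_cancel 1) α n n (add_zero _) (n - 1) (n + 1)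
      (by lia) (by lia), Int.negOnePow_zero, one_smul, Cochain.ofHom_v] at eq
    simp only [u, Preadditive.comp_sub, HomologicalComplex.d_comp_d_assoc, zero_comp,
      ← f.comm, ← eq, Preadditive.add_comp, Category.assoc, L.d_comp_d, comp_zero, zero_add,
      sub_self]
  obtain ⟨β, hβ⟩ := hex u hu
  refine ⟨β, ?_⟩
  intro p q hpq hp
  obtain rfl : p = q := by lia
  obtain hp | rfl := hp.lt_or_eq
  · rw [δ_add, Cochain.add_v, hα p p (by lia) (by lia), add_eq_left,
      δ_v (-1) 0 (neg_add_cancel 1) _ p p hpq (p - 1) (p + 1) rfl rfl,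
      Cochain.single_v_eq_zero _ _ _ _ _ (by lia),
      Cochain.single_v_eq_zero _ _ _ _ _ (by lia)]
    simp
  · rw [δ_v (-1) 0 (neg_add_cancel 1) _ (n + 1) (n + 1) (by lia) n (n + 1 + 1)
      (by lia) (by lia), Cochain.add_v,
      Cochain.single_v_eq_zero _ _ _ _ _ (by lia)]
    simp [hβ, u]

open Cochain.InductionUp in
theorem nonempty_homotopy_zero_right (φ : K ⟶ L) (n₀ : ℤ) (h0 : ∀ n < n₀, φ.f n = 0)
    (hex : ∀ n, n₀ ≤ n → ∀ g : K.X n ⟶ L.X n, K.d (n - 1) n ≫ g = 0 →
      ∃ h : K.X (n + 1) ⟶ L.X n, K.d n (n + 1) ≫ h = g) : Nonempty (Homotopy φ 0) := by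
  have hex' : ∀ a n : ℤ, a + 1 = n → n₀ ≤ n → ∀ g : K.X n ⟶ L.X n, K.d a n ≫ g = 0 →
      ∃ h : K.X (n + 1) ⟶ L.X n, K.d n (n + 1) ≫ h = g := by
    intro a n ha hn
    obtain rfl : a = n - 1 := by lia
    exact hex n hn
  let X (n : ℕ) : Set (Cochain K L (-1)) :=
    Set.ofPred (fun α => (δ (-1) 0 α).EqUpTo (Cochain.ofHom φ) (n + n₀ - 1))
  let x₀ : X 0 := ⟨0, fun p q hpq hp ↦ by
    obtain rfl : p = q := by lia
    rw [Cochain.ofHom_v, h0 p (by lia), δ_zero, Cochain.zero_v]⟩
  let ψ (n : ℕ) (α : X n) : X (n + 1) :=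
    ⟨_, (nullR_aux φ α.1 (n + n₀ - 1) ((n + 1 : ℕ) + n₀ - 1)
      (by lia) (hex' _ _ (by lia) (by lia)) α.2).choose_spec⟩
  have hψ (k : ℕ) (x : X k) : (ψ k x).1.EqUpTo x.1 (n₀ + k) := fun p q hpq hp => by
    dsimp [ψ]
    rw [add_eq_left, Cochain.single_v_eq_zero _ _ _ _ _ (by lia)]
  refine ⟨(Cochain.equivHomotopy φ 0).symm ⟨limitSequence ψ hψ x₀, ?_⟩⟩
  rw [Cochain.ofHom_zero, add_zero]
  ext n
  let k₀ := (n - n₀ + 1).toNat
  rw [← (sequence ψ x₀ k₀).2 n n (add_zero n) (by lia),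
    δ_v (-1) 0 (neg_add_cancel 1) _ n n (by lia) (n - 1) (n + 1) rfl (by lia),
    δ_v (-1) 0 (neg_add_cancel 1) _ n n (by lia) (n - 1) (n + 1) rfl (by lia),
    limitSequence_eqUpTo ψ hψ x₀ k₀ n (n - 1) (by lia) (by lia),
    limitSequence_eqUpTo ψ hψ x₀ k₀ (n + 1) n (by lia) (by lia)]

set_option backward.isDefEq.respectTransparency.types false in
set_option backward.defeqAttrib.useBackward true in
open CochainComplex Opposite in
theorem nonempty_homotopy_zero_left (φ : K ⟶ L) (n₀ : ℤ) (h0 : ∀ n, n₀ < n → φ.f n = 0)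
    (hex : ∀ n, n ≤ n₀ → ∀ g : K.X n ⟶ L.X n, g ≫ L.d n (n + 1) = 0 →
      ∃ h : K.X n ⟶ L.X (n - 1), h ≫ L.d (n - 1) n = g) : Nonempty (Homotopy φ 0) := by
  have hex' : ∀ a b c : ℤ, b + 1 = a → c + 1 = b → b ≤ n₀ → ∀ g : K.X b ⟶ L.X b,
      g ≫ L.d b a = 0 → ∃ h : K.X b ⟶ L.X c, h ≫ L.d c b = g := by
    intro a b c ha hc hb
    obtain rfl : c = b - 1 := by lia
    subst ha
    exact hex b hb
  have key : Nonempty (Homotopy ((opEquivalence C).functor.map φ.op) 0) := by
    apply nonempty_homotopy_zero_right _ (-n₀)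
    · intro n hn
      have := h0 (-n) (by lia)
      exact Quiver.Hom.unop_inj this
    · intro n hn g hg
      obtain ⟨h, hh⟩ := hex' (-(n - 1)) (-n) (-(n + 1)) (by lia) (by lia) (by lia) g.unop
        (Quiver.Hom.op_inj hg)
      exact ⟨h.op, Quiver.Hom.unop_inj hh⟩
  obtain ⟨h⟩ := key
  exact ⟨homotopyUnop (h.trans (.ofEq (by simp)))⟩

theorem nonempty_homotopy_zero_mid (φ : K ⟶ L) (h0 : φ.f 0 = 0)
    (hr : ∀ n, 0 < n → ∀ g : K.X n ⟶ L.X n, K.d (n - 1) n ≫ g = 0 →
      ∃ h : K.X (n + 1) ⟶ L.X n, K.d n (n + 1) ≫ h = g)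
    (hl : ∀ n, n < 0 → ∀ g : K.X n ⟶ L.X n, g ≫ L.d n (n + 1) = 0 →
      ∃ h : K.X n ⟶ L.X (n - 1), h ≫ L.d (n - 1) n = g) : Nonempty (Homotopy φ 0) := by
  let φR : K ⟶ L :=
    { f := fun n => if 0 < n then φ.f n else 0
      comm' := by
        intro i j hij
        obtain rfl : i + 1 = j := hij
        by_cases hi : 0 < i
        · rw [if_pos hi, if_pos (by lia), φ.comm]
        · rw [if_neg hi, zero_comp]
          by_cases hj : 0 < i + 1
          · obtain rfl : i = 0 := by lia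
            rw [if_pos hj, ← φ.comm, h0, zero_comp]
          · rw [if_neg hj, comp_zero] }
  let φL : K ⟶ L :=
    { f := fun n => if n < 0 then φ.f n else 0
      comm' := by
        intro i j hij
        obtain rfl : i + 1 = j := hij
        by_cases hi : i + 1 < 0
        · rw [if_pos hi, if_pos (by lia), φ.comm]
        · rw [if_neg hi, comp_zero]
          by_cases hj : i < 0
          · have hi0 : i + 1 = 0 := by lia
            rw [if_pos hj, φ.comm]
            have h1 : ∀ m : ℤ, m = 0 → φ.f m = 0 := by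
              rintro m rfl
              exact h0
            rw [h1 _ hi0, comp_zero]
          · rw [if_neg hj, zero_comp] }
  have hφ : φ = φR + φL := by
    ext n
    show φ.f n = (if 0 < n then φ.f n else 0) + (if n < 0 then φ.f n else 0)
    rcases lt_trichotomy n 0 with h | h | h
    · rw [if_neg (by lia), if_pos h, zero_add]
    · subst h
      simp [h0]
    · rw [if_pos h, if_neg (by lia), add_zero]
  obtain ⟨hR⟩ := nonempty_homotopy_zero_right φR 1
    (fun n hn => if_neg (by lia)) (fun n hn => hr n (by lia))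
  obtain ⟨hL⟩ := nonempty_homotopy_zero_left φL (-1)
    (fun n hn => if_neg (by lia)) (fun n hn => hl n (by lia))
  rw [hφ]
  exact ⟨(hR.add hL).trans (.ofEq (by simp))⟩

end H24.Ku
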