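import Pool.Agent.H27.Orl.PEexact
import Pool.Agent.H27.Orl.NullR

/-!
# KUD-3 Lift0: every morphism `P_E ⟶ P_F` is homotopic to one given by a matrix

Proof. `ψ.f k = matG (T k) _` (`exists_matG`) for `k = 0, 1`; lift `T 0`, `T 1` to polynomial
matrices `T0`, `T1` with `Hg (_ i j) (E.w j - F.w i)` (`exists_red`). `ψ.comm 0 1` gives:
`red (F.Q * T0 - T1 * E.Q)` vanishes in the columns `j` with `E.w j` even (`eq_of_matG_eq`,
`PE_d`, `mg_comp`/`matG_comp`). As in `PE_hom_exact` get `S` with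
`F.Q * T0 - T1 * E.Q = f • S = S * E.Q * E.Q` in the columns `j` with `E.w j` even, so there
`F.Q * T0 = (T1 + S * E.Q) * E.Q`. Let `α j := if Even (E.w j) then column j of T0 else column j of
T1 + S * E.Q`. Since `E.Q i j ≠ 0` only if `E.w i`, `E.w j` have different parity:
`F.Q * α = α * E.Q` in the even columns. In the odd columns: `(F.Q * α - α * E.Q) * E.Q = 0` in the
even columns (`F.Q * (α * E.Q) = F.Q * F.Q * α = f • α` and `α * E.Q * E.Q = f • α`); multiply once
more by `E.Q`: `f • (F.Q * α - α * E.Q) = 0` in the odd columns; cancel `f`. So `α ∈ MF.Z E F 0`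
(`mem_Z_zero_iff`). `ψ - phi0 hf α _` is zero in degree `0` (`matG_congr`: only the columns with
`E.w i - 3 * 0` even matter). By `nonempty_homotopy_zero_mid` it is null-homotopic: the right
condition is `PE_hom_exact` (`(PE hf F).X n = FrG _ F.w (3 n)`), the left condition follows from
`Projective ((PE hf E).X n)` and the exactness of `PE hf F` at `n`
(`PE_acyclic`, `HomologicalComplex.exactAt_iff'`, `ShortComplex.Exact.lift...` / `Projective.factors`:
e.g. `ShortComplex.Exact.liftFromProjective`).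
-/

open CategoryTheory CategoryTheory.Limits MvPolynomial KuMF

set_option backward.isDefEq.respectTransparency false

noncomputable section

namespace H24.Ku

variable {f : Pol 5} {hf : f.IsHomogeneous 3}

lemma lift0_par {E : MF f} {l j : E.ι} (h : Even (E.w l) ↔ Even (E.w j)) : E.Q l j = 0 := by
  apply eq_zero_of_mem_wt (hg_iff.1 (E.hQ l j))
  intro h1
  have h2 : Even (E.w j - E.w l) := Int.even_sub.2 h.symm
  have h3 : Even (3 : ℤ) := by
    have := h1.sub h2
    rwa [show E.w j - E.w l + 3 - (E.w j - E.w l) = 3 by ring] at this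
  exact absurd h3 (by decide)

/-- the algebraic heart: gluing the even columns of `T0` and the odd columns of `T1` -/
lemma lift0_alg (hf0 : f ≠ 0) {E F : MF f} (T0 T1 : Matrix F.ι E.ι (Pol 5))
    (h : ∀ k j, Even (E.w j) → (F.Q * T0) k j = (T1 * E.Q) k j)
    (α : Matrix F.ι E.ι (Pol 5)) (hα0 : ∀ k j, Even (E.w j) → α k j = T0 k j)
    (hα1 : ∀ k j, ¬ Even (E.w j) → α k j = T1 k j) : F.Q * α = α * E.Q := by
  have hev : ∀ k j, Even (E.w j) → (F.Q * α) k j = (α * E.Q) k j := by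
    intro k j hj
    have h1 : (F.Q * α) k j = (F.Q * T0) k j := by
      rw [Matrix.mul_apply, Matrix.mul_apply]
      exact Finset.sum_congr rfl fun l _ => by rw [hα0 l j hj]
    have h2 : (α * E.Q) k j = (T1 * E.Q) k j := by
      rw [Matrix.mul_apply, Matrix.mul_apply]
      refine Finset.sum_congr rfl fun l _ => ?_
      by_cases hl : Even (E.w l)
      · rw [lift0_par (iff_of_true hl hj), mul_zero, mul_zero]
      · rw [hα1 k l hl]
    rw [h1, h2, h k j hj]
  set Δ : Matrix F.ι E.ι (Pol 5) := F.Q * α - α * E.Q with hΔ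
  have hΔev : ∀ k j, Even (E.w j) → Δ k j = 0 := by
    intro k j hj
    rw [hΔ, Matrix.sub_apply, hev k j hj, sub_self]
  have h3 : ∀ k j, Even (E.w j) → (Δ * E.Q) k j = 0 := by
    intro k j hj
    have e1 : Δ * E.Q = F.Q * (α * E.Q - F.Q * α) := by
      rw [hΔ, Matrix.sub_mul, Matrix.mul_sub, Matrix.mul_assoc, Matrix.mul_assoc α, E.sq,
        ← Matrix.mul_assoc F.Q F.Q, F.sq, Matrix.mul_smul, Matrix.mul_one, Matrix.smul_mul,
        Matrix.one_mul]
    rw [e1, Matrix.mul_apply]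
    refine Finset.sum_eq_zero fun l _ => ?_
    rw [Matrix.sub_apply, hev l j hj, sub_self, mul_zero]
  have h4 : ∀ k j, f * Δ k j = 0 := by
    intro k j
    by_cases hj : Even (E.w j)
    · rw [hΔev k j hj, mul_zero]
    · have e1 : (Δ * E.Q * E.Q) k j = f * Δ k j := by
        rw [Matrix.mul_assoc, E.sq, Matrix.mul_smul, Matrix.mul_one]
        rfl
      rw [← e1, Matrix.mul_apply]
      refine Finset.sum_eq_zero fun l _ => ?_
      by_cases hl : Even (E.w l)
      · rw [h3 k l hl, zero_mul]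
      · rw [lift0_par (iff_of_false hl hj), mul_zero]
  rw [← sub_eq_zero]
  refine Matrix.ext fun k j => ?_
  exact (mul_eq_zero.1 (h4 k j)).resolve_left hf0

lemma lift0_homotopy (hf0 : f ≠ 0) {E F : MF f} (φ : PE hf E ⟶ PE hf F) (h0 : φ.f 0 = 0) :
    Nonempty (Homotopy φ 0) := by
  apply nonempty_homotopy_zero_mid φ h0
  · intro n _ g hg
    exact PE_hom_exact hf0 E F.w (3 * n) n g hg
  · intro n _ g hg
    have hex := ((PE hf F).exactAt_iff' (n - 1) n (n + 1) (by simp) (by simp)).1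
      (PE_acyclic hf0 F n)
    have : Projective ((PE hf E).X n) := by
      rw [PE_X]; infer_instance
    exact ⟨hex.liftFromProjective g hg, hex.liftFromProjective_comp g hg⟩

theorem exists_phi0 (hf0 : f ≠ 0) {E F : MF f} (ψ : PE hf E ⟶ PE hf F) :
    ∃ (α : Matrix F.ι E.ι (Pol 5)) (hα : α ∈ MF.Z E F 0),
      Nonempty (Homotopy ψ (phi0 hf α hα)) := by
  classical
  obtain ⟨R0, hR0, hψ0⟩ := exists_matG (X := cubic f hf) (w := E.w) (w' := F.w)
    (q := 3 * 0) (q' := 3 * 0) (ψ.f 0)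
  obtain ⟨R1, hR1, hψ1⟩ := exists_matG (X := cubic f hf) (w := E.w) (w' := F.w)
    (q := 3 * 1) (q' := 3 * 1) (ψ.f 1)
  obtain ⟨T0, hT0, hT0R⟩ := exists_red R0 (fun k i => E.w i - F.w k + (3 * 0 - 3 * 0)) hR0
  obtain ⟨T1, hT1, hT1R⟩ := exists_red R1 (fun k i => E.w i - F.w k + (3 * 1 - 3 * 1)) hR1
  have hT0' : ∀ k i, Hg (T0 k i) (E.w i - F.w k) := fun k i => (hT0 k i).of_eq (by ring)
  have hT1' : ∀ k i, Hg (T1 k i) (E.w i - F.w k) := fun k i => (hT1 k i).of_eq (by ring)
  have hψ0' : ψ.f 0 = mg hf E.w F.w (3 * 0) (3 * 0) T0 hT0 := by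
    rw [hψ0]
    unfold mg
    congr 1
    exact hT0R.symm
  have hψ1' : ψ.f 1 = mg hf E.w F.w (3 * 1) (3 * 1) T1 hT1 := by
    rw [hψ1]
    unfold mg
    congr 1
    exact hT1R.symm
  have hw1 : ∀ k j, Hg ((F.Q * T0) k j) (E.w j - F.w k + (3 * 1 - 3 * 0)) := fun k j =>
    (MF.mul_mem (MF.Q_mem F) (show T0 ∈ MF.Hom E F 0 from fun i j => (hT0' i j).of_eq (by ring))
      k j).of_eq (by ring)
  have hw2 : ∀ k j, Hg ((T1 * E.Q) k j) (E.w j - F.w k + (3 * 1 - 3 * 0)) := fun k j =>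
    (MF.mul_mem (show T1 ∈ MF.Hom E F 0 from fun i j => (hT1' i j).of_eq (by ring)) (MF.Q_mem E)
      k j).of_eq (by ring)
  have hcomm : mg hf E.w F.w (3 * 0) (3 * 1) (F.Q * T0) hw1 =
      mg hf E.w F.w (3 * 0) (3 * 1) (T1 * E.Q) hw2 := by
    have h1 := ψ.comm 0 1
    rw [PE_d E 0 1 (by norm_num), PE_d F 0 1 (by norm_num), hψ0', hψ1', mg_comp _ _ _ _ hw1,
      mg_comp _ _ _ _ hw2] at h1
    exact h1
  have hred : ∀ k j, Even (E.w j) → red hf (F.Q * T0) k j = red hf (T1 * E.Q) k j := by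
    intro k j hj
    unfold mg at hcomm
    exact eq_of_matG_eq hcomm k j (by simpa using hj)
  let U : Matrix F.ι E.ι (Pol 5) := Matrix.of fun k j =>
    if Even (E.w j) then (F.Q * T0 - T1 * E.Q) k j else 0
  have hU : ∀ k j, Hg (U k j) (E.w j - F.w k + 3) := by
    intro k j
    by_cases hj : Even (E.w j)
    · have : U k j = (F.Q * T0 - T1 * E.Q) k j := if_pos hj
      rw [this, Matrix.sub_apply]
      exact ((hw1 k j).sub (hw2 k j)).of_eq (by ring)
    · have : U k j = 0 := if_neg hj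
      rw [this]
      exact Hg.zero _
  have hU0 : red hf U = 0 := by
    ext k j : 2
    by_cases hj : Even (E.w j)
    · have h1 : U k j = (F.Q * T0) k j - (T1 * E.Q) k j := if_pos hj
      rw [red_apply, h1, map_sub, ← red_apply, ← red_apply, hred k j hj, sub_self]
      rfl
    · have h1 : U k j = 0 := if_neg hj
      rw [red_apply, h1, map_zero]
      rfl
  obtain ⟨S, hS, hUS⟩ := exists_of_red_eq_zero U (fun k j => E.w j - F.w k + 3) hU hU0
  have hSh : S ∈ MF.Hom E F (-3) := fun k j => (hS k j).of_eq (by ring)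
  have hT1s : ∀ k j, Hg ((T1 + S * E.Q) k j) (E.w j - F.w k) := by
    intro k j
    rw [Matrix.add_apply]
    exact (hT1' k j).add ((MF.mul_mem hSh (MF.Q_mem E) k j).of_eq (by ring))
  have hkey : ∀ k j, Even (E.w j) → (F.Q * T0) k j = ((T1 + S * E.Q) * E.Q) k j := by
    intro k j hj
    have h1 : U k j = (F.Q * T0) k j - (T1 * E.Q) k j := if_pos hj
    have h2 : (S * E.Q * E.Q) k j = U k j := by
      rw [hUS, Matrix.mul_assoc, E.sq, Matrix.mul_smul, Matrix.mul_one]
    rw [Matrix.add_mul, Matrix.add_apply, h2, h1]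
    ring
  let α : Matrix F.ι E.ι (Pol 5) := Matrix.of fun k j =>
    if Even (E.w j) then T0 k j else (T1 + S * E.Q) k j
  have hα0 : ∀ k j, Even (E.w j) → α k j = T0 k j := fun k j hj => if_pos hj
  have hα1 : ∀ k j, ¬ Even (E.w j) → α k j = (T1 + S * E.Q) k j := fun k j hj => if_neg hj
  have hαQ := lift0_alg hf0 T0 (T1 + S * E.Q) hkey α hα0 hα1
  have hαw : ∀ k j, Hg (α k j) (E.w j - F.w k) := by
    intro k j
    by_cases hj : Even (E.w j)
    · rw [hα0 k j hj]; exact hT0' k j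
    · rw [hα1 k j hj]; exact hT1s k j
  have hα : α ∈ MF.Z E F 0 := mem_Z_zero_iff.2 ⟨hαw, hαQ⟩
  refine ⟨α, hα, ?_⟩
  have h0 : (ψ - phi0 hf α hα).f 0 = 0 := by
    rw [HomologicalComplex.sub_f_apply, sub_eq_zero, hψ0', phi0_f]
    unfold mg
    exact matG_congr fun k i hi => by
      rw [red_apply, red_apply, hα0 k i (by simpa using hi)]
  obtain ⟨H⟩ := lift0_homotopy hf0 _ h0
  exact ⟨Homotopy.equivSubZero.symm H⟩

end H24.Ku
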