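import Pool.Agent.H27.Orl.PE

/-!
# Morphisms of the complexes `P_E` in degree `0`, and the shift

* `phi0 hf α hα : PE hf E ⟶ PE hf F` for `α ∈ MF.Z E F 0`; composition, sums, scalars, identity;
* `snMF n F` : the matrix factorization `((-1)^n Q, w - 3 n)`, `epsn hf n F : PE (snMF n F) ≅ (PE F)⟦n⟧`
  (the identity matrix in each degree); `Z_snMF`, `B_snMF` : cocycles and coboundaries;
* `phiN hf n α hα : PE E ⟶ (PE F)⟦n⟧` for `α ∈ MF.Z E F (3 n)`, and its compositions.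
-/

open CategoryTheory CategoryTheory.Limits MvPolynomial KuMF

set_option backward.isDefEq.respectTransparency false
set_option linter.unusedSectionVars false

noncomputable section

namespace H24.Ku

variable {f : Pol 5} (hf : f.IsHomogeneous 3)

lemma comm_of_mem_Z {E F : MF f} {α : Matrix F.ι E.ι (Pol 5)} (hα : α ∈ MF.Z E F 0) :
    F.Q * α = α * E.Q := by
  have := LinearMap.mem_ker.1 hα.2
  rw [MF.dm_apply, sub_eq_zero] at this
  simpa using this

lemma mem_Z_zero_iff {E F : MF f} {α : Matrix F.ι E.ι (Pol 5)} :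
    α ∈ MF.Z E F 0 ↔ (∀ i j, Hg (α i j) (E.w j - F.w i)) ∧ F.Q * α = α * E.Q := by
  constructor
  · intro h
    exact ⟨fun i j => (h.1 i j).of_eq (by ring), comm_of_mem_Z h⟩
  · rintro ⟨h1, h2⟩
    refine ⟨fun i j => (h1 i j).of_eq (by ring), LinearMap.mem_ker.2 ?_⟩
    rw [MF.dm_apply, h2]
    simp

/-- The morphism of complexes `P_E ⟶ P_F` given by a cocycle of weight `0`. -/
def phi0 {E F : MF f} (α : Matrix F.ι E.ι (Pol 5)) (hα : α ∈ MF.Z E F 0) :
    PE hf E ⟶ PE hf F where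
  f k := mg hf E.w F.w (3 * k) (3 * k) α (fun a b => (hα.1 a b).of_eq (by ring))
  comm' i j hij := by
    obtain rfl : i + 1 = j := hij
    have h3 : ∀ a b, Hg ((F.Q * α) a b) (E.w b - F.w a + (3 * (i + 1) - 3 * i)) :=
      fun a b => (MF.mul_mem (MF.Q_mem F) hα.1 a b).of_eq (by ring)
    have h4 : ∀ a b, Hg ((α * E.Q) a b) (E.w b - F.w a + (3 * (i + 1) - 3 * i)) :=
      fun a b => (MF.mul_mem hα.1 (MF.Q_mem E) a b).of_eq (by ring)
    rw [PE_d E i (i + 1) rfl, mg_comp _ _ _ _ h4, PE_d F i (i + 1) rfl, mg_comp _ _ _ _ h3]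
    exact mg_congr (comm_of_mem_Z hα) _ _

variable {hf}

lemma phi0_f {E F : MF f} (α : Matrix F.ι E.ι (Pol 5)) (hα : α ∈ MF.Z E F 0) (k : ℤ) :
    (phi0 hf α hα).f k =
      mg hf E.w F.w (3 * k) (3 * k) α (fun a b => (hα.1 a b).of_eq (by ring)) := rfl

lemma phi0_comp {E F G : MF f} (α : Matrix F.ι E.ι (Pol 5)) (hα : α ∈ MF.Z E F 0)
    (β : Matrix G.ι F.ι (Pol 5)) (hβ : β ∈ MF.Z F G 0) :
    phi0 hf α hα ≫ phi0 hf β hβ = phi0 hf (β * α) (by simpa using MF.mul_mem_Z hβ hα) := by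
  ext k : 1
  rw [HomologicalComplex.comp_f, phi0_f, phi0_f, phi0_f, mg_comp]

lemma phi0_one (E : MF f) : phi0 hf 1 (MF.one_mem_Z E) = 𝟙 (PE hf E) := by
  ext k : 1
  rw [phi0_f]
  exact (matG_congr (T' := 1) (hT' := fun a b => by
    rw [← red_one (hf := hf)]
    exact red_mem_wtA ((MF.one_mem E a b).of_eq (by ring)))
    (fun k i _ => congrFun (congrFun red_one k) i)).trans (matG_one _)

lemma phi0_add {E F : MF f} (α β : Matrix F.ι E.ι (Pol 5)) (hα : α ∈ MF.Z E F 0)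
    (hβ : β ∈ MF.Z E F 0) :
    phi0 hf (α + β) (Submodule.add_mem _ hα hβ) = phi0 hf α hα + phi0 hf β hβ := by
  ext k : 1
  rw [HomologicalComplex.add_f_apply, phi0_f, phi0_f, phi0_f]
  refine Eq.trans ?_ (matG_add _ _ _ _)
  exact matG_congr (fun k i _ => congrFun (congrFun (red_add α β) k) i)

lemma phi0_smul {E F : MF f} (c : ℂ) (α : Matrix F.ι E.ι (Pol 5)) (hα : α ∈ MF.Z E F 0) :
    phi0 hf (c • α) (Submodule.smul_mem _ c hα) = c • phi0 hf α hα := by
  ext k : 1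
  change _ = c • (phi0 hf α hα).f k
  rw [phi0_f, phi0_f]
  refine Eq.trans ?_ (matG_smul _ _ _)
  exact matG_congr (fun k i _ => congrFun (congrFun (red_smul c α) k) i)

/-- The matrix factorization `((-1)^n Q, w - 3 n)`. -/
abbrev snMF (n : ℤ) (F : MF f) : MF f where
  ι := F.ι
  w i := F.w i - 3 * n
  Q := (n.negOnePow : ℤ) • F.Q
  hQ i j := by
    have h : Hg (F.Q i j) (F.w j - 3 * n - (F.w i - 3 * n) + 3) := (F.hQ i j).of_eq (by ring)
    rcases Int.units_eq_one_or n.negOnePow with h1 | h1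
    · rw [h1]; simpa using h
    · rw [h1]; simpa using h.neg
  sq := by
    rw [Matrix.smul_mul, Matrix.mul_smul, smul_smul, MF.negOnePow_sq, one_smul, F.sq]

/-- The matrix `1` has weight `0`. -/
lemma one_hg {ι : Type} [DecidableEq ι] (w : ι → ℤ) (i j : ι) :
    Hg ((1 : Matrix ι ι (Pol 5)) i j) (w j - w i) := by
  rcases eq_or_ne i j with rfl | h
  · rw [Matrix.one_apply_eq]; exact Hg.one.of_eq (by ring)
  · rw [Matrix.one_apply_ne h]; exact Hg.zero _

lemma mg_one {ι : Type} [Fintype ι] [DecidableEq ι] {w : ι → ℤ} {q : ℤ}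
    (h : ∀ k i, Hg ((1 : Matrix ι ι (Pol 5)) k i) (w i - w k + (q - q))) :
    mg hf w w q q 1 h = 𝟙 (FrG (cubic f hf) w q) := by
  exact (matG_congr (T' := 1) (hT' := fun a b => by
    rw [← red_one (hf := hf)]
    exact red_mem_wtA ((one_hg w a b).of_eq (by ring)))
    (fun k i _ => congrFun (congrFun red_one k) i)).trans (matG_one _)

variable (hf)

/-- The isomorphism `P_{F'} ≅ P_F⟦n⟧`, `F' = snMF n F`: the identity matrix in each degree. -/
def epsn (n : ℤ) (F : MF f) : PE hf (snMF n F) ≅ (PE hf F)⟦n⟧ where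
  hom :=
    { f k := mg hf (snMF n F).w F.w (3 * k) (3 * (k + n)) (1 : Matrix F.ι F.ι (Pol 5))
        (fun a b => (one_hg F.w a b).of_eq (by change _ = F.w b - 3 * n - F.w a + _; ring))
      comm' i j hij := by
        obtain rfl : i + 1 = j := hij
        have h3 : ∀ a b, Hg ((F.Q * (1 : Matrix F.ι F.ι (Pol 5))) a b)
            ((snMF n F).w b - F.w a + (3 * (i + 1 + n) - 3 * i)) := fun a b => by
          rw [Matrix.mul_one]
          exact (F.hQ a b).of_eq (by change _ = F.w b - 3 * n - F.w a + _; ring)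
        have h4 : ∀ a b, Hg (((1 : Matrix F.ι F.ι (Pol 5)) * ((n.negOnePow : ℤ) • F.Q)) a b)
            ((snMF n F).w b - F.w a + (3 * (i + 1 + n) - 3 * i)) := fun a b => by
          rw [Matrix.one_mul]
          exact ((snMF n F).hQ a b).of_eq (by
            change F.w b - 3 * n - (F.w a - 3 * n) + 3 = F.w b - 3 * n - F.w a + _; ring)
        rw [PE_d (snMF n F) i (i + 1) rfl, mg_comp (w := (snMF n F).w) (w' := (snMF n F).w)
          (w'' := F.w) ((n.negOnePow : ℤ) • F.Q) _ (1 : Matrix F.ι F.ι (Pol 5)) _ h4]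
        rw [CochainComplex.shiftFunctor_obj_d', PE_d F (i + n) (i + 1 + n) (by ring),
          Linear.comp_units_smul, mg_comp _ _ _ _ h3, mg_units_smul]
        refine mg_congr ?_ _ _
        rw [Matrix.mul_one, Matrix.one_mul] }
  inv :=
    { f k := mg hf F.w (snMF n F).w (3 * (k + n)) (3 * k) (1 : Matrix F.ι F.ι (Pol 5))
        (fun a b => (one_hg F.w a b).of_eq (by change _ = F.w b - (F.w a - 3 * n) + _; ring))
      comm' i j hij := by
        obtain rfl : i + 1 = j := hij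
        have h3 : ∀ a b, Hg (((1 : Matrix F.ι F.ι (Pol 5)) * F.Q) a b)
            (F.w b - (snMF n F).w a + (3 * (i + 1) - 3 * (i + n))) := fun a b => by
          rw [Matrix.one_mul]
          exact (F.hQ a b).of_eq (by change _ = F.w b - (F.w a - 3 * n) + _; ring)
        have h4 : ∀ a b, Hg ((((n.negOnePow : ℤ) • F.Q) * (1 : Matrix F.ι F.ι (Pol 5))) a b)
            (F.w b - (snMF n F).w a + (3 * (i + 1) - 3 * (i + n))) := fun a b => by
          rw [Matrix.mul_one]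
          exact ((snMF n F).hQ a b).of_eq (by
            change F.w b - 3 * n - (F.w a - 3 * n) + 3 = F.w b - (F.w a - 3 * n) + _; ring)
        rw [PE_d (snMF n F) i (i + 1) rfl, mg_comp (w := F.w) (w' := (snMF n F).w)
          (w'' := (snMF n F).w) (1 : Matrix F.ι F.ι (Pol 5)) _ ((n.negOnePow : ℤ) • F.Q) _ h4]
        rw [CochainComplex.shiftFunctor_obj_d', PE_d F (i + n) (i + 1 + n) (by ring),
          Linear.units_smul_comp, mg_comp _ _ _ _ h3, mg_units_smul]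
        refine mg_congr ?_ _ _
        rw [Matrix.mul_one, Matrix.one_mul] }
  hom_inv_id := by
    ext k : 1
    rw [HomologicalComplex.comp_f]
    dsimp only
    have h1 : ∀ a b, Hg (((1 : Matrix F.ι F.ι (Pol 5)) * (1 : Matrix F.ι F.ι (Pol 5))) a b)
        ((snMF n F).w b - (snMF n F).w a + (3 * k - 3 * k)) := fun a b => by
      rw [Matrix.one_mul]
      exact (one_hg F.w a b).of_eq (by change _ = F.w b - 3 * n - (F.w a - 3 * n) + _; ring)
    rw [mg_comp _ _ _ _ h1]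
    have h2 : ∀ a b, Hg ((1 : Matrix F.ι F.ι (Pol 5)) a b)
        ((snMF n F).w b - (snMF n F).w a + (3 * k - 3 * k)) := fun a b =>
      (one_hg F.w a b).of_eq (by change _ = F.w b - 3 * n - (F.w a - 3 * n) + _; ring)
    exact (mg_congr (Matrix.mul_one _) h1 h2).trans (mg_one (w := (snMF n F).w) h2)
  inv_hom_id := by
    ext k : 1
    rw [HomologicalComplex.comp_f]
    dsimp only
    have h1 : ∀ a b, Hg (((1 : Matrix F.ι F.ι (Pol 5)) * (1 : Matrix F.ι F.ι (Pol 5))) a b)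
        (F.w b - F.w a + (3 * (k + n) - 3 * (k + n))) := fun a b => by
      rw [Matrix.one_mul]
      exact (one_hg F.w a b).of_eq (by ring)
    rw [mg_comp _ _ _ _ h1]
    have h2 : ∀ a b, Hg ((1 : Matrix F.ι F.ι (Pol 5)) a b)
        (F.w b - F.w a + (3 * (k + n) - 3 * (k + n))) := fun a b =>
      (one_hg F.w a b).of_eq (by ring)
    exact (mg_congr (Matrix.mul_one _) h1 h2).trans (mg_one (w := F.w) h2)

variable {hf}

lemma epsn_hom_f (n : ℤ) (F : MF f) (k : ℤ) : (epsn hf n F).hom.f k =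
    mg hf (snMF n F).w F.w (3 * k) (3 * (k + n)) (1 : Matrix F.ι F.ι (Pol 5))
        (fun a b => (one_hg F.w a b).of_eq (by change _ = F.w b - 3 * n - F.w a + _; ring)) := rfl

lemma dm_snMF (E F : MF f) (n q : ℤ) (α : Matrix F.ι E.ι (Pol 5)) :
    MF.dm E (snMF n F) q α = (n.negOnePow : ℤ) • MF.dm E F (q + 3 * n) α := by
  rw [MF.dm_apply, MF.dm_apply, smul_sub, smul_smul, Int.negOnePow_add, Units.val_mul,
    negOnePow_three_mul]
  congr 1
  · exact Matrix.smul_mul _ _ _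
  · rw [mul_comm, mul_assoc, MF.negOnePow_sq, mul_one]

lemma Z_snMF (E F : MF f) (n : ℤ) : MF.Z E (snMF n F) 0 = MF.Z E F (3 * n) := by
  ext α
  have h1 : α ∈ MF.Hom E (snMF n F) 0 ↔ α ∈ MF.Hom E F (3 * n) := by
    refine forall_congr' fun i => forall_congr' fun j => ?_
    change Hg _ (E.w j - (F.w i - 3 * n) + 0) ↔ _
    rw [show E.w j - (F.w i - 3 * n) + 0 = E.w j - F.w i + 3 * n by ring]
  have h2 : α ∈ LinearMap.ker (MF.dm E (snMF n F) 0) ↔ α ∈ LinearMap.ker (MF.dm E F (3 * n)) := by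
    rw [LinearMap.mem_ker, LinearMap.mem_ker, dm_snMF, zero_add]
    rcases Int.units_eq_one_or n.negOnePow with h | h
    · rw [h]; simp
    · rw [h]; simp
  exact and_congr h1 h2

lemma B_snMF (E F : MF f) (n : ℤ) : MF.B E (snMF n F) 0 = MF.B E F (3 * n) := by
  have h1 : ∀ α : Matrix F.ι E.ι (Pol 5), α ∈ MF.Hom E (snMF n F) (0 - 3) ↔
      α ∈ MF.Hom E F (3 * n - 3) := by
    intro α
    refine forall_congr' fun i => forall_congr' fun j => ?_
    change Hg _ (E.w j - (F.w i - 3 * n) + (0 - 3)) ↔ _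
    rw [show E.w j - (F.w i - 3 * n) + (0 - 3) = E.w j - F.w i + (3 * n - 3) by ring]
  ext α
  constructor
  · rintro ⟨β, hβ, rfl⟩
    refine ⟨(n.negOnePow : ℤ) • β, zsmul_mem ((h1 β).1 hβ) _, ?_⟩
    rw [map_zsmul, dm_snMF, show 0 - 3 + 3 * n = 3 * n - 3 by ring]
  · rintro ⟨β, hβ, rfl⟩
    refine ⟨(n.negOnePow : ℤ) • β, (h1 _).2 (zsmul_mem hβ _), ?_⟩
    rw [dm_snMF, show 0 - 3 + 3 * n = 3 * n - 3 by ring, map_zsmul, smul_smul, MF.negOnePow_sq,
      one_smul]

variable (hf)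

/-- The morphism `P_E ⟶ P_F⟦n⟧` given by a cocycle of weight `3 n`. -/
def phiN {E F : MF f} (n : ℤ) (α : Matrix F.ι E.ι (Pol 5)) (hα : α ∈ MF.Z E F (3 * n)) :
    PE hf E ⟶ (PE hf F)⟦n⟧ :=
  phi0 hf (F := snMF n F) α (by rw [Z_snMF]; exact hα) ≫ (epsn hf n F).hom

variable {hf}

lemma phiN_f {E F : MF f} (n : ℤ) (α : Matrix F.ι E.ι (Pol 5)) (hα : α ∈ MF.Z E F (3 * n))
    (k : ℤ) : (phiN hf n α hα).f k =
      mg hf E.w F.w (3 * k) (3 * (k + n)) α (fun a b => (hα.1 a b).of_eq (by ring)) := by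
  change (phi0 hf (F := snMF n F) α _).f k ≫ (epsn hf n F).hom.f k = _
  have h1 : ∀ a b, Hg (((1 : Matrix F.ι F.ι (Pol 5)) * α) a b)
      (E.w b - F.w a + (3 * (k + n) - 3 * k)) := fun a b => by
    rw [Matrix.one_mul]
    exact (hα.1 a b).of_eq (by ring)
  rw [phi0_f, epsn_hom_f, mg_comp _ _ _ _ h1]
  exact mg_congr (Matrix.one_mul _) _ _

lemma phi0_comp_phiN {E F G : MF f} (n : ℤ) (α : Matrix F.ι E.ι (Pol 5)) (hα : α ∈ MF.Z E F 0)
    (β : Matrix G.ι F.ι (Pol 5)) (hβ : β ∈ MF.Z F G (3 * n)) :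
    phi0 hf α hα ≫ phiN hf n β hβ =
      phiN hf n (β * α) (by simpa using MF.mul_mem_Z hβ hα) := by
  ext k : 1
  rw [HomologicalComplex.comp_f, phi0_f, phiN_f, phiN_f, mg_comp]

lemma phiN_comp_shift {E F G : MF f} (n : ℤ) (α : Matrix F.ι E.ι (Pol 5))
    (hα : α ∈ MF.Z E F (3 * n)) (β : Matrix G.ι F.ι (Pol 5)) (hβ : β ∈ MF.Z F G 0) :
    phiN hf n α hα ≫ (phi0 hf β hβ)⟦n⟧' =
      phiN hf n (β * α) (by simpa using MF.mul_mem_Z hβ hα) := by
  ext k : 1
  rw [HomologicalComplex.comp_f, phiN_f, phiN_f, CochainComplex.shiftFunctor_map_f', phi0_f,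
    mg_comp]

end H24.Ku
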