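import Pool.Agent.H27.Orl.Trunc
import Pool.Agent.H27.Orl.Phi

/-!
# The exact sequence `0 → L_E → P_E → N_E → 0` of complexes

* `lowF X : Gr X ⥤ Gr X`, `M ↦` the submodule generated by the degrees `≤ 0`; `lowι : lowF ⟶ 𝟭`;
* `LE hf E`, `NE hf E` : the termwise images of `PE hf E` under `lowF`, `Q1`;
* `NE_ses_shortExact`.
-/

open CategoryTheory CategoryTheory.Limits MvPolynomial KuMF

set_option backward.isDefEq.respectTransparency false

noncomputable section

namespace H24.Ku

variable (X : ProjData)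

/-- The functor `M ↦` the submodule generated by the degrees `≤ 0`. -/
def lowF : Gr X ⥤ Gr X where
  obj M := (lowSub M).sub
  map φ := GrSub.subMap (lowSub_compat φ)

/-- The inclusion. -/
def lowι : lowF X ⟶ 𝟭 (Gr X) where
  app M := (lowSub M).ι

instance : (lowF X).Additive where

instance (M : Gr X) : Mono ((lowι X).app M) := inferInstanceAs (Mono (lowSub M).ι)

lemma low_ses_shortExact (M : Gr X) :
    (ShortComplex.mk ((lowι X).app M) ((Q1π X).app M) (lowSub M).ι_π).ShortExact :=
  (lowSub M).ses_shortExact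

variable {X}

/-- The submodule generated by the degrees `≤ 0` of a module which is zero in degrees `≤ 0`. -/
lemma isZero_lowF_obj {M : Gr X} (hM : ∀ n : Deg X, n.deg ≤ 0 → Subsingleton (M.obj.obj n)) :
    IsZero ((lowF X).obj M) := by
  rw [isZero_iff_subsingleton]
  intro n
  change Subsingleton ((lowSub M).S n)
  have h : (lowSub M).S n = ⊥ := by
    rw [eq_bot_iff]
    intro x hx
    rw [Submodule.mem_bot]
    induction hx using Submodule.span_induction with
    | mem x h =>
      obtain ⟨m', hm', b, z, rfl⟩ := h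
      have := hM m' hm'
      rw [Subsingleton.elim z 0, map_zero]
    | zero => rfl
    | add x y _ _ hx hy => rw [hx, hy, add_zero]
    | smul c x _ hx => rw [hx, smul_zero]
  rw [h]
  infer_instance

variable {f : Pol 5} (hf : f.IsHomogeneous 3)

/-- The complex `L_E` of the submodules of `P_E` generated by the degrees `≤ 0`. -/
def LE (E : MF f) : CochainComplex (Gr (cubic f hf)) ℤ :=
  ((lowF _).mapHomologicalComplex _).obj (PE hf E)

/-- The complex `N_E = P_E / L_E`. -/
def NE (E : MF f) : CochainComplex (Gr (cubic f hf)) ℤ :=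
  ((Q1 _).mapHomologicalComplex _).obj (PE hf E)

/-- The inclusion `L_E ⟶ P_E`. -/
def LEι (E : MF f) : LE hf E ⟶ PE hf E where
  f n := (lowι _).app _

/-- The projection `P_E ⟶ N_E`. -/
def NEπ (E : MF f) : PE hf E ⟶ NE hf E where
  f n := (Q1π _).app _

lemma LEι_f (E : MF f) (n : ℤ) : (LEι hf E).f n = (lowι _).app ((PE hf E).X n) := rfl

lemma NEπ_f (E : MF f) (n : ℤ) : (NEπ hf E).f n = (Q1π _).app ((PE hf E).X n) := rfl

instance (E : MF f) (n : ℤ) : Epi ((NEπ hf E).f n) := by
  rw [NEπ_f]; infer_instance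

instance (E : MF f) (n : ℤ) : Mono ((LEι hf E).f n) := by
  rw [LEι_f]; infer_instance

lemma LEι_NEπ (E : MF f) : LEι hf E ≫ NEπ hf E = 0 := by
  ext n : 1
  exact (lowSub ((PE hf E).X n)).ι_π

/-- The short exact sequence `0 → L_E → P_E → N_E → 0`. -/
def NEses (E : MF f) : ShortComplex (CochainComplex (Gr (cubic f hf)) ℤ) :=
  ShortComplex.mk (LEι hf E) (NEπ hf E) (LEι_NEπ hf E)

lemma NEses_degreewise (E : MF f) (n : ℤ) :
    ((NEses hf E).map (HomologicalComplex.eval _ _ n)).ShortExact :=
  low_ses_shortExact _ ((PE hf E).X n)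

lemma NEses_shortExact (E : MF f) : (NEses hf E).ShortExact :=
  HomologicalComplex.shortExact_of_degreewise_shortExact _ (NEses_degreewise hf E)

lemma NE_X (E : MF f) (n : ℤ) : (NE hf E).X n = (Q1 _).obj (FrG (cubic f hf) E.w (3 * n)) := rfl

lemma LE_X (E : MF f) (n : ℤ) : (LE hf E).X n = (lowF _).obj (FrG (cubic f hf) E.w (3 * n)) := rfl

end H24.Ku
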