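import Pool.Agent.H27.Orl.OrlA1

/-!
# OrlA: `Q1` is fully faithful on the complexes `P_E` in the homotopy category
-/

open CategoryTheory CategoryTheory.Limits MvPolynomial KuMF

set_option backward.isDefEq.respectTransparency false

noncomputable section

namespace H24.Ku

variable {f : Pol 5} {hf : f.IsHomogeneous 3}

lemma NEπ_naturality {E F : MF f} (ψ : PE hf E ⟶ PE hf F) :
    NEπ hf E ≫ ((Q1 _).mapHomologicalComplex _).map ψ = ψ ≫ NEπ hf F := by
  ext n : 1
  exact ((Q1π _).naturality (ψ.f n)).symm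

theorem Q1_map_bijective (hf0 : f ≠ 0) (E F : MF f) :
    Function.Bijective (fun φ : (HomotopyCategory.quotient _ _).obj (PE hf E) ⟶
        (HomotopyCategory.quotient _ _).obj (PE hf F) =>
      ((Q1 (cubic f hf)).mapHomotopyCategory (ComplexShape.up ℤ)).map φ) := by
  constructor
  · intro φ φ' h
    obtain ⟨ψ, rfl⟩ := (HomotopyCategory.quotient _ _).map_surjective φ
    obtain ⟨ψ', rfl⟩ := (HomotopyCategory.quotient _ _).map_surjective φ'
    have h1 : (HomotopyCategory.quotient _ _).map (((Q1 _).mapHomologicalComplex _).map ψ) =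
      (HomotopyCategory.quotient _ _).map (((Q1 _).mapHomologicalComplex _).map ψ') := h
    have h2 : (HomotopyCategory.quotient _ _).map (((Q1 _).mapHomologicalComplex _).map (ψ - ψ')) =
        (HomotopyCategory.quotient _ _).map 0 := by
      rw [Functor.map_sub, Functor.map_sub, h1, sub_self, Functor.map_zero]
    have h3 : Nonempty (Homotopy ((ψ - ψ') ≫ NEπ hf F) 0) := by
      rw [← NEπ_naturality]
      exact ⟨((HomotopyCategory.homotopyOfEq _ _ h2).compLeft _).trans (Homotopy.ofEq comp_zero)⟩
    obtain ⟨h4⟩ := null_of_NE hf0 _ h3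
    have h5 := HomotopyCategory.eq_of_homotopy _ _ h4
    rwa [Functor.map_sub, Functor.map_zero, sub_eq_zero] at h5
  · intro χ
    obtain ⟨χ', rfl⟩ := (HomotopyCategory.quotient _ _).map_surjective χ
    obtain ⟨ψ, hψ⟩ := exists_lift_NE hf0 E F (NEπ hf E ≫ χ')
    refine ⟨(HomotopyCategory.quotient _ _).map ψ, ?_⟩
    have h1 : NEπ hf E ≫ ((Q1 _).mapHomologicalComplex _).map ψ = NEπ hf E ≫ χ' := by
      rw [NEπ_naturality, hψ]
    have h2 : ((Q1 _).mapHomologicalComplex _).map ψ = χ' := by
      ext n : 1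
      have := congrArg (fun φ => HomologicalComplex.Hom.f φ n) h1
      exact (cancel_epi ((NEπ hf E).f n)).1 this
    exact congrArg (fun φ => (HomotopyCategory.quotient _ _).map φ) h2

end H24.Ku
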