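import Pool.Agent.H27.Orl.Q1Fr
import Pool.Agent.H27.Orl.Lift0

/-!
# KUD-8a OrlA0: morphisms from `P_E` to shifts of `L_F` are null-homotopic

`CochainComplex.nonempty_homotopy_zero_right` (KUD-1, `nonempty_homotopy_zero_right`) for
`K = PE hf E`, `L = (LE hf F)⟦a⟧`: `L.X n = (LE hf F).X (n + a) ≅ FrG _ (w restricted) (3 (n + a))`
(`low_FrG_iso`, `LE_X`). It is zero for `n` small: `isZero_lowF_FrG`, `3 (n + a) < w i` for all `i`
(finite type: choose a lower bound of the weights), so the morphism vanishes in degrees `< n₀`. The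
extension condition is `PE_hom_exact` after composing with the isomorphism.
-/

open CategoryTheory CategoryTheory.Limits MvPolynomial KuMF

set_option backward.isDefEq.respectTransparency false

noncomputable section

namespace H24.Ku

variable {f : Pol 5} {hf : f.IsHomogeneous 3}

lemma orlA0_gen (hf0 : f ≠ 0) (E : MF f) (L : CochainComplex (Gr (cubic f hf)) ℤ) (n₀ : ℤ)
    (hz : ∀ n < n₀, IsZero (L.X n))
    (hfr : ∀ n, ∃ (κ : Type) (_ : Fintype κ) (w' : κ → ℤ) (q' : ℤ),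
      Nonempty (L.X n ≅ FrG (cubic f hf) w' q')) (c : PE hf E ⟶ L) :
    Nonempty (Homotopy c 0) := by
  apply nonempty_homotopy_zero_right c n₀
  · intro n hn
    exact (hz n hn).eq_of_tgt _ _
  · intro n _ g hg
    obtain ⟨κ, hκ, w', q', ⟨e⟩⟩ := hfr n
    obtain ⟨h, hh⟩ := PE_hom_exact hf0 E w' q' n (g ≫ e.hom) (by
      rw [← Category.assoc, hg, zero_comp])
    refine ⟨h ≫ e.inv, ?_⟩
    rw [← Category.assoc, hh, Category.assoc, e.hom_inv_id, Category.comp_id]

lemma orlA0_lower (F : MF f) : ∃ m : ℤ, ∀ i, m ≤ F.w i := by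
  obtain ⟨m, hm⟩ := (Set.finite_range F.w).bddBelow
  exact ⟨m, fun i => hm ⟨i, rfl⟩⟩

theorem null_to_LE_shift (hf0 : f ≠ 0) (E F : MF f) (a : ℤ) (c : PE hf E ⟶ (LE hf F)⟦a⟧) :
    Nonempty (Homotopy c 0) := by
  obtain ⟨m, hm⟩ := orlA0_lower F
  refine orlA0_gen hf0 E _ ((m - 3 * a) / 3) (fun n hn => ?_) (fun n => ?_) c
  · exact isZero_lowF_FrG F.w (3 * (n + a)) fun i => by
      have := hm i
      omega
  · exact ⟨_, inferInstance, _, _, low_FrG_iso F.w (3 * (n + a))⟩

theorem null_to_LE (hf0 : f ≠ 0) (E F : MF f) (c : PE hf E ⟶ LE hf F) :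
    Nonempty (Homotopy c 0) := by
  obtain ⟨m, hm⟩ := orlA0_lower F
  refine orlA0_gen hf0 E _ (m / 3) (fun n hn => ?_) (fun n => ?_) c
  · exact isZero_lowF_FrG F.w (3 * n) fun i => by
      have := hm i
      omega
  · exact ⟨_, inferInstance, _, _, low_FrG_iso F.w (3 * n)⟩

end H24.Ku
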