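import Pool.Agent.H27.Orl.OrlA0

/-!
# KUD-8b OrlA1: lifting morphisms and homotopies from `N_F` to `P_F`

(1) `exists_lift_NE`: choose termwise lifts `g n : (PE E).X n ⟶ (PE F).X n` of `φ.f n`
(`Projective.factorThru`, `(NEπ hf F).f n` is epi, `(PE E).X n` is projective). The family
`δ n = g n ≫ d - d ≫ g (n+1) : (PE E).X n ⟶ (PE F).X (n+1)` satisfies `δ n ≫ NEπ.f (n+1) = 0`, so
`δ n = c n ≫ LEι.f (n+1)` (`NEses_degreewise`: exactness and mono). With the appropriate sign `c` is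
a morphism of complexes `PE E ⟶ (LE F)⟦1⟧` (the shifted complex has differential `-d`;
`δ n ≫ d = - d ≫ g (n+1) ≫ d = - d ≫ δ (n+1)`). It is null-homotopic (`null_to_LE_shift`). The
homotopy gives `s n : (PE E).X n ⟶ (LE F).X n` with `c n = ± (d ≫ s (n+1) - s n ≫ d)`, and
`ψ.f n = g n + (±) s n ≫ LEι.f n` is a morphism of complexes with `ψ ≫ NEπ = φ`.
(Alternatively in the language of `CochainComplex.HomComplex.Cochain`: `g : Cochain (PE E) (PE F) 0`,
`δ 0 1 g = c.comp (ofHom LEι)` with `c : Cocycle (PE E) (LE F) 1`, and `c = δ 0 1 s` because cocycles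
of degree `1` correspond to morphisms to the shift and coboundaries to null-homotopic ones:
`Cocycle.equivHomShift`, `Cochain.equivHomotopy`.)
(2) `null_of_NE`: lift the homotopy `ψ ≫ NEπ ∼ 0` termwise through `NEπ` to
`h' : (PE E).X n ⟶ (PE F).X (n-1)`; `ψ - (d h' + h' d)` is a morphism of complexes whose composition
with `NEπ` is zero, so it is `c ≫ LEι` with `c : PE E ⟶ LE F`; `c ∼ 0` by `null_to_LE`.
-/

open CategoryTheory CategoryTheory.Limits MvPolynomial KuMF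

set_option backward.isDefEq.respectTransparency false

noncomputable section

namespace H24.Ku

section General

open CochainComplex.HomComplex

universe v u

variable {C : Type u} [Category.{v} C] [Abelian C] {P : CochainComplex C ℤ}
  {S : ShortComplex (CochainComplex C ℤ)}

private lemma orlA1_lift_mono (hS : ∀ n, (S.map (HomologicalComplex.eval _ _ n)).ShortExact)
    {m : ℤ} (γ : Cochain P S.X₂ m) (h : γ.comp (Cochain.ofHom S.g) (add_zero m) = 0) :
    ∃ c : Cochain P S.X₁ m, c.comp (Cochain.ofHom S.f) (add_zero m) = γ := by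
  have key : ∀ p q hpq, ∃ c : P.X p ⟶ S.X₁.X q, c ≫ S.f.f q = γ.v p q hpq := by
    intro p q hpq
    have hm : Mono (S.map (HomologicalComplex.eval _ _ q)).f := (hS q).mono_f
    have h1 : γ.v p q hpq ≫ S.g.f q = 0 := by
      have := Cochain.congr_v h p q hpq
      simpa using this
    exact ⟨(hS q).exact.lift (γ.v p q hpq) h1, (hS q).exact.lift_f _ _⟩
  choose c hc using key
  refine ⟨Cochain.mk c, ?_⟩
  ext p q hpq
  simp [hc]

private lemma orlA1_mono (hS : ∀ n, (S.map (HomologicalComplex.eval _ _ n)).ShortExact)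
    {m : ℤ} (γ : Cochain P S.X₁ m) (h : γ.comp (Cochain.ofHom S.f) (add_zero m) = 0) :
    γ = 0 := by
  ext p q hpq
  have hm : Mono (S.f.f q) := (hS q).mono_f
  rw [← cancel_mono (S.f.f q)]
  have := Cochain.congr_v h p q hpq
  simpa using this

private lemma orlA1_lift_epi (hS : ∀ n, (S.map (HomologicalComplex.eval _ _ n)).ShortExact)
    [∀ n, Projective (P.X n)] {m : ℤ} (γ : Cochain P S.X₃ m) :
    ∃ γ' : Cochain P S.X₂ m, γ'.comp (Cochain.ofHom S.g) (add_zero m) = γ := by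
  refine ⟨Cochain.mk fun p q hpq => by
    have he : Epi (S.g.f q) := (hS q).epi_g
    exact Projective.factorThru (γ.v p q hpq) (S.g.f q), ?_⟩
  ext p q hpq
  have he : Epi (S.g.f q) := (hS q).epi_g
  simp

private lemma orlA1_comp_zero {m : ℤ} (γ : Cochain P S.X₁ m) :
    (γ.comp (Cochain.ofHom S.f) (add_zero m)).comp (Cochain.ofHom S.g) (add_zero m) = 0 := by
  ext p q hpq
  have : S.f.f q ≫ S.g.f q = 0 := by
    rw [← HomologicalComplex.comp_f, S.zero, HomologicalComplex.zero_f]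
  simp [this]

private lemma orlA1_general1 (hS : ∀ n, (S.map (HomologicalComplex.eval _ _ n)).ShortExact)
    [∀ n, Projective (P.X n)] (hP : ∀ c : P ⟶ S.X₁⟦(1 : ℤ)⟧, Nonempty (Homotopy c 0))
    (φ : P ⟶ S.X₃) : ∃ ψ : P ⟶ S.X₂, ψ ≫ S.g = φ := by
  obtain ⟨g, hg⟩ := orlA1_lift_epi hS (Cochain.ofHom φ)
  obtain ⟨c, hc⟩ := orlA1_lift_mono hS (δ 0 1 g) (by
    rw [← δ_comp_ofHom, hg, δ_ofHom])
  have hc2 : δ 1 2 c = 0 := by
    apply orlA1_mono hS
    rw [← δ_comp_ofHom, hc, δ_δ]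
  obtain ⟨α, hα⟩ : ∃ α : Cochain P S.X₁ 0, δ 0 1 α = c := by
    let z : Cocycle P S.X₁ 1 := Cocycle.mk c 2 (by lia) hc2
    obtain ⟨φ', hφ'⟩ := (Cocycle.equivHom ..).surjective (z.rightShift 1 0 (zero_add 1))
    rw [Cocycle.ext_iff] at hφ'
    replace hφ' : Cochain.ofHom φ' = Cochain.rightShift c 1 0 (zero_add 1) := hφ'
    obtain ⟨h⟩ := hP φ'
    obtain ⟨f, hf⟩ := Cochain.equivHomotopy _ _ h
    rw [Cochain.ofHom_zero, add_zero] at hf
    refine ⟨-Cochain.rightUnshift f 0 (by lia), ?_⟩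
    rw [δ_neg, Cochain.δ_rightUnshift f 0 (by lia) 1 0 (by lia), ← hf, hφ',
      Cochain.rightUnshift_rightShift, Int.negOnePow_one, Units.neg_smul, one_smul, neg_neg]
  let w : Cocycle P S.X₂ 0 := Cocycle.mk (g - α.comp (Cochain.ofHom S.f) (add_zero 0)) 1
    (by lia) (by rw [δ_sub, δ_comp_ofHom, hα, hc, sub_self])
  refine ⟨Cocycle.homOf w, ?_⟩
  apply Cochain.ofHom_injective
  rw [Cochain.ofHom_comp, Cocycle.cochain_ofHom_homOf_eq_coe]
  show (g - α.comp (Cochain.ofHom S.f) (add_zero 0)).comp (Cochain.ofHom S.g) (add_zero 0) = _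
  rw [Cochain.sub_comp, hg, orlA1_comp_zero, sub_zero]

private lemma orlA1_general2 (hS : ∀ n, (S.map (HomologicalComplex.eval _ _ n)).ShortExact)
    [∀ n, Projective (P.X n)] (hP : ∀ c : P ⟶ S.X₁, Nonempty (Homotopy c 0))
    (ψ : P ⟶ S.X₂) (h : Nonempty (Homotopy (ψ ≫ S.g) 0)) : Nonempty (Homotopy ψ 0) := by
  obtain ⟨h⟩ := h
  obtain ⟨z, hz⟩ := Cochain.equivHomotopy _ _ h
  rw [Cochain.ofHom_zero, add_zero] at hz
  obtain ⟨z', hz'⟩ := orlA1_lift_epi hS z
  obtain ⟨c, hc⟩ := orlA1_lift_mono hS (Cochain.ofHom ψ - δ (-1) 0 z') (by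
    rw [Cochain.sub_comp, ← Cochain.ofHom_comp, ← δ_comp_ofHom, hz', hz, sub_self])
  have hc2 : δ 0 1 c = 0 := by
    apply orlA1_mono hS
    rw [← δ_comp_ofHom, hc, δ_sub, δ_δ, δ_ofHom, sub_zero]
  let w : Cocycle P S.X₁ 0 := Cocycle.mk c 1 (by lia) hc2
  obtain ⟨h'⟩ := hP (Cocycle.homOf w)
  obtain ⟨y, hy⟩ := Cochain.equivHomotopy _ _ h'
  rw [Cochain.ofHom_zero, add_zero, Cocycle.cochain_ofHom_homOf_eq_coe] at hy
  have hy' : c = δ (-1) 0 y := hy
  refine ⟨(Cochain.equivHomotopy ψ 0).symm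
    ⟨z' + y.comp (Cochain.ofHom S.f) (add_zero (-1)), ?_⟩⟩
  rw [Cochain.ofHom_zero, add_zero, δ_add, δ_comp_ofHom, ← hy', hc]
  abel

end General

variable {f : Pol 5} {hf : f.IsHomogeneous 3}

theorem exists_lift_NE (hf0 : f ≠ 0) (E F : MF f) (φ : PE hf E ⟶ NE hf F) :
    ∃ ψ : PE hf E ⟶ PE hf F, ψ ≫ NEπ hf F = φ := by
  have hp : ∀ n, Projective ((PE hf E).X n) := fun n => by
    change Projective (FrG _ _ _)
    infer_instance
  exact orlA1_general1 (S := NEses hf F) (NEses_degreewise hf F)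
    (fun c => null_to_LE_shift hf0 E F 1 c) φ

theorem null_of_NE (hf0 : f ≠ 0) {E F : MF f} (ψ : PE hf E ⟶ PE hf F)
    (h : Nonempty (Homotopy (ψ ≫ NEπ hf F) 0)) : Nonempty (Homotopy ψ 0) := by
  have hp : ∀ n, Projective ((PE hf E).X n) := fun n => by
    change Projective (FrG _ _ _)
    infer_instance
  exact orlA1_general2 (S := NEses hf F) (NEses_degreewise hf F)
    (fun c => null_to_LE hf0 E F c) ψ h

end H24.Ku
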