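import Pool.Agent.H27.Orl.Phi

/-!
# KUD-2 PEexact: `P_E` is acyclic, and `Hom(P_E, free)` is exact

`PE_acyclic`: use `acyclic_iff` (file `H24/Ku/Ev.lean`). Given `x` in degree `(n, m)` with `d x = 0`:
`a := frVal x : E.ι → A`, entries of weight `2 m + 3 n - w i`; choose a polynomial vector `v` with
homogeneous entries reducing to `a` (`mem_wtA`; or `exists_red` for a matrix with one column). By
`PE_d` and `frVal_matG`, `red E.Q *ᵥ a = 0`, so `E.Q *ᵥ v` reduces to `0` and by
`exists_of_red_eq_zero` (one column) `E.Q *ᵥ v = f • u = E.Q *ᵥ (E.Q *ᵥ u)` (`E.sq`), `u` of weight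
`2 m + 3 (n-1) - w i`. `E.Q *ᵥ (v - E.Q *ᵥ u) = 0` implies `f • (v - E.Q *ᵥ u) = 0`, so
`v = E.Q *ᵥ u` (`f ≠ 0`). Take `y := frMk (reduction of u)`.

`PE_hom_exact`: `g = matG T _` (`exists_matG`), lift `T` to `T'` (`exists_red`, weights
`E.w i - w' k + (q' - 3 n)`). The hypothesis: `red (T' * E.Q)` vanishes in the columns `j` with
`E.w j - 3 (n-1)` even (`eq_of_matG_eq`). Put `U j := if Even (E.w j - 3 (n-1)) then column j of
T' * E.Q else 0`; `red U = 0`, so `U = f • S` (`exists_of_red_eq_zero`). Then in the columns `i` with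
`E.w i - 3 n` even: `T' = S * E.Q`: multiply by `f = E.Q * E.Q`: for such `i`,
`f • T' i = (T' * E.Q * E.Q) i = (U * E.Q) i = f • (S * E.Q) i`, because `E.Q j i ≠ 0` only for
`E.w j - 3 (n-1)` even (`Hg (E.Q j i) (E.w i - E.w j + 3)` and parity). Cancel `f`.
`h := mg hf E.w w' (3 (n+1)) q' S _` (weights of `S`: `E.w j - w' k + (q' - 3 n) + 3 - 6`), and
`PE_d ≫ h = matG (red (S * E.Q)) = g` by `matG_congr`.
-/

open CategoryTheory CategoryTheory.Limits MvPolynomial KuMF

set_option backward.isDefEq.respectTransparency false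

noncomputable section

namespace H24.Ku

variable {f : Pol 5} {hf : f.IsHomogeneous 3}

/-- cancellation of `f` -/
lemma smul_f_cancel (hf0 : f ≠ 0) {ι κ : Type} {S T : Matrix κ ι (Pol 5)} (h : f • S = f • T) :
    S = T := by
  refine Matrix.ext fun k i => ?_
  have h1 : f * S k i = f * T k i := congrFun (congrFun h k) i
  exact mul_left_cancel₀ hf0 h1

theorem PE_acyclic (hf0 : f ≠ 0) (E : MF f) : (PE hf E).Acyclic := by
  rw [acyclic_iff]
  intro n m x hx
  obtain ⟨v, hv1, hv2⟩ := exists_red (hf := hf)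
    (Matrix.of fun i (_ : Unit) => frVal (w := E.w) (q := 3 * n) x i)
    (fun i _ => 2 * m.deg + 3 * n - E.w i) (fun i _ => frVal_mem (w := E.w) (q := 3 * n) x i)
  have h1 : (red hf E.Q).mulVec (frVal (w := E.w) (q := 3 * n) x) = 0 := by
    rw [PE_d E n (n + 1) rfl] at hx
    exact congrArg (frVal (w := E.w) (q := 3 * (n + 1))) hx
  have h2 : red hf (E.Q * v) = 0 := by
    rw [red_mul, hv2]
    ext i u : 2
    exact congrFun h1 i
  have h3 : ∀ i (u : Unit), Hg ((E.Q * v) i u) (2 * m.deg + 3 * n + 3 - E.w i) := by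
    intro i u
    rw [Matrix.mul_apply]
    exact Hg.sum _ fun l _ => ((E.hQ i l).mul (hv1 l u)).of_eq (by ring)
  obtain ⟨u, hu1, hu2⟩ := exists_of_red_eq_zero (hf := hf) _ _ h3 h2
  have h4 : v = E.Q * u := by
    refine smul_f_cancel hf0 ?_
    have h5 : E.Q * (E.Q * v) = E.Q * (f • u) := by rw [hu2]
    rw [← Matrix.mul_assoc, E.sq, Matrix.smul_mul, Matrix.one_mul, Matrix.mul_smul] at h5
    exact h5
  refine ⟨frMk (w := E.w) (q := 3 * (n - 1)) (fun i => red hf u i ()) (fun i =>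
    red_mem_wtA ((hu1 i ()).of_eq (by ring))), ?_⟩
  rw [PE_d E (n - 1) n (by ring)]
  apply frVal_injective (w := E.w) (q := 3 * n)
  change (red hf E.Q).mulVec (fun i => red hf u i ()) = frVal (w := E.w) (q := 3 * n) x
  have h6 : red hf E.Q * red hf u = Matrix.of fun i (_ : Unit) =>
      frVal (w := E.w) (q := 3 * n) x i := by
    rw [← red_mul, ← h4, hv2]
  funext i
  exact congrFun (congrFun h6 i) ()

theorem PE_hom_exact (hf0 : f ≠ 0) (E : MF f) {κ : Type} [Fintype κ] (w' : κ → ℤ) (q' n : ℤ)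
    (g : (PE hf E).X n ⟶ FrG (cubic f hf) w' q') (hg : (PE hf E).d (n - 1) n ≫ g = 0) :
    ∃ h : (PE hf E).X (n + 1) ⟶ FrG (cubic f hf) w' q', (PE hf E).d n (n + 1) ≫ h = g := by
  classical
  obtain ⟨T0, hT0, hg0⟩ := exists_matG (w := E.w) (q := 3 * n) g
  obtain ⟨T, hT1, hT2⟩ := exists_red (hf := hf) T0 _ hT0
  subst hT2
  have hg1 : g = mg hf E.w w' (3 * n) q' T hT1 := hg0
  have hTQ : ∀ k j, Hg ((T * E.Q) k j) (E.w j - w' k + (q' - 3 * (n - 1))) := by
    intro k j
    rw [Matrix.mul_apply]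
    exact Hg.sum _ fun l _ => ((hT1 k l).mul (E.hQ l j)).of_eq (by ring)
  have h1 : mg hf E.w w' (3 * (n - 1)) q' (T * E.Q) hTQ = 0 := by
    rw [hg1, PE_d E (n - 1) n (by ring)] at hg
    exact (mg_comp _ _ _ _ hTQ).symm.trans hg
  have h2 : ∀ k j, Even (E.w j - 3 * (n - 1)) → red hf (T * E.Q) k j = 0 := by
    intro k j hj
    exact eq_of_matG_eq (T' := 0) (hT' := fun _ _ => Submodule.zero_mem _)
      (h1.trans matG_zero.symm) k j hj
  set U : Matrix κ E.ι (Pol 5) := Matrix.of fun k j =>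
    if Even (E.w j - 3 * (n - 1)) then (T * E.Q) k j else 0 with hU
  have hU1 : ∀ k j, Hg (U k j) (E.w j - w' k + (q' - 3 * (n - 1))) := by
    intro k j
    rw [hU, Matrix.of_apply]
    split_ifs
    · exact hTQ k j
    · exact Hg.zero _
  have hU2 : red hf U = 0 := by
    ext k j : 2
    rw [red_apply, hU, Matrix.of_apply]
    split_ifs with hj
    · exact h2 k j hj
    · rw [map_zero]
      rfl
  obtain ⟨S, hS1, hS2⟩ := exists_of_red_eq_zero (hf := hf) U _ hU1 hU2
  have hS3 : ∀ k i, Hg (S k i) (E.w i - w' k + (q' - 3 * (n + 1))) := fun k i =>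
    (hS1 k i).of_eq (by ring)
  have hSQ : ∀ k j, Hg ((S * E.Q) k j) (E.w j - w' k + (q' - 3 * n)) := by
    intro k j
    rw [Matrix.mul_apply]
    exact Hg.sum _ fun l _ => ((hS3 k l).mul (E.hQ l j)).of_eq (by ring)
  have h3 : ∀ k i, Even (E.w i - 3 * n) → (S * E.Q) k i = T k i := by
    intro k i hi
    have h4 : f * T k i = (T * E.Q * E.Q) k i := by
      rw [Matrix.mul_assoc, E.sq, Matrix.mul_smul, Matrix.mul_one]
      rfl
    have h5 : (T * E.Q * E.Q) k i = (U * E.Q) k i := by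
      rw [Matrix.mul_apply, Matrix.mul_apply]
      refine Finset.sum_congr rfl fun j _ => ?_
      rw [hU, Matrix.of_apply]
      split_ifs with hj
      · rfl
      · have h6 : E.Q j i = 0 := by
          refine eq_zero_of_mem_wt (E.hQ j i) ?_
          intro h7
          apply hj
          obtain ⟨a, ha⟩ := hi
          obtain ⟨b, hb⟩ := h7
          exact ⟨a - b + 3, by omega⟩
        rw [h6, mul_zero, mul_zero]
    have h7 : (U * E.Q) k i = f * (S * E.Q) k i := by
      rw [hS2, Matrix.smul_mul]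
      rfl
    refine mul_left_cancel₀ hf0 ?_
    rw [h4, h5, h7]
  refine ⟨mg hf E.w w' (3 * (n + 1)) q' S hS3, ?_⟩
  rw [hg1, PE_d E n (n + 1) rfl]
  refine (mg_comp _ _ _ _ hSQ).trans ?_
  refine matG_congr fun k i hi => ?_
  rw [red_apply, red_apply, h3 k i hi]

end H24.Ku
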