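import Pool.Agent.H27.Orl.Q1Fr
import Pool.Agent.H27.Orl.PEexact
import Pool.Agent.H27.Orl.GrD

/-!
# KUD-9 OrlB: `N_E` is K-projective, bounded, and lives in degrees `≥ 1`

`NE_strictlyLE`: `(NE hf E).X n = (Q1 _).obj (FrG _ E.w (3 n))` is zero if `E.w i ≤ 3 n` for all `i`
(`isZero_Q1_FrG`; `E.ι` is finite). `NE_isKProjective`: `CochainComplex.isKProjective_of_projective`
with `projective_Q1_FrG`. `LE_strictlyGE`: `isZero_lowF_FrG`. `NE_bounded`: above: strictly bounded.
Below: `H^n(N_E) ≅ H^(n+1)(L_E)` from the long exact homology sequence of `NEses_shortExact` and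
`PE_acyclic` (`HomologicalComplex.HomologySequence`, `ShortComplex.ShortExact.homology_exact₃`:
`H^n(P_E) = 0 → H^n(N_E) → H^(n+1)(L_E)`: `N_E` is exact in degree `n` if `L_E` is in degree `n+1`),
zero for `n` small; so `(NE hf E).IsGE a` and `(Q.obj (NE hf E)).IsGE a` (`isGE_Q_obj_iff`).
`NE_homology_zero`: `(homologyFunctor _ j).obj (Q.obj K) ≅ K.homology j`
(`homologyFunctorFactors`), and `K.homology j` in degree `m` is a subquotient of `(K.X j)_m = 0`
(`Q1_subsingleton`): use the exact functor `evalDeg X m` (`Functor.mapHomologicalComplex`, or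
`ShortComplex.homologyMap`/`(K.sc j).mapHomologyIso (evalDeg X m)`, and `IsZero` of the middle
object of `(K.sc j).map (evalDeg X m)` gives `IsZero` of the homology).
-/

open CategoryTheory CategoryTheory.Limits MvPolynomial KuMF DerivedCategory

set_option backward.isDefEq.respectTransparency false

noncomputable section

namespace H24.Ku

variable {f : Pol 5} (hf : f.IsHomogeneous 3)

lemma orlB_upper (E : MF f) : ∃ m : ℤ, ∀ i, E.w i ≤ m := by
  obtain ⟨m, hm⟩ := (Set.finite_range E.w).bddAbove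
  exact ⟨m, fun i => hm ⟨i, rfl⟩⟩

lemma orlB_lower (E : MF f) : ∃ m : ℤ, ∀ i, m ≤ E.w i := by
  obtain ⟨m, hm⟩ := (Set.finite_range E.w).bddBelow
  exact ⟨m, fun i => hm ⟨i, rfl⟩⟩

theorem NE_strictlyLE (E : MF f) : ∃ b : ℤ, (NE hf E).IsStrictlyLE b := by
  obtain ⟨m, hm⟩ := orlB_upper E
  refine ⟨m / 3, ?_⟩
  rw [CochainComplex.isStrictlyLE_iff]
  intro n hn
  rw [NE_X]
  exact isZero_Q1_FrG E.w (3 * n) fun i => by
    have := hm i
    omega

theorem NE_isKProjective (E : MF f) : (NE hf E).IsKProjective := by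
  obtain ⟨b, hb⟩ := NE_strictlyLE hf E
  have : ∀ n : ℤ, Projective ((NE hf E).X n) := fun n => by
    rw [NE_X]
    exact projective_Q1_FrG E.w (3 * n)
  exact CochainComplex.isKProjective_of_projective _ b

theorem LE_strictlyGE (E : MF f) : ∃ a : ℤ, (LE hf E).IsStrictlyGE a := by
  obtain ⟨m, hm⟩ := orlB_lower E
  refine ⟨m / 3, ?_⟩
  rw [CochainComplex.isStrictlyGE_iff]
  intro n hn
  rw [LE_X]
  exact isZero_lowF_FrG E.w (3 * n) fun i => by
    have := hm i
    omega

lemma orlB_isGE (hf0 : f ≠ 0) (E : MF f) : ∃ a : ℤ, (NE hf E).IsGE a := by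
  obtain ⟨a, ha⟩ := LE_strictlyGE hf E
  refine ⟨a - 1, ?_⟩
  rw [CochainComplex.isGE_iff]
  intro n hn
  rw [HomologicalComplex.exactAt_iff_isZero_homology]
  have h1 := (NEses_shortExact hf E).homology_exact₃ n (n + 1) (by simp)
  have hP : IsZero ((PE hf E).homology n) := by
    rw [← HomologicalComplex.exactAt_iff_isZero_homology]
    exact PE_acyclic hf0 E n
  have hL : IsZero ((LE hf E).homology (n + 1)) := by
    rw [← HomologicalComplex.exactAt_iff_isZero_homology]
    apply HomologicalComplex.ExactAt.of_isZero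
    exact (LE hf E).isZero_of_isStrictlyGE a (n + 1) (by omega)
  exact h1.isZero_of_both_zeros (hP.eq_of_src _ _) (hL.eq_of_tgt _ _)

theorem NE_bounded (hf0 : f ≠ 0) (E : MF f) :
    TStructure.t.bounded (Q.obj (NE hf E)) := by
  obtain ⟨a, ha⟩ := orlB_isGE hf hf0 E
  obtain ⟨b, hb⟩ := NE_strictlyLE hf E
  exact ⟨⟨a, inferInstanceAs ((Q.obj (NE hf E)).IsGE a)⟩,
    ⟨b, inferInstanceAs ((Q.obj (NE hf E)).IsLE b)⟩⟩

theorem NE_homology_zero (E : MF f) (j : ℤ) (m : Deg (cubic f hf)) (hm : m.deg ≤ 0) :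
    Subsingleton (((homologyFunctor _ j).obj (Q.obj (NE hf E))).obj.obj m) := by
  have h1 : IsZero ((evalDeg _ m).obj ((NE hf E).homology j)) := by
    have h2 : IsZero (((NE hf E).sc j).map (evalDeg _ m)).X₂ := by
      have := Q1_subsingleton (FrG (cubic f hf) E.w (3 * j)) hm
      exact ModuleCat.isZero_iff_subsingleton.2 this
    have h3 := (ShortComplex.exact_iff_isZero_homology _).1 (ShortComplex.exact_of_isZero_X₂ _ h2)
    exact h3.of_iso (((NE hf E).sc j).mapHomologyIso (evalDeg _ m)).symm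
  have h4 : IsZero ((evalDeg _ m).obj ((homologyFunctor _ j).obj (Q.obj (NE hf E)))) :=
    h1.of_iso ((evalDeg _ m).mapIso ((homologyFunctorFactors _ j).app (NE hf E)))
  exact ModuleCat.isZero_iff_subsingleton.1 h4

end H24.Ku
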