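import Pool.Agent.H27.Orl.OrlB
import Pool.Agent.H27.Orl.HomExt
import Pool.Agent.H27.Orl.FinExt

/-!
# KUD-17 OrlC: no maps from modules of finite length in degrees `≥ -2` to `N_F`

The triangle `Q L_F ⟶ Q P_F ⟶ Q N_F ⟶ (Q L_F)⟦1⟧` (`triangleOfSES_distinguished (NEses_shortExact ..)`)
with `Q P_F` zero (`PE_acyclic`; `DerivedCategory` `isZero_Q_obj_iff_acyclic` or similar) gives
`Q N_F ≅ (Q L_F)⟦1⟧`. So a map `S T ⟶ (Q N_F)⟦i⟧` is a map `S T ⟶ (Q L_F)⟦i + 1⟧`, which is zero by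
`hom_eq_zero_of_ext`: `L_F` is strictly bounded below (`LE_strictlyGE`),
`(LE hf F).X k ≅ FrG _ (restricted weights) (3 k)` (`low_FrG_iso`, `LE_X`), and `finLen_ext`.
-/

open CategoryTheory CategoryTheory.Limits MvPolynomial KuMF DerivedCategory

set_option backward.isDefEq.respectTransparency false

noncomputable section

namespace H24.Ku

variable {f : Pol 5} (hf : f.IsHomogeneous 3)

/-- an acyclic complex is zero in the derived category -/
lemma orlC_isZero {C : Type*} [Category C] [Abelian C] [HasDerivedCategory C]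
    {K : CochainComplex C ℤ} (hK : K.Acyclic) : IsZero (Q.obj K) := by
  have h1 : QuasiIso (0 : K ⟶ K) := by
    rw [quasiIso_iff]
    intro i
    exact (quasiIsoAt_iff_exactAt _ i (hK i)).2 (hK i)
  have h2 : IsIso (Q.map (0 : K ⟶ K)) := inferInstance
  rw [Functor.map_zero] at h2
  rw [IsZero.iff_id_eq_zero, ← IsIso.hom_inv_id (0 : Q.obj K ⟶ Q.obj K), zero_comp]

theorem fin_to_LE (hc : f.coeff (Finsupp.single 5 3) ≠ 0) {T : Gr (cubic f hf)}
    (hT : finLen _ T) (hT2 : ∀ m : Deg (cubic f hf), m.deg < -2 → Subsingleton (T.obj.obj m))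
    (F : MF f) (i : ℤ) (φ : (singleFunctor (Gr (cubic f hf)) 0).obj T ⟶ (Q.obj (LE hf F))⟦i⟧) :
    φ = 0 := by
  obtain ⟨a, ha⟩ := LE_strictlyGE hf F
  refine hom_eq_zero_of_ext (LE hf F) a ha ?_ i φ
  intro k n x
  obtain ⟨e⟩ : Nonempty ((LE hf F).X k ≅
    FrG (cubic f hf) (fun i : {i : F.ι // F.w i ≤ 3 * k} => F.w i.1) (3 * k)) :=
    low_FrG_iso F.w (3 * k)
  have h := finLen_ext hf hc hT hT2 (fun i : {i : F.ι // F.w i ≤ 3 * k} => F.w i.1) (3 * k)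
    (fun i => i.2) n (x.comp (Abelian.Ext.mk₀ e.hom) (add_zero n))
  have h2 : x = (x.comp (Abelian.Ext.mk₀ e.hom) (add_zero n)).comp (Abelian.Ext.mk₀ e.inv)
      (add_zero n) := by
    rw [Abelian.Ext.comp_assoc_of_third_deg_zero, Abelian.Ext.mk₀_comp_mk₀, e.hom_inv_id,
      Abelian.Ext.comp_mk₀_id]
  rw [h2, h, Abelian.Ext.zero_comp]

theorem fin_to_NE (hf0 : f ≠ 0) (hc : f.coeff (Finsupp.single 5 3) ≠ 0) {T : Gr (cubic f hf)}
    (hT : finLen _ T) (hT2 : ∀ m : Deg (cubic f hf), m.deg < -2 → Subsingleton (T.obj.obj m))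
    (F : MF f) (i : ℤ) (φ : (singleFunctor (Gr (cubic f hf)) 0).obj T ⟶ (Q.obj (NE hf F))⟦i⟧) :
    φ = 0 := by
  have hdist := triangleOfSES_distinguished (NEses_shortExact hf F)
  have hzero : IsZero (triangleOfSES (NEses_shortExact hf F)).obj₂ :=
    orlC_isZero (PE_acyclic hf0 F)
  have hiso : IsIso (triangleOfSES (NEses_shortExact hf F)).mor₃ :=
    ((triangleOfSES (NEses_shortExact hf F)).isZero₂_iff_isIso₃ hdist).1 hzero
  let δ : Q.obj (NE hf F) ⟶ (Q.obj (LE hf F))⟦(1 : ℤ)⟧ :=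
    (triangleOfSES (NEses_shortExact hf F)).mor₃
  have hδ : IsIso δ := hiso
  let ψ : (Q.obj (NE hf F))⟦i⟧ ⟶ (Q.obj (LE hf F))⟦1 + i⟧ :=
    δ⟦i⟧' ≫ (shiftFunctorAdd' (DerivedCategory (Gr (cubic f hf))) (1 : ℤ) i (1 + i) rfl).inv.app
      (Q.obj (LE hf F))
  have hψ : IsIso ψ := inferInstance
  have h := fin_to_LE hf hc hT hT2 F (1 + i) (φ ≫ ψ)
  exact (cancel_mono ψ).1 (h.trans zero_comp.symm)

end H24.Ku
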