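import Pool.Agent.H27.Orl.OrlC
import Pool.Agent.H63.CMP.Final
import Pool.Agent.H24.Ku.CohTwist

/-!
# KUD-18 OrlD: `sheaf` is fully faithful on the complexes `N_E`

`tailsGr`: `t k = geF X k`; `dense`: the cokernel of `(geι X k).app M` is `ltG X k M`
(`GrSub.ses_shortExact`), which is in `finLen X` (`ltG_subsingleton`); see `isoModSerre` (kernel and
cokernel in the Serre class; `ObjectProperty.isoModSerre_iff` or similar, compare `CohTwist.lean` and
`Pool/Agent/H63/KH/Frac.lean`). `zero`: `C` with `C_n = 0` for `n ≥ n₀`: `k = n₀.toNat`,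
`(geF X k).obj C` is zero in every degree (`geF_subsingleton`, `isZero_iff_subsingleton`).
`coker_iso`: `cokernel ((tailsGr X).i k).app M) ≅ ltG X k M`.
`sheaf_map_bijective`: `Pool.Agent.H63.CMP.cmp` with `L = sheaf X`, `W = finLen X`,
`M = Q.obj (NE hf E)`, `N = Q.obj (NE hf F)`: `NE_bounded`, and the vanishing is `fin_to_NE` for
`T = cokernel ≅ ltG k (H^j M)`, which is in degrees `≥ 1` (`NE_homology_zero`; a quotient of zero is
zero) and `finLen`.
`sheaf_map_bijective_free`: the same with `cmp_module` for `M = free X i`, `0 ≤ i ≤ 2`: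
`ltG X k (free X i)` is zero in degrees `< -i` (`deg_hom_eq_zero`), `-i ≥ -2`.
-/

open CategoryTheory CategoryTheory.Limits MvPolynomial KuMF DerivedCategory

set_option backward.isDefEq.respectTransparency false

noncomputable section

namespace H24.Ku

lemma ltG_finLen (X : ProjData) (k : ℤ) (M : Gr X) : finLen X (ltG X k M) :=
  ⟨k, fun _ hn => ltG_subsingleton M hn⟩

/-- `coker (M_{≥ k} ⟶ M) ≅ M_{< k}` -/
def cokerGeι (X : ProjData) (k : ℤ) (M : Gr X) : cokernel ((geι X k).app M) ≅ ltG X k M :=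
  (cokernelIsCokernel ((geι X k).app M)).coconePointUniqueUpToIso
    (geSub k M).ses_shortExact.gIsCokernel

/-- The tails `M_{≥ k}` of graded modules. -/
def tailsGr (X : ProjData) : Pool.Agent.H63.CMP.Tails (finLen X) where
  t k := geF X k
  additive k := inferInstance
  lim k := inferInstance
  colim k := inferInstance
  i k := geι X k
  dense k M := by
    refine ⟨inferInstance, ?_⟩
    refine (finLen X).isoModSerre_of_mono _ ?_
    rw [ObjectProperty.epiModSerre_iff]
    exact (finLen X).prop_of_iso (cokerGeι X k M).symm (ltG_finLen X k M)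
  zero C hC := by
    obtain ⟨n₀, h⟩ := hC
    refine ⟨n₀.toNat, ?_⟩
    rw [isZero_iff_subsingleton]
    intro m
    by_cases hm : m.deg < (n₀.toNat : ℤ)
    · exact geF_subsingleton C hm
    · have h1 : Subsingleton (((𝟭 (Gr X)).obj C).obj.obj m) := h m (by omega)
      exact (gr_injective ((geι X n₀.toNat).app C) m).subsingleton

theorem coker_iso (X : ProjData) (k : ℕ) (M : Gr X) :
    Nonempty (cokernel (((tailsGr X).i k).app M) ≅ ltG X k M) :=
  ⟨cokerGeι X k M⟩

lemma ltG_subsingleton_of_subsingleton {X : ProjData} (k : ℤ) (M : Gr X) (m : Deg X)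
    (h : Subsingleton (M.obj.obj m)) : Subsingleton ((ltG X k M).obj.obj m) :=
  ((geSub k M).π_surjective m).subsingleton

variable {f : Pol 5} (hf : f.IsHomogeneous 3)

theorem coker_to_NE (hf0 : f ≠ 0) (hc : f.coeff (Finsupp.single 5 3) ≠ 0)
    (M : Gr (cubic f hf)) (hM : ∀ m : Deg (cubic f hf), m.deg < -2 → Subsingleton (M.obj.obj m))
    (F : MF f) (k : ℕ) (i : ℤ)
    (φ : (singleFunctor (Gr (cubic f hf)) 0).obj
      (cokernel (((tailsGr (cubic f hf)).i k).app M)) ⟶ (Q.obj (NE hf F))⟦i⟧) : φ = 0 := by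
  let e : (singleFunctor (Gr (cubic f hf)) 0).obj
      (cokernel (((tailsGr (cubic f hf)).i k).app M)) ≅
      (singleFunctor (Gr (cubic f hf)) 0).obj (ltG (cubic f hf) k M) :=
    (singleFunctor (Gr (cubic f hf)) 0).mapIso (cokerGeι (cubic f hf) k M)
  have h1 : e.inv ≫ φ = 0 :=
    fin_to_NE hf hf0 hc (ltG_finLen _ _ _)
      (fun m hm => ltG_subsingleton_of_subsingleton _ M m (hM m hm)) F i _
  exact (cancel_epi e.inv).1 (h1.trans comp_zero.symm)

theorem sheaf_map_bijective (hf0 : f ≠ 0) (hc : f.coeff (Finsupp.single 5 3) ≠ 0) (E F : MF f) :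
    Function.Bijective (fun φ : Q.obj (NE hf E) ⟶ Q.obj (NE hf F) =>
      (sheaf (cubic f hf)).mapDerivedCategory.map φ) :=
  Pool.Agent.H63.CMP.cmp (sheaf (cubic f hf)) (tailsGr _) _ _ (NE_bounded hf hf0 E)
    (NE_bounded hf hf0 F) fun j k i φ =>
      coker_to_NE hf hf0 hc _ (fun m hm => NE_homology_zero hf E j m (by omega)) F k i φ

theorem sheaf_map_bijective_free (hf0 : f ≠ 0) (hc : f.coeff (Finsupp.single 5 3) ≠ 0) (i : ℤ)
    (h0 : 0 ≤ i) (h2 : i ≤ 2) (F : MF f) (n : ℤ) :
    Function.Bijective (fun φ : (singleFunctor (Gr (cubic f hf)) 0).obj (free _ i) ⟶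
        (Q.obj (NE hf F))⟦n⟧ => (sheaf (cubic f hf)).mapDerivedCategory.map φ) :=
  Pool.Agent.H63.CMP.cmp_module (sheaf (cubic f hf)) (tailsGr _) _ (NE_bounded hf hf0 F) _
    (fun k j φ => coker_to_NE hf hf0 hc _ (fun m hm => by
      have h : ∀ a b : ((⟨-i⟩ : Deg (cubic f hf)) ⟶ m), a = b := fun a b => by
        rw [deg_hom_eq_zero a (show m.deg < -i by omega),
          deg_hom_eq_zero b (show m.deg < -i by omega)]
      exact ⟨h⟩) F k j φ) n

end H24.Ku
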