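import Pool.Agent.H27.Orl.Mat
import Pool.Agent.H24.Ku.Statement
import Pool.Agent.H91.MF.Basic

/-!
# The complex of graded modules attached to a graded matrix factorization

`X = cubic f hf`. `PE hf E` is the complex `P_E`, `P_E^n = FrG X E.w (3 n)`, with the differential
given by `E.Q` modulo `f`. A cocycle `α ∈ MF.Z E F (3 n)` gives `phi : P_E ⟶ P_F⟦n⟧`.
`kProp f hf` is the class of the objects of the homotopy category isomorphic to some `P_E`.
-/

open CategoryTheory CategoryTheory.Limits MvPolynomial KuMF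

set_option backward.isDefEq.respectTransparency false
set_option linter.unusedSectionVars false

noncomputable section

namespace H24.Ku

variable {f : Pol 5} (hf : f.IsHomogeneous 3)

lemma hg_iff {p : Pol 5} {e : ℤ} : Hg p e ↔ p ∈ wt 5 e := Iff.rfl

/-- Reduction of a matrix modulo `f`. -/
def red {ι κ : Type} (T : Matrix κ ι (Pol 5)) : Matrix κ ι (cubic f hf).A :=
  T.map (Ideal.Quotient.mk (cubic f hf).I)

variable {hf}

lemma red_apply {ι κ : Type} (T : Matrix κ ι (Pol 5)) (k : κ) (i : ι) :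
    red hf T k i = Ideal.Quotient.mk (cubic f hf).I (T k i) := rfl

lemma red_mul {ι κ τ : Type} [Fintype κ] (T : Matrix τ κ (Pol 5)) (S : Matrix κ ι (Pol 5)) :
    red hf (T * S) = red hf T * red hf S := Matrix.map_mul

lemma red_add {ι κ : Type} (T S : Matrix κ ι (Pol 5)) :
    red hf (T + S) = red hf T + red hf S := Matrix.map_add _ (map_add _) _ _

lemma red_sub {ι κ : Type} (T S : Matrix κ ι (Pol 5)) :
    red hf (T - S) = red hf T - red hf S := Matrix.map_sub _ (map_sub _) _ _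

lemma red_neg {ι κ : Type} (T : Matrix κ ι (Pol 5)) :
    red hf (-T) = -red hf T := by
  ext; simp [red_apply]

lemma red_zero {ι κ : Type} : red hf (0 : Matrix κ ι (Pol 5)) = 0 := by
  ext; simp [red_apply]

lemma red_one {ι : Type} [DecidableEq ι] : red hf (1 : Matrix ι ι (Pol 5)) = 1 :=
  Matrix.map_one _ (map_zero _) (map_one _)

lemma red_smul {ι κ : Type} (c : ℂ) (T : Matrix κ ι (Pol 5)) :
    red hf (c • T) = c • red hf T := by
  ext; rfl

lemma red_zsmul {ι κ : Type} (c : ℤ) (T : Matrix κ ι (Pol 5)) :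
    red hf (c • T) = c • red hf T := by
  ext; simp [red_apply]

lemma mk_f : Ideal.Quotient.mk (cubic f hf).I f = 0 :=
  Ideal.Quotient.eq_zero_iff_mem.2 (Ideal.mem_span_singleton_self f)

lemma red_f_smul {ι κ : Type} (T : Matrix κ ι (Pol 5)) : red hf (f • T) = 0 := by
  ext k i
  rw [red_apply, Matrix.smul_apply, smul_eq_mul, map_mul, mk_f, zero_mul]
  rfl

/-- A matrix over `A` with homogeneous entries lifts to a matrix of polynomials. -/
lemma exists_red {ι κ : Type} (T : Matrix κ ι (cubic f hf).A) (c : κ → ι → ℤ)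
    (hT : ∀ k i, T k i ∈ (cubic f hf).wtA (c k i)) :
    ∃ T' : Matrix κ ι (Pol 5), (∀ k i, Hg (T' k i) (c k i)) ∧ red hf T' = T := by
  choose T' h1 h2 using fun k i => mem_wtA.1 (hT k i)
  exact ⟨T', h1, by ext k i; exact h2 k i⟩

lemma mem_homog_of_isHomogeneous {N d : ℕ} {p : Pol N} (h : p.IsHomogeneous d) :
    p ∈ homog N d := by
  intro m hm
  have h1 := h (MvPolynomial.mem_support_iff.1 hm)
  have h2 : m.degree = d := by
    rw [Finsupp.degree_eq_weight_one]
    exact h1
  rw [h2]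

include hf in
lemma hg_f : Hg f 6 := by
  rw [hg_iff, show (6 : ℤ) = 2 * (3 : ℕ) by norm_num, wt_two_mul]
  exact mem_homog_of_isHomogeneous hf

/-- If the reduction of a matrix is zero, the matrix is a multiple of `f`. -/
lemma exists_of_red_eq_zero {ι κ : Type} (T : Matrix κ ι (Pol 5)) (c : κ → ι → ℤ)
    (hT : ∀ k i, Hg (T k i) (c k i)) (h : red hf T = 0) :
    ∃ S : Matrix κ ι (Pol 5), (∀ k i, Hg (S k i) (c k i - 6)) ∧ T = f • S := by
  have h1 : ∀ k i, ∃ s : Pol 5, Hg s (c k i - 6) ∧ T k i = f * s := by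
    intro k i
    have h2 : Ideal.Quotient.mk (cubic f hf).I (T k i) = 0 := congrFun (congrFun h k) i
    rw [Ideal.Quotient.eq_zero_iff_mem] at h2
    obtain ⟨s, hs⟩ : ∃ s : Pol 5, s * f = T k i := Ideal.mem_span_singleton'.1 h2
    by_cases hs0 : T k i = 0
    · exact ⟨0, Hg.zero _, by rw [hs0, mul_zero]⟩
    have hev : ∃ d : ℤ, 2 * d = c k i := by
      obtain ⟨m, hm⟩ := MvPolynomial.support_nonempty.2 hs0
      exact ⟨m.degree, hT k i m hm⟩
    obtain ⟨d, hd⟩ := hev
    have hTh : T k i ∈ homog 5 d := by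
      rw [← wt_two_mul, hd]
      exact hT k i
    refine ⟨cp (d - 3) s, ?_, ?_⟩
    · rw [← hd, show 2 * d - 6 = 2 * (d - 3) by ring, hg_iff, wt_two_mul]
      exact cp_mem _ _
    · have h3 : cp d (s * f) = cp (d - 3) s * f := cp_mul s (mem_homog_of_isHomogeneous hf)
      rw [mul_comm f, ← h3]
      change T k i = cp d (s * f)
      rw [hs]
      exact (cp_eq_self hTh).symm
  choose S hS1 hS2 using h1
  exact ⟨S, hS1, Matrix.ext fun k i => hS2 k i⟩

lemma red_mem_wtA {ι κ : Type} {T : Matrix κ ι (Pol 5)} {k : κ} {i : ι} {e : ℤ}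
    (h : Hg (T k i) e) : red hf T k i ∈ (cubic f hf).wtA e := ⟨T k i, h, rfl⟩

variable (hf)

/-- The morphism of free modules given by a matrix of polynomials. -/
def mg {ι κ : Type} [Fintype ι] [Fintype κ] (w : ι → ℤ) (w' : κ → ℤ) (q q' : ℤ)
    (T : Matrix κ ι (Pol 5)) (hT : ∀ k i, Hg (T k i) (w i - w' k + (q' - q))) :
    FrG (cubic f hf) w q ⟶ FrG (cubic f hf) w' q' :=
  matG (red hf T) fun k i => red_mem_wtA (hT k i)

variable {hf} in
lemma mg_comp {ι κ τ : Type} [Fintype ι] [Fintype κ] [Fintype τ] {w : ι → ℤ} {w' : κ → ℤ}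
    {w'' : τ → ℤ} {q q' q'' : ℤ} (T : Matrix κ ι (Pol 5))
    (hT : ∀ k i, Hg (T k i) (w i - w' k + (q' - q))) (T' : Matrix τ κ (Pol 5))
    (hT' : ∀ k i, Hg (T' k i) (w' i - w'' k + (q'' - q')))
    (hTT' : ∀ k i, Hg ((T' * T) k i) (w i - w'' k + (q'' - q))) :
    mg hf w w' q q' T hT ≫ mg hf w' w'' q' q'' T' hT' = mg hf w w'' q q'' (T' * T) hTT' := by
  unfold mg
  rw [matG_comp _ _ _ _ (by
    rw [← red_mul]
    exact fun k i => red_mem_wtA (hTT' k i))]
  congr 1
  exact (red_mul _ _).symm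

variable {hf} in
lemma mg_units_smul {ι κ : Type} [Fintype ι] [Fintype κ] {w : ι → ℤ} {w' : κ → ℤ} {q q' : ℤ}
    (c : ℤˣ) (T : Matrix κ ι (Pol 5)) (hT : ∀ k i, Hg (T k i) (w i - w' k + (q' - q))) :
    c • mg hf w w' q q' T hT = mg hf w w' q q' ((c : ℤ) • T) (fun k i => by
      rcases Int.units_eq_one_or c with rfl | rfl
      · simpa using hT k i
      · simpa using (hT k i).neg) := by
  rcases Int.units_eq_one_or c with rfl | rfl
  · simp
  · refine frG_hom_ext fun m v => ?_
    change _ = (red hf (((-1 : ℤˣ) : ℤ) • T)).mulVec (frVal v)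
    rw [Units.val_neg, Units.val_one, neg_smul, one_smul, red_neg, Matrix.neg_mulVec]
    rw [Units.neg_smul, one_smul]
    rfl

variable {hf} in
lemma mg_congr {ι κ : Type} [Fintype ι] [Fintype κ] {w : ι → ℤ} {w' : κ → ℤ} {q q' : ℤ}
    {T T' : Matrix κ ι (Pol 5)} (h : T = T') (hT : ∀ k i, Hg (T k i) (w i - w' k + (q' - q)))
    (hT' : ∀ k i, Hg (T' k i) (w i - w' k + (q' - q))) :
    mg hf w w' q q' T hT = mg hf w w' q q' T' hT' := by
  subst h; rfl

/-- The complex `P_E` of a graded matrix factorization: `P_E^n` has the degree `m` part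
`{v : v i has weight 2 m + 3 n - w i}`, and the differential is `Q` modulo `f`. -/
def PE (E : MF f) : CochainComplex (Gr (cubic f hf)) ℤ where
  X n := FrG (cubic f hf) E.w (3 * n)
  d i j := if h : i + 1 = j then mg hf E.w E.w (3 * i) (3 * j) E.Q (fun k l =>
    (E.hQ k l).of_eq (by rw [← h]; ring)) else 0
  shape i j hij := dif_neg hij
  d_comp_d' i j k hij hjk := by
    obtain rfl : i + 1 = j := hij
    obtain rfl : i + 1 + 1 = k := hjk
    rw [dif_pos rfl, dif_pos rfl, mg_comp _ _ _ _ (fun a b => by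
      rw [E.sq]
      have h2 := MF.one_mem E a b
      exact ((hg_f (hf := hf)).mul h2).of_eq (by ring))]
    unfold mg
    have h3 : red hf (E.Q * E.Q) = 0 := by
      rw [E.sq]
      exact red_f_smul _
    exact (matG_congr (T' := 0) (hT' := fun _ _ => Submodule.zero_mem _)
      (fun k i _ => congrFun (congrFun h3 k) i)).trans matG_zero

variable {hf}

lemma PE_X (E : MF f) (n : ℤ) : (PE hf E).X n = FrG (cubic f hf) E.w (3 * n) := rfl

lemma PE_d (E : MF f) (i j : ℤ) (h : i + 1 = j) : (PE hf E).d i j =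
    mg hf E.w E.w (3 * i) (3 * j) E.Q (fun k l => (E.hQ k l).of_eq (by rw [← h]; ring)) :=
  dif_pos h

lemma negOnePow_three_mul (n : ℤ) : ((3 * n).negOnePow : ℤ) = (n.negOnePow : ℤ) := by
  rw [show 3 * n = n + 2 * n by ring, Int.negOnePow_add, Int.negOnePow_two_mul, mul_one]

variable (hf)

/-- The morphism of complexes `P_E ⟶ P_F⟦n⟧` given by a cocycle of weight `3 n`. -/
def phi {E F : MF f} (n : ℤ) (α : Matrix F.ι E.ι (Pol 5)) (hα : α ∈ MF.Z E F (3 * n)) :
    PE hf E ⟶ (PE hf F)⟦n⟧ where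
  f k := mg hf E.w F.w (3 * k) (3 * (k + n)) α (fun a b => (hα.1 a b).of_eq (by ring))
  comm' i j hij := by
    obtain rfl : i + 1 = j := hij
    have h1 : F.Q * α = (n.negOnePow : ℤ) • (α * E.Q) := by
      have := LinearMap.mem_ker.1 hα.2
      rw [MF.dm_apply, sub_eq_zero, negOnePow_three_mul] at this
      exact this
    have h2 : (n.negOnePow : ℤ) • (F.Q * α) = α * E.Q := by
      rw [h1, smul_smul, MF.negOnePow_sq, one_smul]
    have h3 : ∀ a b, Hg ((F.Q * α) a b) (E.w b - F.w a + (3 * (i + 1 + n) - 3 * i)) :=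
      fun a b => (MF.mul_mem (MF.Q_mem F) hα.1 a b).of_eq (by ring)
    have h4 : ∀ a b, Hg ((α * E.Q) a b) (E.w b - F.w a + (3 * (i + 1 + n) - 3 * i)) :=
      fun a b => (MF.mul_mem hα.1 (MF.Q_mem E) a b).of_eq (by ring)
    rw [PE_d E i (i + 1) rfl, mg_comp _ _ _ _ h4]
    rw [CochainComplex.shiftFunctor_obj_d', PE_d F (i + n) (i + 1 + n) (by ring),
      Linear.comp_units_smul, mg_comp _ _ _ _ h3, mg_units_smul, mg_congr]
    exact h2

/-- The objects of the homotopy category of graded modules isomorphic to some `P_E`. -/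
def kProp : ObjectProperty (HomotopyCategory (Gr (cubic f hf)) (ComplexShape.up ℤ)) :=
  fun L => ∃ E : MF f, Nonempty (L ≅ (HomotopyCategory.quotient _ _).obj (PE hf E))

end H24.Ku
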