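import Pool.Agent.H27.Orl.NE

/-!
# KUD-7 Q1Fr: `lowF` and `Q1` of the free modules `FrG X w q`

`FrG X w q` in degree `m`: the `v : ι → A` with `v i` of weight `2 m + q - w i`. It is the sum of the
`A(-n_i)`, `n_i = (w i - q)/2` (only `i` with `w i - q` even).

`mem_lowSub_FrG`: `→`: span induction; for `x` in degree `m' ≤ 0` and `q < w i`: the entry
`frVal x i` has weight `2 m' + q - w i < 0`, so it is `0` (`eq_zero_of_mem_wtA_neg`), and the
multiplication acts entrywise. `←`: `fr_eq_sum` writes `v = ∑ i, (map a_i) (frE i)`, the terms with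
`q < w i` vanish (coordinate zero), for the others `frE i` has degree `(w i - q)/2 ≤ 0`.

`low_FrG_iso`: the morphism `FrG X (w ∘ Subtype.val) q ⟶ FrG X w q` given by `matG` of the
inclusion matrix (`fun k i => if k = i.1 then 1 else 0`) lands in `lowSub` (build the morphism to
`(lowSub _).sub` by `frHom` or by hand) and is bijective onto it in each degree (`mem_lowSub_FrG`);
`isIso_iff_bijective`.

`projective_Q1_FrG`: `Q1 (FrG X w q)` is a direct factor of `FrG X w q`: the endomorphism
`matG (diagonal (if w i ≤ q then 0 else 1))` of `FrG X w q` kills `lowSub` (`mem_lowSub_FrG`), so it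
factors as `(Q1π X).app _ ≫ s` (`GrSub.exists_desc`), and `s ≫ (Q1π X).app _ = 𝟙` (cancel the epi
`Q1π`: `v - e v ∈ lowSub`). Then `Projective.of_iso`/retract: `Projective` of a retract: given an epi
`e : A ⟶ B` and `g : Q1 F ⟶ B`, lift `π ≫ g` through `e` and precompose with `s`
(`Mathlib: CategoryTheory.Retract.projective` if it exists).
-/

open CategoryTheory CategoryTheory.Limits MvPolynomial KuMF

set_option backward.isDefEq.respectTransparency false

noncomputable section

namespace H24.Ku

variable {X : ProjData} {ι : Type} [Fintype ι]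

/-- a coordinate of an element of `FrG` in degree `n` -/
def frCoo (w : ι → ℤ) (q : ℤ) (n : Deg X) (i : ι) : (FrG X w q).obj.obj n →ₗ[ℂ] X.A :=
  (LinearMap.proj i).comp (frVal (w := w) (q := q) (n := n))

lemma frCoo_apply (w : ι → ℤ) (q : ℤ) (n : Deg X) (i : ι) (v : (FrG X w q).obj.obj n) :
    frCoo w q n i v = frVal (w := w) (q := q) v i := rfl

lemma frCoo_map (w : ι → ℤ) (q : ℤ) {m n : Deg X} (b : m ⟶ n) (z : (FrG X w q).obj.obj m) (i : ι) :
    frCoo w q n i (((FrG X w q).obj.map b).hom z) = hv b * frCoo w q m i z := rfl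

theorem mem_lowSub_FrG (w : ι → ℤ) (q : ℤ) (n : Deg X) (v : (FrG X w q).obj.obj n) :
    v ∈ (lowSub (FrG X w q)).S n ↔ ∀ i, q < w i → frVal (w := w) (q := q) v i = 0 := by
  constructor
  · intro h i hi
    rw [← frCoo_apply]
    induction h using Submodule.span_induction with
    | mem x h =>
      obtain ⟨m', hm', b, z, rfl⟩ := h
      have h1 : frCoo w q m' i z = 0 := by
        refine eq_zero_of_mem_wtA_neg (frVal_mem (w := w) (q := q) z i) ?_
        omega
      rw [frCoo_map, h1, mul_zero]
    | zero => exact map_zero (frCoo w q n i)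
    | add x y _ _ hx hy => exact (map_add (frCoo w q n i) x y).trans (by rw [hx, hy, add_zero])
    | smul c x _ hx => exact (map_smul (frCoo w q n i) c x).trans (by rw [hx, smul_zero])
  · intro h
    classical
    obtain ⟨a, ha1, ha2⟩ := fr_eq_sum w q n v
    rw [ha2]
    refine Submodule.sum_mem _ fun i _ => ?_
    by_cases hi : q < w i.1
    · have h1 : a i = 0 := hv_ext (by rw [ha1, hv_zero, h _ hi])
      rw [h1]
      have h2 := gr_map_zero (FrG X w q) (m := ⟨(w i - q) / 2⟩) (n := n)
      change ((FrG X w q).obj.map 0).hom _ ∈ _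
      rw [h2]
      exact Submodule.zero_mem _
    · exact Submodule.subset_span ⟨⟨(w i - q) / 2⟩, by
        have := i.2.two_dvd
        change (w i - q) / 2 ≤ 0
        omega, a i, _, rfl⟩

theorem low_FrG_iso (w : ι → ℤ) (q : ℤ) :
    Nonempty ((lowF X).obj (FrG X w q) ≅ FrG X (fun i : {i : ι // w i ≤ q} => w i.1) q) := by
  classical
  let T : Matrix {i : ι // w i ≤ q} ι X.A := fun k i => if i = k.1 then 1 else 0
  have hT : ∀ (k : {i : ι // w i ≤ q}) (i : ι), T k i ∈ X.wtA (w i - w k.1 + (q - q)) := by
    intro k i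
    by_cases h : i = k.1
    · subst h
      have h1 : T k k.1 = 1 := if_pos rfl
      rw [h1, sub_self, sub_self, add_zero]
      exact one_mem_wtA
    · have h1 : T k i = 0 := if_neg h
      rw [h1]
      exact Submodule.zero_mem _
  let φ : FrG X w q ⟶ FrG X (fun i : {i : ι // w i ≤ q} => w i.1) q := matG T hT
  have hφ : ∀ (n : Deg X) (v : (Fr X w q).obj n) (k : {i : ι // w i ≤ q}),
      frVal (w := fun i : {i : ι // w i ≤ q} => w i.1) (q := q) ((φ.hom.app n).hom v) k =
        frVal v k.1 := by
    intro n v k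
    have h1 := congrFun (frVal_matG (w := w) (w' := fun i : {i : ι // w i ≤ q} => w i.1) T hT n v) k
    refine h1.trans ?_
    simp [Matrix.mulVec, dotProduct, T]
  let ψ : (lowF X).obj (FrG X w q) ⟶ FrG X (fun i : {i : ι // w i ≤ q} => w i.1) q :=
    (lowSub (FrG X w q)).ι ≫ φ
  have hψ : IsIso ψ := by
    rw [isIso_iff_bijective]
    intro n
    constructor
    · intro x y hxy
      apply Subtype.ext
      apply frVal_injective (w := w) (q := q)
      funext i
      by_cases hi : q < w i
      · rw [(mem_lowSub_FrG w q n x.1).1 x.2 i hi, (mem_lowSub_FrG w q n y.1).1 y.2 i hi]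
      · have h1 := hφ n x.1 ⟨i, by omega⟩
        have h2 := hφ n y.1 ⟨i, by omega⟩
        refine h1.symm.trans (Eq.trans ?_ h2)
        exact congrArg (fun z => frVal (w := fun i : {i : ι // w i ≤ q} => w i.1) (q := q) z
          ⟨i, by omega⟩) hxy
    · intro u
      let v : (Fr X w q).obj n := frMk (fun i => if h : w i ≤ q then
          frVal (w := fun i : {i : ι // w i ≤ q} => w i.1) (q := q) u ⟨i, h⟩ else 0) (by
        intro i
        by_cases h : w i ≤ q
        · rw [dif_pos h]
          exact frVal_mem (w := fun i : {i : ι // w i ≤ q} => w i.1) (q := q) u ⟨i, h⟩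
        · rw [dif_neg h]
          exact Submodule.zero_mem _)
      have hv1 : ∀ i, frVal (w := w) (q := q) v i = if h : w i ≤ q then
          frVal (w := fun i : {i : ι // w i ≤ q} => w i.1) (q := q) u ⟨i, h⟩ else 0 := fun i => rfl
      refine ⟨⟨v, (mem_lowSub_FrG w q n v).2 fun i hi => ?_⟩, ?_⟩
      · rw [hv1, dif_neg (by omega)]
      · apply frVal_injective (w := fun i : {i : ι // w i ≤ q} => w i.1) (q := q)
        funext k
        refine (hφ n v k).trans ?_
        rw [hv1, dif_pos k.2]
  exact ⟨asIso ψ⟩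

/-- If all generators have degree `≤ 0`, the quotient is zero. -/
theorem isZero_Q1_FrG (w : ι → ℤ) (q : ℤ) (h : ∀ i, w i ≤ q) :
    IsZero ((Q1 X).obj (FrG X w q)) := by
  rw [isZero_iff_subsingleton]
  intro n
  change Subsingleton ((FrG X w q).obj.obj n ⧸ (lowSub (FrG X w q)).S n)
  have h1 : (lowSub (FrG X w q)).S n = ⊤ := by
    rw [eq_top_iff]
    intro v _
    refine (mem_lowSub_FrG w q n v).2 fun i hi => ?_
    exact absurd (h i) (by omega)
  rw [h1]
  infer_instance

/-- If all generators have degree `> 0`, the submodule is zero. -/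
theorem isZero_lowF_FrG (w : ι → ℤ) (q : ℤ) (h : ∀ i, q < w i) :
    IsZero ((lowF X).obj (FrG X w q)) := by
  rw [isZero_iff_subsingleton]
  intro n
  change Subsingleton ((lowSub (FrG X w q)).S n)
  refine ⟨fun x y => Subtype.ext (frVal_injective (w := w) (q := q) ?_)⟩
  funext i
  rw [(mem_lowSub_FrG w q n x.1).1 x.2 i (h i), (mem_lowSub_FrG w q n y.1).1 y.2 i (h i)]

lemma Q1_FrG_section (w : ι → ℤ) (q : ℤ) :
    ∃ s : (lowSub (FrG X w q)).quo ⟶ FrG X w q, s ≫ (lowSub (FrG X w q)).π = 𝟙 _ := by
  classical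
  let T : Matrix ι ι X.A := Matrix.diagonal fun i => if w i ≤ q then 0 else 1
  have hT : ∀ k i, T k i ∈ X.wtA (w i - w k + (q - q)) := by
    intro k i
    by_cases h : k = i
    · subst h
      rw [show T k k = if w k ≤ q then 0 else 1 from Matrix.diagonal_apply_eq _ _, sub_self,
        sub_self, add_zero]
      split_ifs
      · exact Submodule.zero_mem _
      · exact one_mem_wtA
    · rw [show T k i = 0 from Matrix.diagonal_apply_ne _ h]
      exact Submodule.zero_mem _
  let e : FrG X w q ⟶ FrG X w q := matG T hT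
  have he : ∀ (n : Deg X) (v : (Fr X w q).obj n) (i : ι),
      frVal (w := w) (q := q) ((e.hom.app n).hom v) i = if w i ≤ q then 0 else frVal v i := by
    intro n v i
    have h1 := congrFun (frVal_matG (w := w) (w' := w) T hT n v) i
    refine h1.trans ?_
    rw [Matrix.mulVec_diagonal]
    split_ifs <;> simp
  obtain ⟨s, hs⟩ := GrSub.exists_desc (S := lowSub (FrG X w q)) e (fun n x hx => by
    apply frVal_injective (w := w) (q := q)
    funext i
    refine (he n x i).trans ?_
    by_cases h : w i ≤ q
    · rw [if_pos h]; rfl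
    · rw [if_neg h]
      exact (mem_lowSub_FrG w q n x).1 hx i (by omega))
  refine ⟨s, ?_⟩
  rw [← cancel_epi (lowSub (FrG X w q)).π, ← Category.assoc, hs, Category.comp_id]
  apply gr_hom_ext
  intro n v
  change ((lowSub (FrG X w q)).S n).mkQ ((e.hom.app n).hom v) =
    ((lowSub (FrG X w q)).S n).mkQ v
  refine (Submodule.Quotient.eq _).2 ?_
  refine (mem_lowSub_FrG w q n _).2 fun i hi => ?_
  change frVal (w := w) (q := q) ((e.hom.app n).hom v) i - frVal (w := w) (q := q) v i = 0
  rw [he n v i, if_neg (by omega), sub_self]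

theorem projective_Q1_FrG (w : ι → ℤ) (q : ℤ) : Projective ((Q1 X).obj (FrG X w q)) := by
  obtain ⟨s, hs⟩ := Q1_FrG_section (X := X) w q
  change Projective (lowSub (FrG X w q)).quo
  refine ⟨fun {E M} f e he => ⟨s ≫ Projective.factorThru ((lowSub (FrG X w q)).π ≫ f) e, ?_⟩⟩
  rw [Category.assoc, Projective.factorThru_comp, ← Category.assoc, hs, Category.id_comp]

end H24.Ku
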