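import Pool.Agent.H27.Orl.PE

/-!
# KUD-12 Reg: `x_i` is regular modulo `f` and some of the `x_j`, `i, j ≠ 5`

`f` homogeneous of degree `3` with nonzero coefficient of `x_5^3`. Proof of `reg_pol`: let
`ρ : Pol 5 → Pol 5` be the algebra homomorphism `X j ↦ 0` for `j ∈ s`, `X j ↦ X j` otherwise
(`aeval`). `p - ρ p ∈ span (X j, j ∈ s)` for all `p` (induction on `p`). If
`X i * p = a * f + r`, `r ∈ span (X j)`, then `X i * ρ p = ρ a * ρ f`. The coefficient of `x_5^3` in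
`ρ f` is that of `f` (evaluate at `X 5 ↦ X`, all others `↦ 0`), so `X i ∤ ρ f` (`i ≠ 5`: evaluate at
`X i ↦ 0, X 5 ↦ 1`, other variables `0`: `ρ f ↦ coeff ≠ 0`). `X i` is prime (`MvPolynomial.prime_X`
or `X_prime`), so `ρ a = X i * c`, `ρ p = c * ρ f`, hence `p ≡ ρ p = c * ρ f ≡ c * f`.
`reg_A`: the same in the quotient ring `A = Pol / (f)`, `Js hf s` the ideal of the `x_j`, `j ∈ s`.
`Js_full`: modulo `x_0, …, x_4` the ring `A` is `ℂ[x_5]/(x_5^3)`: `a ∈ A_d`, `d ≥ 3` implies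
`a ∈ Js hf {0,1,2,3,4}`; and a scalar `c • x_5^d` with `d ≤ 2` in `Js` has `c = 0` (evaluate
`X j ↦ 0` for `j < 5`, `X 5 ↦ X` to `ℂ[X]/(X^3)`).
-/

open CategoryTheory CategoryTheory.Limits MvPolynomial KuMF

set_option backward.isDefEq.respectTransparency false

noncomputable section

namespace H24.Ku

variable {f : Pol 5} (hf : f.IsHomogeneous 3)

/-- the ideal of the variables in `s` -/
def Jp (s : Finset (Fin 6)) : Ideal (Pol 5) :=
  Ideal.span ((fun j => (X j : Pol 5)) '' (s : Set (Fin 6)))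

lemma X_mem_Jp {s : Finset (Fin 6)} {j : Fin 6} (hj : j ∈ s) : (X j : Pol 5) ∈ Jp s :=
  Ideal.subset_span ⟨j, hj, rfl⟩

/-- setting the variables in `s` to zero -/
def rho (s : Finset (Fin 6)) : Pol 5 →ₐ[ℂ] Pol 5 := aeval fun j => if j ∈ s then 0 else X j

lemma rho_X {s : Finset (Fin 6)} {j : Fin 6} : rho s (X j) = if j ∈ s then 0 else X j := by
  rw [rho, aeval_X]

lemma sub_rho_mem (s : Finset (Fin 6)) (p : Pol 5) : p - rho s p ∈ Jp s := by
  rw [← Ideal.Quotient.eq]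
  have h : (Ideal.Quotient.mkₐ ℂ (Jp s)) = (Ideal.Quotient.mkₐ ℂ (Jp s)).comp (rho s) := by
    apply MvPolynomial.algHom_ext
    intro j
    rw [AlgHom.comp_apply, rho_X]
    split_ifs with hj
    · rw [map_zero]
      exact Ideal.Quotient.eq_zero_iff_mem.2 (X_mem_Jp hj)
    · rfl
  exact congrArg (fun φ : Pol 5 →ₐ[ℂ] (Pol 5 ⧸ Jp s) => φ p) h

lemma rho_eq_zero {s : Finset (Fin 6)} {p : Pol 5} (hp : p ∈ Jp s) : rho s p = 0 := by
  have h : Jp s ≤ RingHom.ker (rho s) := by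
    rw [Jp, Ideal.span_le]
    rintro _ ⟨j, hj, rfl⟩
    have hj' : j ∈ s := hj
    rw [SetLike.mem_coe, RingHom.mem_ker, rho_X, if_pos hj']
  exact h hp

/-- evaluation of a homogeneous polynomial at `(0, …, 0, t)` -/
lemma aeval_last {S : Type*} [CommRing S] [Algebra ℂ S] (t : S) (d : ℕ) (p : Pol 5)
    (hp : ∀ m ∈ p.support, m.degree = d) :
    aeval (fun j : Fin 6 => if j = 5 then t else 0) p =
      algebraMap ℂ S (coeff (Finsupp.single 5 d) p) * t ^ d := by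
  classical
  have h1 : ∀ m ∈ p.support, m ≠ Finsupp.single 5 d →
      (∏ j : Fin 6, (if j = 5 then t else 0) ^ m j) = 0 := by
    intro m hm hne
    by_contra hprod
    apply hne
    have h2 : ∀ j : Fin 6, j ≠ 5 → m j = 0 := by
      intro j hj
      by_contra hmj
      apply hprod
      exact Finset.prod_eq_zero (Finset.mem_univ j) (by rw [if_neg hj, zero_pow hmj])
    have h3 : m = Finsupp.single 5 (m 5) := by
      ext j
      by_cases hj : j = 5
      · subst hj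
        rw [Finsupp.single_eq_same]
      · rw [h2 j hj, Finsupp.single_eq_of_ne hj]
    have h4 := hp m hm
    rw [h3, Finsupp.degree_single] at h4
    rw [h3, h4]
  rw [aeval_def, eval₂_eq']
  by_cases hs : Finsupp.single 5 d ∈ p.support
  · rw [Finset.sum_eq_single (Finsupp.single 5 d)]
    · congr 1
      rw [Finset.prod_eq_single 5]
      · rw [if_pos rfl, Finsupp.single_eq_same]
      · intro j _ hj
        rw [Finsupp.single_eq_of_ne hj, pow_zero]
      · intro h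
        exact absurd (Finset.mem_univ _) h
    · intro m hm hne
      rw [h1 m hm hne, mul_zero]
    · intro h
      exact absurd hs h
  · rw [MvPolynomial.notMem_support_iff.1 hs, map_zero, zero_mul]
    refine Finset.sum_eq_zero fun m hm => ?_
    rw [h1 m hm (fun h => hs (h ▸ hm)), mul_zero]

lemma hom_support {d : ℕ} (hf : f.IsHomogeneous d) : ∀ m ∈ f.support, m.degree = d := by
  intro m hm
  rw [Finsupp.degree_eq_weight_one]
  exact hf (MvPolynomial.mem_support_iff.1 hm)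

/-- evaluation at `(0, …, 0, 1)` -/
def ev5 : Pol 5 →ₐ[ℂ] ℂ := aeval fun j : Fin 6 => if j = 5 then 1 else 0

lemma ev5_rho {s : Finset (Fin 6)} (hs : 5 ∉ s) (p : Pol 5) : ev5 (rho s p) = ev5 p := by
  have h : ev5.comp (rho s) = ev5 := by
    apply MvPolynomial.algHom_ext
    intro j
    rw [AlgHom.comp_apply, rho_X]
    split_ifs with hj
    · rw [map_zero, ev5, aeval_X, if_neg]
      rintro rfl
      exact hs hj
    · rfl
  exact congrArg (fun φ : Pol 5 →ₐ[ℂ] ℂ => φ p) h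

lemma ev5_f (hf : f.IsHomogeneous 3) : ev5 f = f.coeff (Finsupp.single 5 3) := by
  have h := aeval_last (1 : ℂ) 3 f (hom_support hf)
  rw [one_pow, mul_one] at h
  exact h

theorem reg_pol (hf : f.IsHomogeneous 3) (hc : f.coeff (Finsupp.single 5 3) ≠ 0)
    (s : Finset (Fin 6)) (hs : 5 ∉ s) (i : Fin 6) (hi5 : i ≠ 5) (his : i ∉ s) (p : Pol 5)
    (h : X i * p ∈ Ideal.span {f} ⊔ Ideal.span ((fun j => (X j : Pol 5)) '' (s : Set (Fin 6)))) :
    p ∈ Ideal.span {f} ⊔ Ideal.span ((fun j => (X j : Pol 5)) '' (s : Set (Fin 6))) := by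
  change X i * p ∈ Ideal.span {f} ⊔ Jp s at h
  change p ∈ Ideal.span {f} ⊔ Jp s
  obtain ⟨y, hy, r, hr, hyr⟩ := Submodule.mem_sup.1 h
  obtain ⟨a, rfl⟩ := Ideal.mem_span_singleton'.1 hy
  have h1 : X i * rho s p = rho s a * rho s f := by
    have h2 := congrArg (rho s) hyr
    rw [map_add, map_mul, map_mul, rho_eq_zero hr, add_zero, rho_X, if_neg his] at h2
    exact h2.symm
  have h3 : ¬ (X i : Pol 5) ∣ rho s f := by
    rintro ⟨q, hq⟩
    have h4 := congrArg ev5 hq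
    rw [ev5_rho hs, ev5_f hf, map_mul] at h4
    apply hc
    rw [h4, ev5, aeval_X, if_neg hi5, zero_mul]
  have h5 : (X i : Pol 5) ∣ rho s a :=
    ((MvPolynomial.X_prime).dvd_or_dvd ⟨rho s p, h1.symm⟩).resolve_right h3
  obtain ⟨c, hc'⟩ := h5
  have h6 : rho s p = c * rho s f := by
    rw [hc', mul_assoc] at h1
    exact mul_left_cancel₀ (MvPolynomial.X_ne_zero i) h1
  have h7 : p = c * f + ((p - rho s p) - c * (f - rho s f)) := by
    rw [h6]; ring
  rw [h7]
  refine Submodule.add_mem_sup (Ideal.mul_mem_left _ _ (Ideal.mem_span_singleton_self f)) ?_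
  exact Ideal.sub_mem _ (sub_rho_mem s p) (Ideal.mul_mem_left _ _ (sub_rho_mem s f))

/-- The class of a variable in `A`. -/
def xc (j : Fin 6) : (cubic f hf).A := Ideal.Quotient.mk (cubic f hf).I (X j : Pol 5)

lemma X_mem_homog {N : ℕ} (j : Fin (N + 1)) : (X j : Pol N) ∈ homog N 1 := by
  intro m hm
  rw [MvPolynomial.support_X, Finset.mem_singleton] at hm
  subst hm
  simp

lemma xc_mem (j : Fin 6) : xc hf j ∈ (cubic f hf).piece 1 :=
  ⟨(X j : Pol 5), X_mem_homog j, rfl⟩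

/-- The ideal of `A` generated by the `x_j`, `j ∈ s`. -/
def Js (s : Finset (Fin 6)) : Ideal (cubic f hf).A := Ideal.span (xc hf '' (s : Set (Fin 6)))

lemma smulA (c : ℂ) (x : (cubic f hf).A) : c • x = algebraMap ℂ (cubic f hf).A c * x :=
  Algebra.smul_def c x

lemma Js_eq_map (s : Finset (Fin 6)) :
    Js hf s = (Jp s).map (Ideal.Quotient.mk (cubic f hf).I) := by
  rw [Js, Jp, Ideal.map_span, ← Set.image_comp]
  rfl

lemma mk_mem_Js (s : Finset (Fin 6)) (p : Pol 5) :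
    Ideal.Quotient.mk (cubic f hf).I p ∈ Js hf s ↔ p ∈ Ideal.span {f} ⊔ Jp s := by
  rw [Js_eq_map, ← Ideal.mem_comap, Ideal.comap_map_of_surjective _ Ideal.Quotient.mk_surjective,
    ← RingHom.ker_eq_comap_bot, Ideal.mk_ker, sup_comm]
  rfl

theorem reg_A (hc : f.coeff (Finsupp.single 5 3) ≠ 0)
    (s : Finset (Fin 6)) (hs : 5 ∉ s) (i : Fin 6) (hi5 : i ≠ 5) (his : i ∉ s)
    (a : (cubic f hf).A) (h : xc hf i * a ∈ Js hf s) : a ∈ Js hf s := by
  obtain ⟨p, rfl⟩ := Ideal.Quotient.mk_surjective a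
  rw [xc, ← map_mul, mk_mem_Js] at h
  rw [mk_mem_Js]
  exact reg_pol hf hc s hs i hi5 his p h

lemma sub_last_mem (d : ℕ) (p : Pol 5) (hp : ∀ m ∈ p.support, m.degree = d) :
    p - C (coeff (Finsupp.single 5 d) p) * X 5 ^ d ∈ Jp {0, 1, 2, 3, 4} := by
  have h1 : rho {0, 1, 2, 3, 4} p = C (coeff (Finsupp.single 5 d) p) * X 5 ^ d := by
    have h2 := aeval_last (X 5 : Pol 5) d p hp
    have h3 : (fun j : Fin 6 => if j ∈ ({0, 1, 2, 3, 4} : Finset (Fin 6)) then (0 : Pol 5)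
        else X j) = fun j : Fin 6 => if j = 5 then (X 5 : Pol 5) else 0 := by
      funext j
      fin_cases j <;> simp
    rw [rho, h3, h2]
    rfl
  have h4 := sub_rho_mem {0, 1, 2, 3, 4} p
  rwa [h1] at h4

theorem Js_full_rep_aux (d : ℕ) (p : Pol 5) (hp : ∀ m ∈ p.support, m.degree = d) :
    Ideal.Quotient.mk (cubic f hf).I p - coeff (Finsupp.single 5 d) p • xc hf 5 ^ d ∈
      Js hf {0, 1, 2, 3, 4} := by
  have h1 : Ideal.Quotient.mk (cubic f hf).I p - coeff (Finsupp.single 5 d) p • xc hf 5 ^ d =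
      Ideal.Quotient.mk (cubic f hf).I (p - C (coeff (Finsupp.single 5 d) p) * X 5 ^ d) := by
    rw [smulA, map_sub, map_mul, map_pow]
    rfl
  rw [h1, mk_mem_Js]
  exact Submodule.mem_sup_right (sub_last_mem d p hp)

lemma piece_rep {d : ℕ} {a : (cubic f hf).A} (ha : a ∈ (cubic f hf).piece d) :
    ∃ p : Pol 5, (∀ m ∈ p.support, m.degree = d) ∧ Ideal.Quotient.mk (cubic f hf).I p = a := by
  obtain ⟨p, hp, rfl⟩ := ha
  exact ⟨p, fun m hm => by exact_mod_cast hp m hm, rfl⟩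

/-- Every homogeneous element is, modulo `x_0, …, x_4`, a multiple of a power of `x_5`. -/
theorem Js_full_rep' (d : ℕ) (a : (cubic f hf).A) (ha : a ∈ (cubic f hf).piece d) :
    ∃ c : ℂ, a - c • xc hf 5 ^ d ∈ Js hf {0, 1, 2, 3, 4} := by
  obtain ⟨p, hp, rfl⟩ := piece_rep hf ha
  exact ⟨_, Js_full_rep_aux hf d p hp⟩

lemma x5_cube_mem (hc : f.coeff (Finsupp.single 5 3) ≠ 0) :
    xc hf 5 ^ 3 ∈ Js hf {0, 1, 2, 3, 4} := by
  have h1 := Js_full_rep_aux hf 3 f (hom_support hf)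
  have h2 : Ideal.Quotient.mk (cubic f hf).I f = 0 :=
    Ideal.Quotient.eq_zero_iff_mem.2 (Ideal.mem_span_singleton_self f)
  rw [h2, zero_sub, Ideal.neg_mem_iff, smulA] at h1
  have h3 := Ideal.mul_mem_left _ (algebraMap ℂ (cubic f hf).A (f.coeff (Finsupp.single 5 3))⁻¹) h1
  rw [← mul_assoc, ← map_mul, inv_mul_cancel₀ hc, map_one, one_mul] at h3
  exact h3

theorem Js_full_top (hc : f.coeff (Finsupp.single 5 3) ≠ 0) (d : ℤ) (hd : 3 ≤ d)
    (a : (cubic f hf).A) (ha : a ∈ (cubic f hf).piece d) : a ∈ Js hf {0, 1, 2, 3, 4} := by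
  obtain ⟨e, rfl⟩ : ∃ e : ℕ, d = e := ⟨d.toNat, by omega⟩
  obtain ⟨c, h1⟩ := Js_full_rep' hf e a ha
  have he : 3 ≤ e := by exact_mod_cast hd
  have h2 : c • xc hf 5 ^ e ∈ Js hf {0, 1, 2, 3, 4} := by
    rw [smulA, ← Nat.sub_add_cancel he, pow_add, ← mul_assoc]
    exact Ideal.mul_mem_left _ _ (x5_cube_mem hf hc)
  have h3 := Ideal.add_mem _ h1 h2
  rwa [sub_add_cancel] at h3

/-- Every homogeneous element is, modulo `x_0, …, x_4`, a multiple of a power of `x_5`. -/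
theorem Js_full_rep (d : ℕ) (a : (cubic f hf).A) (ha : a ∈ (cubic f hf).piece d) :
    ∃ c : ℂ, a - c • xc hf 5 ^ d ∈ Js hf {0, 1, 2, 3, 4} :=
  Js_full_rep' hf d a ha

theorem Js_full_ne (d : ℕ) (hd : d ≤ 2) : xc hf 5 ^ d ∉ Js hf {0, 1, 2, 3, 4} := by
  intro h
  rw [xc, ← map_pow, mk_mem_Js] at h
  obtain ⟨y, hy, r, hr, hyr⟩ := Submodule.mem_sup.1 h
  obtain ⟨a, rfl⟩ := Ideal.mem_span_singleton'.1 hy
  set φ : Pol 5 →ₐ[ℂ] Polynomial ℂ :=
    aeval fun j : Fin 6 => if j = 5 then Polynomial.X else 0 with hφ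
  have h1 : φ r = 0 := by
    have h2 : Jp {0, 1, 2, 3, 4} ≤ RingHom.ker φ := by
      rw [Jp, Ideal.span_le]
      rintro _ ⟨j, hj, rfl⟩
      rw [SetLike.mem_coe, RingHom.mem_ker, hφ, aeval_X, if_neg]
      rintro rfl
      simp at hj
    exact h2 hr
  have h2 : φ f = Polynomial.C (f.coeff (Finsupp.single 5 3)) * Polynomial.X ^ 3 :=
    aeval_last (Polynomial.X : Polynomial ℂ) 3 f (hom_support hf)
  have h3 := congrArg φ hyr
  rw [map_add, map_mul, h1, add_zero, h2, map_pow, hφ, aeval_X, if_pos rfl, ← mul_assoc] at h3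
  have h4 := congrArg (fun q : Polynomial ℂ => q.coeff d) h3
  simp only [Polynomial.coeff_X_pow, if_pos] at h4
  rw [Polynomial.coeff_mul_X_pow', if_neg (by omega)] at h4
  exact zero_ne_one h4

end H24.Ku
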